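import Pool.Agent.Lib.MP_6b3014_an.Defs

/-!
# Auxiliary definitions of the proof
-/

open Set MeasureTheory Metric
open scoped ENNReal NNReal

namespace Pool.QC3

/-- distance to the vertical axis -/
noncomputable def rad (x : E) : ℝ := √(x 0 ^ 2 + x 1 ^ 2)

/-- the twisting profile: supported in the solid torus `|rad - 2| < 1`, `|x 2| < 1`,
equal to `1` exactly on the circle `rad = 2`, `x 2 = 0` -/
noncomputable def phi (x : E) : ℝ := max 0 (1 - max |rad x - 2| |x 2|)

/-- rotation about the vertical axis by the angle `c * phi x` -/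
noncomputable def twist (c : ℝ) (x : E) : E :=
  !₂[Real.cos (c * phi x) * x 0 - Real.sin (c * phi x) * x 1,
    Real.sin (c * phi x) * x 0 + Real.cos (c * phi x) * x 1, x 2]

/-- the closed solid torus which contains the support of `phi` -/
def W : Set E := {x | 1 ≤ rad x ∧ rad x ≤ 3 ∧ |x 2| ≤ 1}

/-- the open solid torus -/
def A0 : Set E := {x | 0 < phi x}

/-- the circle -/
def C0 : Set E := {x | phi x = 1}

/-- parametrisation of the circle -/
noncomputable def circ (t : ℝ) : E := !₂[2 * Real.cos t, 2 * Real.sin t, 0]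

/-- the ambient ball -/
def B0 : Set E := ball 0 4

/-- the curve family: curves in the ball which go from the circle to the outside of the torus -/
def Gam : Set Curve :=
  {c | CurveIn B0 c ∧ ∃ a ∈ c.1, ∃ b ∈ c.1, a ≤ b ∧ phi (c.2 a) = 1 ∧ phi (c.2 b) = 0}

/-- `x` and `y` are joined by a Lipschitz path of `ρ`-length at most `η` -/
def Cheap (ρ : E → ℝ≥0∞) (η : ℝ≥0∞) (x y : E) : Prop :=
  ∃ T : ℝ, 0 ≤ T ∧ ∃ α : ℝ → E, LipschitzWith 1 α ∧ α 0 = x ∧ α T = y ∧
    ∫⁻ τ in Icc 0 T, ρ (α τ) ≤ η

/-- the coordinates of a point, in the space with the sup norm -/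
def co (x : E) : Fin 3 → ℝ := fun i => x i

/-- the point with given coordinates -/
def pt (u : Fin 3 → ℝ) : E := WithLp.toLp 2 u

/-- the point of the face with coordinate number `i` equal to `v` and the other two given by `u` -/
def ins (i : Fin 3) (v : ℝ) (u : Fin 2 → ℝ) : E := pt (i.insertNth (α := fun _ => ℝ) v u)

/-- the two other coordinates of the centre -/
def drop (i : Fin 3) (a : Fin 3 → ℝ) : Fin 2 → ℝ := fun j => a (i.succAbove j)

/-- the integral of `ρ ^ 3` over one face of the cube surface with centre `a` and radius `s`;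
`e` is `1` or `-1` -/
noncomputable def faceI (ρ : E → ℝ≥0∞) (a : Fin 3 → ℝ) (i : Fin 3) (e s : ℝ) : ℝ≥0∞ :=
  ∫⁻ u in closedBall (drop i a) s, ρ (ins i (a i + e * s) u) ^ 3

/-- the integral of `ρ ^ 3` over the whole cube surface -/
noncomputable def surfI (ρ : E → ℝ≥0∞) (a : Fin 3 → ℝ) (s : ℝ) : ℝ≥0∞ :=
  ∑ i : Fin 3, (faceI ρ a i 1 s + faceI ρ a i (-1) s)

end Pool.QC3
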