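import Pool.Agent.Lib.MP_6b3014_an.Base

/-!
# MP_6b3014_an, row CH1

Statements must stay exactly as they are. You may use everything that comes EARLIER in the files
Defs, Base, SkelA, SkelB, SkelC, SkelD, SkelE (there it is sorried), nothing that comes later.
-/

open Set MeasureTheory Metric
open scoped ENNReal NNReal Topology

namespace Pool.QC3

theorem Cheap.mono {ρ : E → ℝ≥0∞} {η η' : ℝ≥0∞} {x y : E} (h : Cheap ρ η x y) (hle : η ≤ η') :
    Cheap ρ η' x y := by
  obtain ⟨T, hT, α, hα, h0, h1, h2⟩ := h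
  exact ⟨T, hT, α, hα, h0, h1, h2.trans hle⟩

/-- PROOF: `T = 0`, the constant path; the integral over `Icc 0 0` vanishes. -/
theorem Cheap.refl (ρ : E → ℝ≥0∞) (x : E) : Cheap ρ 0 x x := by
  refine ⟨0, le_rfl, fun _ => x, LipschitzWith.const' x, rfl, rfl, ?_⟩
  rw [Icc_self, setLIntegral_measure_zero _ _ (by simp)]

/-- PROOF: `τ ↦ α (T - τ)`; substitution `τ ↦ T - τ` (`lintegral_sub_left_eq_self` applied to the
indicator function of `Icc 0 T`). -/
theorem Cheap.symm {ρ : E → ℝ≥0∞} {η : ℝ≥0∞} {x y : E} (h : Cheap ρ η x y) :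
    Cheap ρ η y x := by
  obtain ⟨T, hT, α, hα, h0, h1, h2⟩ := h
  refine ⟨T, hT, fun τ => α (T - τ), ?_, by simp [h1], by simp [h0], ?_⟩
  · have h3 : LipschitzWith 1 fun τ : ℝ => T - τ := by
      refine LipschitzWith.of_dist_le_mul fun s t => ?_
      rw [Real.dist_eq, Real.dist_eq, NNReal.coe_one, one_mul, sub_sub_sub_cancel_left,
        abs_sub_comm]
    have h4 := hα.comp h3
    rw [mul_one] at h4
    exact h4
  · refine le_trans (le_of_eq ?_) h2
    rw [← lintegral_indicator measurableSet_Icc, ← lintegral_indicator measurableSet_Icc,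
      ← lintegral_sub_left_eq_self _ T]
    refine lintegral_congr fun τ => ?_
    have hiff : T - τ ∈ Icc 0 T ↔ τ ∈ Icc 0 T := by
      constructor
      · rintro ⟨h4, h5⟩
        exact ⟨by linarith, by linarith⟩
      · rintro ⟨h4, h5⟩
        exact ⟨by linarith, by linarith⟩
    by_cases hτ : τ ∈ Icc 0 T
    · rw [indicator_of_mem hτ, indicator_of_mem (hiff.mpr hτ)]
      simp only [sub_sub_cancel]
    · rw [indicator_of_notMem hτ, indicator_of_notMem fun h4 => hτ (hiff.mp h4)]

private theorem CH1_lip {α₁ α₂ : ℝ → E} (h1 : LipschitzWith 1 α₁) (h2 : LipschitzWith 1 α₂)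
    (T : ℝ) : LipschitzWith 1 fun τ => α₁ (min τ T) + α₂ (max (τ - T) 0) := by
  have key : ∀ s t : ℝ, s ≤ t → dist (α₁ (min s T) + α₂ (max (s - T) 0))
      (α₁ (min t T) + α₂ (max (t - T) 0)) ≤ t - s := by
    intro s t hst
    have h3 := h1.dist_le_mul (min s T) (min t T)
    have h4 := h2.dist_le_mul (max (s - T) 0) (max (t - T) 0)
    rw [NNReal.coe_one, one_mul, Real.dist_eq] at h3 h4
    have h5 : |min s T - min t T| = min t T - min s T := by
      rw [abs_sub_comm, abs_of_nonneg]
      have := min_le_min_right T hst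
      linarith
    have h6 : |max (s - T) 0 - max (t - T) 0| = max (t - T) 0 - max (s - T) 0 := by
      rw [abs_sub_comm, abs_of_nonneg]
      have : max (s - T) 0 ≤ max (t - T) 0 := max_le_max_right 0 (by linarith)
      linarith
    have h7 : ∀ r : ℝ, min r T + max (r - T) 0 = r := by
      intro r
      rcases le_total r T with h8 | h8
      · rw [min_eq_left h8, max_eq_right (by linarith)]
        ring
      · rw [min_eq_right h8, max_eq_left (by linarith)]
        ring
    have h8 := h7 s
    have h9 := h7 t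
    refine (dist_add_add_le _ _ _ _).trans ?_
    rw [h5] at h3
    rw [h6] at h4
    linarith
  refine LipschitzWith.of_dist_le_mul fun s t => ?_
  rw [NNReal.coe_one, one_mul, Real.dist_eq]
  rcases le_total s t with hst | hst
  · rw [abs_sub_comm, abs_of_nonneg (by linarith)]
    exact key s t hst
  · rw [abs_of_nonneg (by linarith), dist_comm]
    exact key t s hst

/-- PROOF: `T = T₁ + T₂`, `α τ = α₁ (min τ T₁) + (α₂ (max (τ - T₁) 0) - y)`: equal to `α₁ τ` for
`τ ≤ T₁` (as `α₂ 0 = y`) and to `α₂ (τ - T₁)` for `τ ≥ T₁`. It is `1`-Lipschitz: on each side of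
`T₁` clear, and across `T₁` by the triangle inequality. Split the integral at `T₁`, translation. -/
theorem Cheap.trans {ρ : E → ℝ≥0∞} {η η' : ℝ≥0∞} {x y z : E} (h : Cheap ρ η x y)
    (h' : Cheap ρ η' y z) : Cheap ρ (η + η') x z := by
  obtain ⟨T₁, hT₁, α₁, hα₁, h10, h11, h12⟩ := h
  obtain ⟨T₂, hT₂, α₂, hα₂, h20, h21, h22⟩ := h'
  have hl : LipschitzWith 1 fun τ => α₂ τ - y := by
    refine LipschitzWith.of_dist_le_mul fun s t => ?_
    rw [dist_sub_right]
    exact hα₂.dist_le_mul s t
  refine ⟨T₁ + T₂, by linarith, fun τ => α₁ (min τ T₁) + (α₂ (max (τ - T₁) 0) - y),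
    CH1_lip hα₁ hl T₁, ?_, ?_, ?_⟩
  · simp only
    rw [min_eq_left hT₁, max_eq_right (by linarith), h10, h20, sub_self, add_zero]
  · simp only
    rw [min_eq_right (by linarith), add_sub_cancel_left, max_eq_left hT₂, h11, h21,
      add_sub_cancel]
  · have hU : Icc 0 (T₁ + T₂) ⊆ Icc 0 T₁ ∪ Icc T₁ (T₁ + T₂) := by
      rintro τ ⟨h1, h2⟩
      rcases le_total τ T₁ with h3 | h3
      · exact Or.inl ⟨h1, h3⟩
      · exact Or.inr ⟨h3, h2⟩
    refine (lintegral_mono_set hU).trans ((lintegral_union_le _ _ _).trans (add_le_add ?_ ?_))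
    · refine le_trans (le_of_eq ?_) h12
      refine setLIntegral_congr_fun measurableSet_Icc fun τ hτ => ?_
      simp only
      rw [min_eq_left hτ.2, max_eq_right (by linarith [hτ.2]), h20, sub_self, add_zero]
    · refine le_trans (le_of_eq ?_) h22
      rw [← lintegral_indicator measurableSet_Icc, ← lintegral_indicator measurableSet_Icc]
      refine Eq.trans ?_ (lintegral_sub_right_eq_self _ T₁)
      refine lintegral_congr fun τ => ?_
      have hiff : τ - T₁ ∈ Icc 0 T₂ ↔ τ ∈ Icc T₁ (T₁ + T₂) := by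
        constructor
        · rintro ⟨h4, h5⟩
          exact ⟨by linarith, by linarith⟩
        · rintro ⟨h4, h5⟩
          exact ⟨by linarith, by linarith⟩
      by_cases hτ : τ ∈ Icc T₁ (T₁ + T₂)
      · rw [indicator_of_mem hτ, indicator_of_mem (hiff.mpr hτ)]
        simp only
        rw [min_eq_right hτ.1, max_eq_left (by linarith [hτ.1]), h11, add_sub_cancel]
      · rw [indicator_of_notMem hτ, indicator_of_notMem fun h4 => hτ (hiff.mp h4)]

/-- PROOF: if `x = y` use `Cheap.refl`. Otherwise `T = ‖y - x‖`, `α τ = x + (τ / T) • (y - x)`;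
substitution `τ = T t` (`Measure.addHaar` scaling, `lintegral` over `Icc`; e.g.
`Real.map_volume_mul_left`). -/
theorem Cheap.segment (ρ : E → ℝ≥0∞) (x y : E) :
    Cheap ρ (ENNReal.ofReal ‖y - x‖ * ∫⁻ t in Icc (0 : ℝ) 1, ρ (x + t • (y - x))) x y := by
  by_cases hxy : x = y
  · subst hxy
    exact (Cheap.refl ρ x).mono zero_le
  · have hT : 0 < ‖y - x‖ := norm_pos_iff.mpr (sub_ne_zero.mpr (Ne.symm hxy))
    set T := ‖y - x‖ with hTdef
    refine ⟨T, hT.le, fun τ => x + (τ / T) • (y - x), ?_, ?_, ?_, ?_⟩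
    · refine LipschitzWith.of_dist_le_mul fun s t => ?_
      rw [NNReal.coe_one, one_mul, dist_add_left, dist_eq_norm, ← sub_smul, norm_smul, ← hTdef,
        Real.norm_eq_abs, Real.dist_eq, ← sub_div, abs_div, abs_of_pos hT, div_mul_cancel₀ _ hT.ne']
    · simp
    · simp only
      rw [div_self hT.ne', one_smul, add_sub_cancel]
    · rw [← lintegral_indicator measurableSet_Icc, ← lintegral_indicator measurableSet_Icc]
      have h1 := (Real.smul_map_volume_mul_left hT.ne').symm
      have hme : MeasurableEmbedding fun t : ℝ => T * t :=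
        (Homeomorph.mulLeft₀ T hT.ne').measurableEmbedding
      have h2 : ∫⁻ τ : ℝ, (Icc 0 T).indicator (fun τ => ρ (x + (τ / T) • (y - x))) τ =
          ENNReal.ofReal T * ∫⁻ t : ℝ, (Icc 0 T).indicator
            (fun τ => ρ (x + (τ / T) • (y - x))) (T * t) := by
        rw [← hme.lintegral_map (μ := volume), ← smul_eq_mul, ← lintegral_smul_measure]
        rw [abs_of_pos hT] at h1
        rw [← h1]
      rw [h2]
      refine le_of_eq ?_
      congr 1
      refine lintegral_congr fun t => ?_
      have hiff : T * t ∈ Icc 0 T ↔ t ∈ Icc (0 : ℝ) 1 := by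
        constructor
        · rintro ⟨h4, h5⟩
          exact ⟨nonneg_of_mul_nonneg_right h4 hT, by nlinarith⟩
        · rintro ⟨h4, h5⟩
          exact ⟨by positivity, by nlinarith⟩
      by_cases ht : t ∈ Icc (0 : ℝ) 1
      · rw [indicator_of_mem ht, indicator_of_mem (hiff.mpr ht), mul_div_cancel_left₀ _ hT.ne']
      · rw [indicator_of_notMem ht, indicator_of_notMem fun h4 => ht (hiff.mp h4)]

end Pool.QC3
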