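import Mathlib

/-!
# Modulus of curve families in Euclidean three-space and the dilatations of a homeomorphism

Definitions used in the result `Pool.Agent.Results.MP_6b3014_an.TwoFactors.result`.
-/

open Set MeasureTheory Metric
open scoped ENNReal NNReal

namespace Pool.QC3

/-- Euclidean three-space. -/
abbrev E : Type := EuclideanSpace ℝ (Fin 3)

/-- A parametrised curve: the set of parameters, and the map. -/
abbrev Curve : Type := Set ℝ × (ℝ → E)

/-- `c` is a curve in `D`: its set of parameters is an interval of the real line (open, closed,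
half-open, bounded or not), on which the map is continuous, with values in `D`. -/
def CurveIn (D : Set E) (c : Curve) : Prop :=
  c.1.OrdConnected ∧ ContinuousOn c.2 c.1 ∧ MapsTo c.2 c.1 D

/-- The line integral of `ρ` with respect to arc length over the compact piece `[a, b]` of the
curve `γ`: the integral of `ρ` along the arc length parametrisation of this piece. -/
noncomputable def arcInt (ρ : E → ℝ≥0∞) (γ : ℝ → E) (a b : ℝ) : ℝ≥0∞ :=
  ∫⁻ s in Icc 0 (eVariationOn γ (Icc a b)).toReal,
    ρ (naturalParameterization γ (Icc a b) a s)

/-- The line integral of `ρ` with respect to arc length over a locally rectifiable curve: the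
supremum of the line integrals over its compact pieces. -/
noncomputable def lineInt (ρ : E → ℝ≥0∞) (c : Curve) : ℝ≥0∞ :=
  ⨆ (a ∈ c.1) (b ∈ c.1) (_ : a ≤ b), arcInt ρ c.2 a b

/-- `ρ` is admissible for the curve family `Γ`: it is a nonnegative Borel function whose line
integral over every locally rectifiable curve of the family is at least `1`. -/
def Admissible (Γ : Set Curve) (ρ : E → ℝ≥0∞) : Prop :=
  Measurable ρ ∧ ∀ c ∈ Γ, LocallyBoundedVariationOn c.2 c.1 → 1 ≤ lineInt ρ c

/-- The conformal modulus (the `3`-modulus) of a curve family. -/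
noncomputable def modulus (Γ : Set Curve) : ℝ≥0∞ :=
  ⨅ (ρ : E → ℝ≥0∞) (_ : Admissible Γ ρ), ∫⁻ x, ρ x ^ 3

/-- The image of a curve family. -/
def img (f : E → E) (Γ : Set Curve) : Set Curve :=
  (fun c : Curve => (c.1, f ∘ c.2)) '' Γ

/-- The outer dilatation of a homeomorphism `f` between open sets of three-space: the smallest
constant `K` with `M(Γ) ≤ K M(f Γ)` for every curve family `Γ` in the domain of `f`. -/
noncomputable def KO (f : OpenPartialHomeomorph E E) : ℝ≥0∞ :=
  sInf {K | ∀ Γ : Set Curve, (∀ c ∈ Γ, CurveIn f.source c) →
    modulus Γ ≤ K * modulus (img f Γ)}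

/-- The inner dilatation of a homeomorphism `f` between open sets of three-space: the smallest
constant `K` with `M(f Γ) ≤ K M(Γ)` for every curve family `Γ` in the domain of `f`. -/
noncomputable def KI (f : OpenPartialHomeomorph E E) : ℝ≥0∞ :=
  sInf {K | ∀ Γ : Set Curve, (∀ c ∈ Γ, CurveIn f.source c) →
    modulus (img f Γ) ≤ K * modulus Γ}

/-- The maximal dilatation. A homeomorphism is quasiconformal when it is finite. -/
noncomputable def maxDil (f : OpenPartialHomeomorph E E) : ℝ≥0∞ :=
  max (KO f) (KI f)

end Pool.QC3
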