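import Pool.Agent.Lib.MP_6b3014_an.MO2

/-!
# MP_6b3014_an, row FI1
-/

open Set MeasureTheory Metric
open scoped ENNReal NNReal Topology

namespace Pool.QC3

/-- the similarity `x ↦ p + r x` -/
noncomputable def simi (p : E) (r : ℝ) (x : E) : E := p + r • x

/-- the inverse similarity -/
noncomputable def simiInv (p : E) (r : ℝ) (x : E) : E := r⁻¹ • (x - p)


theorem simiInv_simi {p : E} {r : ℝ} (hr : 0 < r) (x : E) : simiInv p r (simi p r x) = x := by
  unfold simiInv simi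
  rw [add_sub_cancel_left, smul_smul, inv_mul_cancel₀ hr.ne', one_smul]

theorem simi_simiInv {p : E} {r : ℝ} (hr : 0 < r) (x : E) : simi p r (simiInv p r x) = x := by
  unfold simiInv simi
  rw [smul_smul, mul_inv_cancel₀ hr.ne', one_smul, add_sub_cancel]

theorem simi_lipschitz {p : E} {r : ℝ} (hr : 0 < r) :
    LipschitzWith (Real.toNNReal r) (simi p r) := by
  refine LipschitzWith.of_dist_le_mul fun x y => ?_
  unfold simi
  rw [dist_add_left, dist_smul₀, Real.norm_of_nonneg hr.le, Real.coe_toNNReal _ hr.le]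

theorem simiInv_lipschitz {p : E} {r : ℝ} (hr : 0 < r) :
    LipschitzWith (Real.toNNReal r⁻¹) (simiInv p r) := by
  refine LipschitzWith.of_dist_le_mul fun x y => ?_
  unfold simiInv
  rw [dist_smul₀, Real.norm_of_nonneg (inv_pos.2 hr).le, Real.coe_toNNReal _ (inv_pos.2 hr).le,
    dist_sub_right]

theorem FI1_smul {r : ℝ} (hr : 0 < r) {ρ : E → ℝ≥0∞} (hρ : Measurable ρ) :
    ∫⁻ x, ρ (r • x) = ENNReal.ofReal (r⁻¹ ^ 3) * ∫⁻ x, ρ x := by
  have h := Measure.map_addHaar_smul (volume : Measure E) hr.ne'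
  have h2 : ∫⁻ x, ρ x ∂(Measure.map (r • ·) (volume : Measure E)) = ∫⁻ x, ρ (r • x) :=
    lintegral_map hρ (measurable_const_smul r)
  rw [← h2, h, lintegral_smul_measure, finrank_euclideanSpace_fin, smul_eq_mul]
  congr 2
  rw [inv_pow, abs_of_pos (by positivity)]

/-- PROOF: translation invariance and `Measure.addHaar` scaling
(`MeasureTheory.Measure.map_addHaar_smul`, `finrank ℝ E = 3`). -/
theorem simi_lintegral {p : E} {r : ℝ} (hr : 0 < r) {ρ : E → ℝ≥0∞} (hρ : Measurable ρ) :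
    ∫⁻ x, ρ (simi p r x) = ENNReal.ofReal (r⁻¹ ^ 3) * ∫⁻ x, ρ x := by
  unfold simi
  rw [FI1_smul hr (ρ := fun y => ρ (p + y)) (hρ.comp (measurable_const_add p)),
    lintegral_add_left_eq_self (μ := (volume : Measure E)) ρ p]

theorem simiInv_lintegral {p : E} {r : ℝ} (hr : 0 < r) {ρ : E → ℝ≥0∞} (hρ : Measurable ρ) :
    ∫⁻ x, ρ (simiInv p r x) = ENNReal.ofReal (r ^ 3) * ∫⁻ x, ρ x := by
  unfold simiInv
  rw [lintegral_sub_right_eq_self (μ := (volume : Measure E)) (fun x => ρ (r⁻¹ • x)) p,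
    FI1_smul (inv_pos.2 hr) hρ, inv_inv]

/-- PROOF: `modulus_le_img` for the map `simiInv p r` (Lipschitz constant `r⁻¹`, `J = r³`) and the
family `img (simi p r) Γ`, then `modulus_le_of_cover` (or equality of families) because
`simiInv p r ∘ (simi p r ∘ c.2) = c.2`; `(r⁻¹)³ r³ = 1`. -/
theorem modulus_img_simi_le {p : E} {r : ℝ} (hr : 0 < r) {Γ : Set Curve}
    (hΓ : ∀ c ∈ Γ, c.1.OrdConnected ∧ ContinuousOn c.2 c.1) :
    modulus (img (simi p r) Γ) ≤ modulus Γ := by
  have h := modulus_le_img (F := simiInv p r) (L := Real.toNNReal r⁻¹)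
    (J := ENNReal.ofReal (r ^ 3)) (by simpa using hr) (by
      rw [Ne, ENNReal.ofReal_eq_zero, not_le]
      positivity) ENNReal.ofReal_ne_top (simiInv_lipschitz hr)
    (fun ρ hρ => (simiInv_lintegral hr hρ).le) (Γ := img (simi p r) Γ) (by
      rintro c ⟨c', hc', rfl⟩
      exact ⟨(hΓ c' hc').1, (simi_lipschitz hr).continuous.comp_continuousOn (hΓ c' hc').2⟩)
  have h2 : img (simiInv p r) (img (simi p r) Γ) = Γ := by
    ext c
    constructor
    · rintro ⟨c', ⟨c'', hc'', rfl⟩, rfl⟩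
      have : ((c''.1, simiInv p r ∘ (simi p r ∘ c''.2)) : Curve) = c'' := by
        refine Prod.ext rfl ?_
        funext t
        exact simiInv_simi hr _
      change ((c''.1, simiInv p r ∘ (simi p r ∘ c''.2)) : Curve) ∈ Γ
      rw [this]
      exact hc''
    · intro hc
      refine ⟨(c.1, simi p r ∘ c.2), ⟨c, hc, rfl⟩, ?_⟩
      refine Prod.ext rfl ?_
      funext t
      exact simiInv_simi hr _
  rw [h2] at h
  refine h.trans (le_of_eq ?_)
  have h3 : ((Real.toNNReal r⁻¹ : ℝ≥0) : ℝ≥0∞) ^ 3 * ENNReal.ofReal (r ^ 3) = 1 := by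
    change ENNReal.ofReal r⁻¹ ^ 3 * ENNReal.ofReal (r ^ 3) = 1
    rw [← ENNReal.ofReal_pow (inv_pos.2 hr).le, ← ENNReal.ofReal_mul (by positivity), ← mul_pow,
      inv_mul_cancel₀ hr.ne', one_pow, ENNReal.ofReal_one]
  rw [h3, one_mul]

end Pool.QC3
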