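import Pool.Agent.Lib.MP_6b3014_an.TW1

/-!
# MP_6b3014_an, row TW2

Statements must stay exactly as they are. You may use everything that comes EARLIER in the files
Defs, Base, SkelA, SkelB, SkelC, SkelD, SkelE (there it is sorried), nothing that comes later.
-/

open Set MeasureTheory Metric
open scoped ENNReal NNReal Topology

namespace Pool.QC3

/-- rotation about the vertical axis by the angle `a` -/
noncomputable def TW2_rot (a : ℝ) (x : E) : E :=
  !₂[Real.cos a * x 0 - Real.sin a * x 1, Real.sin a * x 0 + Real.cos a * x 1, x 2]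

theorem TW2_dist_rot (a : ℝ) (x y : E) : dist (TW2_rot a x) (TW2_rot a y) = dist x y := by
  rw [EuclideanSpace.dist_eq, EuclideanSpace.dist_eq]
  congr 1
  simp only [Fin.sum_univ_three, Real.dist_eq, sq_abs, TW2_rot]
  have h := Real.sin_sq_add_cos_sq a
  simp only [Matrix.cons_val_zero, Matrix.cons_val_one, Matrix.cons_val]
  linear_combination ((x 0 - y 0) ^ 2 + (x 1 - y 1) ^ 2) * h

theorem TW2_dist_rot_rot (a b : ℝ) (y : E) :
    dist (TW2_rot a y) (TW2_rot b y) ≤ |a - b| * rad y := by
  rw [EuclideanSpace.dist_eq]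
  have h1 := Real.sin_sq_add_cos_sq a
  have h2 := Real.sin_sq_add_cos_sq b
  have h3 := Real.cos_sub a b
  have h4 := Real.one_sub_sq_div_two_le_cos (x := a - b)
  have h5 : |a - b| * rad y = √((a - b) ^ 2 * (y 0 ^ 2 + y 1 ^ 2)) := by
    rw [Real.sqrt_mul (sq_nonneg _), Real.sqrt_sq_eq_abs]; rfl
  rw [h5]
  apply Real.sqrt_le_sqrt
  simp only [Fin.sum_univ_three, Real.dist_eq, sq_abs, TW2_rot]
  simp only [Matrix.cons_val_zero, Matrix.cons_val_one, Matrix.cons_val]
  have h6 : (Real.cos a * y 0 - Real.sin a * y 1 - (Real.cos b * y 0 - Real.sin b * y 1)) ^ 2 +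
      (Real.sin a * y 0 + Real.cos a * y 1 - (Real.sin b * y 0 + Real.cos b * y 1)) ^ 2 +
      (y 2 - y 2) ^ 2 = (2 - 2 * Real.cos (a - b)) * (y 0 ^ 2 + y 1 ^ 2) := by
    rw [h3]
    linear_combination (y 0 ^ 2 + y 1 ^ 2) * h1 + (y 0 ^ 2 + y 1 ^ 2) * h2
  rw [h6]
  apply mul_le_mul_of_nonneg_right _ (by positivity)
  linarith

theorem TW2_phi_zero {x : E} (h : 3 < rad x) : phi x = 0 := by
  unfold phi
  apply max_eq_left
  have : |rad x - 2| ≤ max |rad x - 2| |x 2| := le_max_left _ _
  have h2 : rad x - 2 ≤ |rad x - 2| := le_abs_self _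
  linarith

theorem TW2_aux (c : ℝ) (x y : E) (h : rad y ≤ 3) :
    dist (twist c x) (twist c y) ≤ (1 + 3 * |c|) * dist x y := by
  have e1 : twist c x = TW2_rot (c * phi x) x := rfl
  have e2 : twist c y = TW2_rot (c * phi y) y := rfl
  rw [e1, e2]
  have h1 := dist_triangle (TW2_rot (c * phi x) x) (TW2_rot (c * phi x) y)
    (TW2_rot (c * phi y) y)
  rw [TW2_dist_rot] at h1
  have h2 := TW2_dist_rot_rot (c * phi x) (c * phi y) y
  have h3 : |c * phi x - c * phi y| = |c| * |phi x - phi y| := by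
    rw [← mul_sub, abs_mul]
  have h4 : |phi x - phi y| ≤ dist x y := by
    have := phi_lipschitz.dist_le_mul x y
    simpa [Real.dist_eq] using this
  have h5 : |c * phi x - c * phi y| * rad y ≤ |c| * dist x y * 3 := by
    rw [h3]
    apply mul_le_mul (mul_le_mul_of_nonneg_left h4 (abs_nonneg _)) h (rad_nonneg y)
    positivity
  linarith

/-- PROOF: `twist c x - twist c y = R (x - y) + (R - R') y` where `R`, `R'` are the rotations about
the vertical axis by the angles `c * phi x` and `c * phi y`; `‖R (x - y)‖ = ‖x - y‖` and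
`‖(R - R') y‖ = |exp (i c phi x) - exp (i c phi y)| * rad y ≤ |c| * |phi x - phi y| * rad y`. If
`rad y ≤ 3` this is at most `3 * |c| * dist x y`. If `rad y > 3` and `rad x ≤ 3` exchange `x` and
`y`; if both are `> 3` then `phi x = phi y = 0` and `twist c x - twist c y = x - y`. -/
theorem twist_lipschitz (c : ℝ) : LipschitzWith (1 + 3 * ‖c‖₊) (twist c) := by
  apply LipschitzWith.of_dist_le_mul
  intro x y
  have hK : ((1 + 3 * ‖c‖₊ : ℝ≥0) : ℝ) = 1 + 3 * |c| := by
    simp
  rw [hK]
  by_cases hy : rad y ≤ 3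
  · exact TW2_aux c x y hy
  · by_cases hx : rad x ≤ 3
    · rw [dist_comm (twist c x), dist_comm x]
      exact TW2_aux c y x hx
    · push Not at hx hy
      have e1 : twist c x = TW2_rot (c * phi x) x := rfl
      have e2 : twist c y = TW2_rot (c * phi y) y := rfl
      rw [e1, e2, TW2_phi_zero hx, TW2_phi_zero hy, TW2_dist_rot]
      have := abs_nonneg c
      have h2 := dist_nonneg (x := x) (y := y)
      nlinarith

end Pool.QC3
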