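import Pool.Agent.Lib.MP_6b3014_an.Base

/-!
# MP_6b3014_an, row TW3

Statements must stay exactly as they are. You may use everything that comes EARLIER in the files
Defs, Base, SkelA, SkelB, SkelC, SkelD, SkelE (there it is sorried), nothing that comes later.
-/

open Set MeasureTheory Metric
open scoped ENNReal NNReal Topology

namespace Pool.QC3

private theorem TW3_rot (u : Circle) {G : ℂ → ℝ≥0∞} (hG : Measurable G) :
    ∫⁻ w, G ((u : ℂ) * w) = ∫⁻ w, G w := by
  have h := (rotation u).measurePreserving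
  have h2 := h.lintegral_comp hG
  simpa [rotation_apply] using h2

/-- PROOF (in the plane): let `ψ : ℝ → ℝ` be measurable and `F : ℂ → ℝ≥0∞` measurable. For every
`u` in the circle group, `w ↦ u * w` preserves the area of `ℂ` (linear isometry), and
`w ↦ exp (i ψ |w|) w` commutes with it. So `∫ F (exp (i ψ |w|) w) dw =
∫_w F (exp (i ψ |w|) (u w)) dw` for every `u ∈ Circle`; integrate over `u` with the Haar
probability measure of `Circle` (or over the angle in `[0, 2π]`), exchange (Tonelli), and use the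
invariance of the Haar measure under `u ↦ exp (i ψ |w|) u` (for fixed `w`) to get
`∫_w ∫_u F (u w) = ∫_w F w dw`. Any other proof is fine (polar coordinates:
`Complex.lintegral_comp_polarCoord_symm`). -/
theorem plane_rotation {ψ : ℝ → ℝ} (hψ : Measurable ψ) {F : ℂ → ℝ≥0∞} (hF : Measurable F) :
    ∫⁻ w, F (Complex.exp ((ψ ‖w‖ : ℝ) * Complex.I) * w) = ∫⁻ w, F w := by
  set e : UnitAddCircle → Circle := AddCircle.toCircle with he
  have hec : Continuous fun a : UnitAddCircle => ((e a : Circle) : ℂ) :=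
    continuous_subtype_val.comp AddCircle.continuous_toCircle
  have heψ : ∀ x : ℝ, ((e ((x / (2 * Real.pi) : ℝ) : UnitAddCircle) : Circle) : ℂ) =
      Complex.exp ((x : ℝ) * Complex.I) := by
    intro x
    rw [he, AddCircle.toCircle_apply_mk, Circle.coe_exp]
    congr 2
    norm_cast
    field_simp
  have hR : Measurable fun w : ℂ => Complex.exp ((ψ ‖w‖ : ℝ) * Complex.I) := by
    have h1 : Measurable fun w : ℂ => ψ ‖w‖ := hψ.comp measurable_norm
    exact Complex.measurable_exp.comp ((Complex.measurable_ofReal.comp h1).mul_const _)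
  have hA : ∀ a : UnitAddCircle, ∫⁻ w, F (Complex.exp ((ψ ‖w‖ : ℝ) * Complex.I) * w) =
      ∫⁻ w, F (Complex.exp ((ψ ‖w‖ : ℝ) * Complex.I) * ((e a : ℂ) * w)) := by
    intro a
    have h1 := TW3_rot (e a) (G := fun w => F (Complex.exp ((ψ ‖w‖ : ℝ) * Complex.I) * w))
      (hF.comp (hR.mul measurable_id))
    rw [← h1]
    refine lintegral_congr fun w => ?_
    simp only [norm_mul, Circle.norm_coe, one_mul]
  have hprob : (AddCircle.haarAddCircle : Measure UnitAddCircle) univ = 1 := measure_univ
  have hmeas : Measurable (Function.uncurry fun (a : UnitAddCircle) (w : ℂ) =>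
      F (Complex.exp ((ψ ‖w‖ : ℝ) * Complex.I) * ((e a : ℂ) * w))) := by
    refine hF.comp ((hR.comp measurable_snd).mul ?_)
    exact (hec.measurable.comp measurable_fst).mul measurable_snd
  have hmeas2 : Measurable (Function.uncurry fun (a : UnitAddCircle) (w : ℂ) =>
      F ((e a : ℂ) * w)) :=
    hF.comp ((hec.measurable.comp measurable_fst).mul measurable_snd)
  calc ∫⁻ w, F (Complex.exp ((ψ ‖w‖ : ℝ) * Complex.I) * w)
      = ∫⁻ _ : UnitAddCircle, (∫⁻ w, F (Complex.exp ((ψ ‖w‖ : ℝ) * Complex.I) * w))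
          ∂AddCircle.haarAddCircle := by
        rw [lintegral_const, hprob, mul_one]
    _ = ∫⁻ a : UnitAddCircle, (∫⁻ w, F (Complex.exp ((ψ ‖w‖ : ℝ) * Complex.I) * ((e a : ℂ) * w)))
          ∂AddCircle.haarAddCircle := lintegral_congr fun a => hA a
    _ = ∫⁻ w, ∫⁻ a : UnitAddCircle, F (Complex.exp ((ψ ‖w‖ : ℝ) * Complex.I) * ((e a : ℂ) * w))
          ∂AddCircle.haarAddCircle := lintegral_lintegral_swap hmeas.aemeasurable
    _ = ∫⁻ w, ∫⁻ a : UnitAddCircle, F ((e a : ℂ) * w) ∂AddCircle.haarAddCircle := by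
        refine lintegral_congr fun w => ?_
        have h1 := lintegral_add_right_eq_self (μ := (AddCircle.haarAddCircle : Measure UnitAddCircle))
          (fun a : UnitAddCircle => F ((e a : ℂ) * w))
          ((ψ ‖w‖ / (2 * Real.pi) : ℝ) : UnitAddCircle)
        rw [← h1]
        refine lintegral_congr fun a => ?_
        have h2 : ((e (a + ((ψ ‖w‖ / (2 * Real.pi) : ℝ) : UnitAddCircle)) : Circle) : ℂ) =
            (e a : ℂ) * Complex.exp ((ψ ‖w‖ : ℝ) * Complex.I) := by
          rw [← heψ, he, AddCircle.toCircle_add, Circle.coe_mul]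
        rw [h2]
        congr 1
        ring
    _ = ∫⁻ a : UnitAddCircle, (∫⁻ w, F ((e a : ℂ) * w)) ∂AddCircle.haarAddCircle :=
        (lintegral_lintegral_swap hmeas2.aemeasurable).symm
    _ = ∫⁻ _ : UnitAddCircle, (∫⁻ w, F w) ∂AddCircle.haarAddCircle :=
        lintegral_congr fun a => TW3_rot (e a) hF
    _ = ∫⁻ w, F w := by rw [lintegral_const, hprob, mul_one]

end Pool.QC3
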