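import Pool.Agent.Lib.MP_6b3014_an.TW2
import Pool.Agent.Lib.MP_6b3014_an.TW3

/-!
# MP_6b3014_an, row TW4

Statements must stay exactly as they are. You may use everything that comes EARLIER in the files
Defs, Base, SkelA, SkelB, SkelC, SkelD, SkelE (there it is sorried), nothing that comes later.
-/

open Set MeasureTheory Metric
open scoped ENNReal NNReal Topology

namespace Pool.QC3

/-- PROOF: identify `E` with `ℂ × ℝ` by `x ↦ (x 0 + i x 1, x 2)` (measure preserving:
`EuclideanSpace.volume_preserving_...`, `MeasureTheory.volume_preserving_piFinSuccAbove` or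
`MeasurableEquiv.piFinSuccAbove` twice, `Complex.volume_preserving_equiv_real_prod`), use Tonelli
with the last coordinate outside and `plane_rotation` for each fixed last coordinate `z`, with
`ψ r = c * max 0 (1 - max |r - 2| |z|)`. -/
theorem twist_lintegral (c : ℝ) {ρ : E → ℝ≥0∞} (hρ : Measurable ρ) :
    ∫⁻ x, ρ (twist c x) = ∫⁻ x, ρ x := by
  have m1 : MeasurePreserving (Prod.map (id : ℝ → ℝ) Complex.measurableEquivPi)
      (volume : Measure (ℝ × ℂ)) (volume : Measure (ℝ × (Fin 2 → ℝ))) :=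
    (MeasurePreserving.id volume).prod Complex.volume_preserving_equiv_pi
  have m2 := (volume_preserving_piFinSuccAbove (fun _ : Fin 3 => ℝ) 2).symm
    (MeasurableEquiv.piFinSuccAbove (fun _ : Fin 3 => ℝ) 2)
  have m3 := PiLp.volume_preserving_toLp (Fin 3)
  have m := m3.comp (m2.comp m1)
  set Ψ : ℝ × ℂ → E := (WithLp.toLp 2) ∘ (MeasurableEquiv.piFinSuccAbove (fun _ : Fin 3 => ℝ) 2).symm
    ∘ (Prod.map (id : ℝ → ℝ) Complex.measurableEquivPi) with hΨ
  have e0 : ∀ z w, Ψ (z, w) 0 = w.re := fun z w => rfl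
  have e1 : ∀ z w, Ψ (z, w) 1 = w.im := fun z w => rfl
  have e2 : ∀ z w, Ψ (z, w) 2 = z := fun z w => rfl
  have hrad : ∀ z w, rad (Ψ (z, w)) = ‖w‖ := by
    intro z w
    unfold rad
    rw [e0, e1, Complex.norm_def, Complex.normSq_apply]
    congr 1
    ring
  have htw : ∀ z w, twist c (Ψ (z, w)) =
      Ψ (z, Complex.exp (((c * max 0 (1 - max |‖w‖ - 2| |z|) : ℝ) : ℂ) * Complex.I) * w) := by
    intro z w
    have hphi : phi (Ψ (z, w)) = max 0 (1 - max |‖w‖ - 2| |z|) := by
      unfold phi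
      rw [hrad, e2]
    ext i
    unfold twist
    rw [hphi, e0, e1, e2]
    set θ := c * max 0 (1 - max |‖w‖ - 2| |z|) with hθ
    fin_cases i
    · show Real.cos θ * w.re - Real.sin θ * w.im = _
      rw [show (((⟨0, by omega⟩ : Fin 3)) = (0 : Fin 3)) from rfl, e0, Complex.mul_re,
        Complex.exp_ofReal_mul_I_re, Complex.exp_ofReal_mul_I_im]
    · show Real.sin θ * w.re + Real.cos θ * w.im = _
      rw [show (((⟨1, by omega⟩ : Fin 3)) = (1 : Fin 3)) from rfl, e1, Complex.mul_im,
        Complex.exp_ofReal_mul_I_re, Complex.exp_ofReal_mul_I_im]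
      ring
    · show z = _
      rw [show (((⟨2, by omega⟩ : Fin 3)) = (2 : Fin 3)) from rfl, e2]
  have hmt : Measurable (twist c) := (twist_lipschitz c).continuous.measurable
  have hl0 : ∫⁻ x, ρ (twist c x) = ∫⁻ p, ρ (twist c (Ψ p)) :=
    (m.lintegral_comp (hρ.comp hmt)).symm
  rw [← m.lintegral_comp hρ, hl0]
  have hΨm : Measurable Ψ := m.measurable
  have hm1 : Measurable fun p : ℝ × ℂ => ρ (twist c (Ψ p)) := (hρ.comp hmt).comp hΨm
  have hm2 : Measurable fun p : ℝ × ℂ => ρ (Ψ p) := hρ.comp hΨm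
  rw [Measure.volume_eq_prod, lintegral_prod _ hm1.aemeasurable,
    lintegral_prod _ hm2.aemeasurable]
  refine lintegral_congr fun z => ?_
  have hF : Measurable fun w : ℂ => ρ (Ψ (z, w)) :=
    hρ.comp (hΨm.comp measurable_prodMk_left)
  have hψ : Measurable fun r : ℝ => c * max 0 (1 - max |r - 2| |z|) := by
    fun_prop
  have h1 := plane_rotation hψ hF
  rw [← h1]
  refine lintegral_congr fun w => ?_
  show ρ (twist c (Ψ (z, w))) = _
  rw [htw]

end Pool.QC3
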