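import Pool.Agent.Lib.MP_6b3014_an.FI1
import Pool.Agent.Lib.MP_6b3014_an.TW4
import Pool.Agent.Lib.MP_6b3014_an.TW2

/-!
# MP_6b3014_an, row FI2
-/

open Set MeasureTheory Metric
open scoped ENNReal NNReal Topology

namespace Pool.QC3

/-- the twist transported by the similarity -/
noncomputable def tw (p : E) (r c : ℝ) (x : E) : E := simi p r (twist c (simiInv p r x))


theorem tw_add {p : E} {r : ℝ} (hr : 0 < r) (c d : ℝ) (x : E) :
    tw p r c (tw p r d x) = tw p r (c + d) x := by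
  unfold tw
  rw [simiInv_simi hr, twist_add]

theorem tw_zero {p : E} {r : ℝ} (hr : 0 < r) (x : E) : tw p r 0 x = x := by
  unfold tw
  rw [twist_zero, simi_simiInv hr]

theorem tw_simi {p : E} {r : ℝ} (hr : 0 < r) (c : ℝ) (x : E) :
    tw p r c (simi p r x) = simi p r (twist c x) := by
  unfold tw
  rw [simiInv_simi hr]

/-- PROOF: `simiInv` divides distances by `r`, `twist c` is `(1 + 3 |c|)`-Lipschitz, `simi`
multiplies distances by `r`. -/
theorem tw_lipschitz {p : E} {r : ℝ} (hr : 0 < r) (c : ℝ) :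
    LipschitzWith (1 + 3 * ‖c‖₊) (tw p r c) := by
  have h := ((simi_lipschitz (p := p) hr).comp (twist_lipschitz c)).comp
    (simiInv_lipschitz (p := p) hr)
  have hr' : Real.toNNReal r * (1 + 3 * ‖c‖₊) * Real.toNNReal r⁻¹ = 1 + 3 * ‖c‖₊ := by
    rw [mul_comm (Real.toNNReal r), mul_assoc, Real.toNNReal_inv,
      mul_inv_cancel₀ (by simpa using hr), mul_one]
  rw [hr'] at h
  exact h

theorem tw_lintegral {p : E} {r : ℝ} (hr : 0 < r) (c : ℝ) {ρ : E → ℝ≥0∞} (hρ : Measurable ρ) :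
    ∫⁻ x, ρ (tw p r c x) = ∫⁻ x, ρ x := by
  have hS : Measurable (simi p r) := (simi_lipschitz (p := p) hr).continuous.measurable
  have hT : Measurable (twist c) := (twist_lipschitz c).continuous.measurable
  unfold tw
  have h1 := simiInv_lintegral (p := p) hr (ρ := fun y => ρ (simi p r (twist c y)))
    (hρ.comp (hS.comp hT))
  rw [h1, twist_lintegral c (ρ := fun y => ρ (simi p r y)) (hρ.comp hS), simi_lintegral hr hρ,
    ← mul_assoc, ← ENNReal.ofReal_mul (by positivity)]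
  have : r ^ 3 * r⁻¹ ^ 3 = 1 := by
    rw [← mul_pow, mul_inv_cancel₀ hr.ne', one_pow]
  rw [this, ENNReal.ofReal_one, one_mul]

/-- PROOF: `tw p r c x = x` if `phi (simiInv p r x) = 0`, which holds off `simi p r '' W`. -/
theorem tw_of_not_mem {p : E} {r : ℝ} (hr : 0 < r) (c : ℝ) {x : E} (hx : x ∉ simi p r '' W) :
    tw p r c x = x := by
  have h0 : phi (simiInv p r x) = 0 := by
    by_contra hne
    have hpos : 0 < phi (simiInv p r x) := lt_of_le_of_ne (phi_nonneg _) (Ne.symm hne)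
    exact hx ⟨simiInv p r x, mem_W_of_pos hpos, simi_simiInv hr x⟩
  unfold tw
  rw [twist_of_phi_eq_zero c h0, simi_simiInv hr]

/-- PROOF: if `simiInv p r x ∉ W` then `phi (simiInv p r x) = 0` and `tw p r c x = x ∈ D`; otherwise
`tw p r c x ∈ simi p r '' W ⊆ simi p r '' B0 ⊆ D`. -/
theorem tw_mapsTo {D : Set E} {p : E} {r : ℝ} (hr : 0 < r) (hD : simi p r '' B0 ⊆ D) (c : ℝ) :
    MapsTo (tw p r c) D D := by
  intro x hx
  by_cases hW : x ∈ simi p r '' W
  · obtain ⟨w, hw, rfl⟩ := hW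
    rw [tw_simi hr]
    exact hD ⟨twist c w, W_subset_B0 ((twist_mem_W c).2 hw), rfl⟩
  · rw [tw_of_not_mem hr c hW]
    exact hx

/-- the twist of the domain `D`, as a homeomorphism of `D` onto itself -/
noncomputable def twD {D : Set E} (hDo : IsOpen D) {p : E} {r : ℝ} (hr : 0 < r)
    (hD : simi p r '' B0 ⊆ D) (c : ℝ) : OpenPartialHomeomorph E E where
  toFun := tw p r c
  invFun := tw p r (-c)
  source := D
  target := D
  map_source' := tw_mapsTo hr hD c
  map_target' := tw_mapsTo hr hD (-c)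
  left_inv' := fun x _ => by rw [tw_add hr, neg_add_cancel, tw_zero hr]
  right_inv' := fun x _ => by rw [tw_add hr, add_neg_cancel, tw_zero hr]
  open_source := hDo
  open_target := hDo
  continuousOn_toFun := (tw_lipschitz hr c).continuous.continuousOn
  continuousOn_invFun := (tw_lipschitz hr (-c)).continuous.continuousOn

/-- PROOF: `KO_le_of_lipschitz` and `KI_le_of_lipschitz` with `J = 1`, `tw_lipschitz`,
`tw_lintegral`. -/
theorem maxDil_twD_le {D : Set E} (hDo : IsOpen D) {p : E} {r : ℝ} (hr : 0 < r)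
    (hD : simi p r '' B0 ⊆ D) (c : ℝ) :
    maxDil (twD hDo hr hD c) ≤ ENNReal.ofReal ((1 + 3 * |c|) ^ 3) := by
  have hconst : ∀ c : ℝ, ((1 + 3 * ‖c‖₊ : ℝ≥0) : ℝ≥0∞) ^ 3 * 1 =
      ENNReal.ofReal ((1 + 3 * |c|) ^ 3) := by
    intro c
    rw [mul_one, ENNReal.ofReal_pow (by positivity)]
    congr 1
    rw [← ENNReal.ofReal_coe_nnreal]
    congr 1
  have hO : KO (twD hDo hr hD c) ≤ ENNReal.ofReal ((1 + 3 * |c|) ^ 3) := by
    rw [← hconst c]
    refine KO_le_of_lipschitz (F := tw p r c) (fun x _ => rfl) (by positivity) one_ne_zero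
      ENNReal.one_ne_top (tw_lipschitz hr c) ?_
    intro ρ hρ
    rw [one_mul, tw_lintegral hr c hρ]
  have hI : KI (twD hDo hr hD c) ≤ ENNReal.ofReal ((1 + 3 * |c|) ^ 3) := by
    rw [← abs_neg c, ← hconst (-c)]
    refine KI_le_of_lipschitz (G := tw p r (-c)) (fun x _ => rfl) (by positivity) one_ne_zero
      ENNReal.one_ne_top (tw_lipschitz hr (-c)) ?_
    intro ρ hρ
    rw [one_mul, tw_lintegral hr (-c) hρ]
  exact max_le hO hI

end Pool.QC3
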