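import Pool.Agent.Lib.MP_6b3014_an.MO2

/-!
# MP_6b3014_an, row MO3

Statements must stay exactly as they are. You may use everything that comes EARLIER in the files
Defs, Base, SkelA, SkelB, SkelC, SkelD, SkelE (there it is sorried), nothing that comes later.
-/

open Set MeasureTheory Metric
open scoped ENNReal NNReal Topology

namespace Pool.QC3

theorem MO3_curveIn {h g : OpenPartialHomeomorph E E} (ht : h.target = g.source) {Γ : Set Curve}
    (hΓ : ∀ c ∈ Γ, CurveIn h.source c) : ∀ c ∈ img h Γ, CurveIn g.source c := by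
  rintro c ⟨c0, hc0, rfl⟩
  obtain ⟨h1, h2, h3⟩ := hΓ c0 hc0
  refine ⟨h1, ?_, ?_⟩
  · exact h.continuousOn.comp h2 h3
  · intro t htt
    rw [← ht]
    exact h.map_source (h3 htt)

theorem MO3_cover1 {f h g : OpenPartialHomeomorph E E} (hs : f.source = h.source)
    (ht : h.target = g.source) (hfg : ∀ x ∈ f.source, g (h x) = f x) {Γ : Set Curve}
    (hΓ : ∀ c ∈ Γ, CurveIn f.source c) : modulus (img g (img h Γ)) ≤ modulus (img f Γ) := by
  apply modulus_le_of_cover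
  rintro c ⟨c1, hc1, rfl⟩
  have hcg := MO3_curveIn ht (fun c hc => hs ▸ hΓ c hc) c1 hc1
  obtain ⟨c0, hc0, rfl⟩ := hc1
  obtain ⟨h1, h2, h3⟩ := hcg
  refine ⟨h1, g.continuousOn.comp h2 h3, (c0.1, f ∘ c0.2), ⟨c0, hc0, rfl⟩, rfl, ?_⟩
  intro t htt
  exact hfg _ ((hΓ c0 hc0).2.2 htt)

theorem MO3_cover2 {f h g : OpenPartialHomeomorph E E} (hfg : ∀ x ∈ f.source, g (h x) = f x)
    {Γ : Set Curve} (hΓ : ∀ c ∈ Γ, CurveIn f.source c) :
    modulus (img f Γ) ≤ modulus (img g (img h Γ)) := by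
  apply modulus_le_of_cover
  rintro c ⟨c0, hc0, rfl⟩
  obtain ⟨h1, h2, h3⟩ := hΓ c0 hc0
  refine ⟨h1, f.continuousOn.comp h2 h3, (c0.1, g ∘ (h ∘ c0.2)),
    ⟨(c0.1, h ∘ c0.2), ⟨c0, hc0, rfl⟩, rfl⟩, rfl, ?_⟩
  intro t htt
  exact (hfg _ (h3 htt)).symm

/-- PROOF: for every `k₁ > KO h`, `k₂ > KO g` and every family `Γ` in `f.source = h.source`:
`modulus Γ ≤ k₁ * modulus (img h Γ) ≤ k₁ * (k₂ * modulus (img g (img h Γ)))` and
`modulus (img g (img h Γ)) ≤ modulus (img f Γ)` (`modulus_le_of_cover`, as `g (h x) = f x` on the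
source). So `KO f ≤ k₁ * k₂`; let `k₁`, `k₂` decrease (`hh`, `hg` finite: e.g.
`ENNReal.le_of_forall_pos_le_add`, or `le_of_forall_gt`-type arguments with the continuity of
multiplication at finite points). -/
theorem KO_comp_le {f h g : OpenPartialHomeomorph E E} (hs : f.source = h.source)
    (ht : h.target = g.source) (hfg : ∀ x ∈ f.source, g (h x) = f x)
    (hh : KO h ≠ ⊤) (hg : KO g ≠ ⊤) : KO f ≤ KO h * KO g := by
  apply ENNReal.le_mul_of_forall_lt (Or.inr hg) (Or.inl hh)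
  intro k₁ hk₁ k₂ hk₂
  apply sInf_le
  intro Γ hΓ
  have hΓh : ∀ c ∈ Γ, CurveIn h.source c := fun c hc => hs ▸ hΓ c hc
  calc modulus Γ ≤ k₁ * modulus (img h Γ) := le_of_KO_lt hk₁ hΓh
    _ ≤ k₁ * (k₂ * modulus (img g (img h Γ))) :=
        mul_le_mul_right (le_of_KO_lt hk₂ (MO3_curveIn ht hΓh)) k₁
    _ ≤ k₁ * (k₂ * modulus (img f Γ)) :=
        mul_le_mul_right (mul_le_mul_right (MO3_cover1 hs ht hfg hΓ) k₂) k₁
    _ = k₁ * k₂ * modulus (img f Γ) := (mul_assoc _ _ _).symm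

/-- PROOF: as before, `modulus (img f Γ) ≤ modulus (img g (img h Γ)) ≤ k₂ * modulus (img h Γ)
≤ k₂ * (k₁ * modulus Γ)`. -/
theorem KI_comp_le {f h g : OpenPartialHomeomorph E E} (hs : f.source = h.source)
    (ht : h.target = g.source) (hfg : ∀ x ∈ f.source, g (h x) = f x)
    (hh : KI h ≠ ⊤) (hg : KI g ≠ ⊤) : KI f ≤ KI h * KI g := by
  apply ENNReal.le_mul_of_forall_lt (Or.inr hg) (Or.inl hh)
  intro k₁ hk₁ k₂ hk₂
  apply sInf_le
  intro Γ hΓ
  have hΓh : ∀ c ∈ Γ, CurveIn h.source c := fun c hc => hs ▸ hΓ c hc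
  calc modulus (img f Γ) ≤ modulus (img g (img h Γ)) := MO3_cover2 hfg hΓ
    _ ≤ k₂ * modulus (img h Γ) := le_of_KI_lt hk₂ (MO3_curveIn ht hΓh)
    _ ≤ k₂ * (k₁ * modulus Γ) := mul_le_mul_right (le_of_KI_lt hk₁ hΓh) k₂
    _ = k₁ * k₂ * modulus Γ := by rw [← mul_assoc, mul_comm k₂ k₁]

end Pool.QC3
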