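import Pool.Agent.Lib.MP_6b3014_an.Base

/-!
# MP_6b3014_an, row MR5

Statements must stay exactly as they are. You may use everything that comes EARLIER in the files
Defs, Base, SkelA, SkelB, SkelC, SkelD, SkelE (there it is sorried), nothing that comes later.
-/

open Set MeasureTheory Metric
open scoped ENNReal NNReal Topology

namespace Pool.QC3

theorem MR5_meas {ρ : E → ℝ≥0∞} (hρ : Measurable ρ) (i : Fin 3) :
    Measurable (fun z : ℝ × (Fin 2 → ℝ) => ρ (ins i z.1 z.2) ^ 3) := by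
  refine Measurable.pow_const (hρ.comp ?_) 3
  have h1 : Measurable (fun z : ℝ × (Fin 2 → ℝ) =>
      (MeasurableEquiv.piFinSuccAbove (fun _ : Fin 3 => ℝ) i).symm z) :=
    (MeasurableEquiv.piFinSuccAbove (fun _ : Fin 3 => ℝ) i).symm.measurable
  have h2 : Measurable (@WithLp.toLp 2 (Fin 3 → ℝ)) :=
    (PiLp.volume_preserving_toLp (Fin 3)).measurable
  exact h2.comp h1

/-- PROOF: `MeasureTheory.volume_preserving_piFinSuccAbove` (for `Fin 3 → ℝ ≃ ℝ × (Fin 2 → ℝ)`,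
whose inverse is `Fin.insertNth`), `EuclideanSpace.volume_preserving_...` for `pt`, and Tonelli:
`∫_v ∫_u ρ (ins i v u)³ du dv = ∫ ρ³`. -/
theorem lintegral_ins {ρ : E → ℝ≥0∞} (hρ : Measurable ρ) (i : Fin 3) :
    ∫⁻ v : ℝ, ∫⁻ u : Fin 2 → ℝ, ρ (ins i v u) ^ 3 = ∫⁻ x, ρ x ^ 3 := by
  have h1 : ∫⁻ x, ρ x ^ 3 = ∫⁻ w : Fin 3 → ℝ, ρ (pt w) ^ 3 := by
    have h := (PiLp.volume_preserving_toLp (Fin 3)).lintegral_comp (f := fun x : E => ρ x ^ 3)
      (hρ.pow_const 3)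
    exact h.symm
  have h2 : ∫⁻ w : Fin 3 → ℝ, ρ (pt w) ^ 3 =
      ∫⁻ z : ℝ × (Fin 2 → ℝ), ρ (ins i z.1 z.2) ^ 3 := by
    have hmp := (volume_preserving_piFinSuccAbove (fun _ : Fin 3 => ℝ) i).symm
    have hm : Measurable (fun w : Fin 3 → ℝ => ρ (pt w) ^ 3) :=
      (hρ.comp (PiLp.volume_preserving_toLp (Fin 3)).measurable).pow_const 3
    have h := hmp.lintegral_comp hm
    exact h.symm
  rw [h1, h2, Measure.volume_eq_prod, lintegral_prod _ (MR5_meas hρ i).aemeasurable]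

theorem MR5_face {ρ : E → ℝ≥0∞} (hρ : Measurable ρ) (a : Fin 3 → ℝ) (i : Fin 3) {e : ℝ}
    (he : e = 1 ∨ e = -1) :
    ∫⁻ s : ℝ, ∫⁻ u : Fin 2 → ℝ, ρ (ins i (a i + e * s) u) ^ 3 = ∫⁻ x, ρ x ^ 3 := by
  rw [← lintegral_ins hρ i]
  rcases he with rfl | rfl
  · have h := lintegral_add_left_eq_self (μ := (volume : Measure ℝ))
      (fun v : ℝ => ∫⁻ u : Fin 2 → ℝ, ρ (ins i v u) ^ 3) (a i)
    simpa only [one_mul] using h
  · have h := lintegral_sub_left_eq_self (μ := (volume : Measure ℝ))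
      (fun v : ℝ => ∫⁻ u : Fin 2 → ℝ, ρ (ins i v u) ^ 3) (a i)
    simpa only [neg_mul, one_mul, sub_eq_add_neg] using h

theorem MR5_fmeas {ρ : E → ℝ≥0∞} (hρ : Measurable ρ) (a : Fin 3 → ℝ) (i : Fin 3) (e : ℝ) :
    Measurable (fun s : ℝ => ∫⁻ u : Fin 2 → ℝ, ρ (ins i (a i + e * s) u) ^ 3) := by
  have h : Measurable (fun z : ℝ × (Fin 2 → ℝ) => ρ (ins i (a i + e * z.1) z.2) ^ 3) :=
    (MR5_meas hρ i).comp
      (((measurable_fst.const_mul e).const_add (a i)).prodMk measurable_snd)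
  exact h.lintegral_prod_right'

theorem MR5_smeas {ρ : E → ℝ≥0∞} (hρ : Measurable ρ) (a : Fin 3 → ℝ) (i : Fin 3) :
    Measurable (fun s : ℝ => (∫⁻ u : Fin 2 → ℝ, ρ (ins i (a i + 1 * s) u) ^ 3) +
      ∫⁻ u : Fin 2 → ℝ, ρ (ins i (a i + (-1) * s) u) ^ 3) :=
  (MR5_fmeas hρ a i 1).add (MR5_fmeas hρ a i (-1))

theorem MR5_total {ρ : E → ℝ≥0∞} (hρ : Measurable ρ) (a : Fin 3 → ℝ) :
    ∫⁻ s : ℝ, ∑ i : Fin 3, ((∫⁻ u : Fin 2 → ℝ, ρ (ins i (a i + 1 * s) u) ^ 3) +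
      ∫⁻ u : Fin 2 → ℝ, ρ (ins i (a i + (-1) * s) u) ^ 3) = 6 * ∫⁻ x, ρ x ^ 3 := by
  rw [lintegral_finsetSum _ fun i _ => MR5_smeas hρ a i]
  calc _ = ∑ i : Fin 3, ((∫⁻ x, ρ x ^ 3) + ∫⁻ x, ρ x ^ 3) := by
        refine Finset.sum_congr rfl fun i _ => ?_
        rw [lintegral_add_left (MR5_fmeas hρ a i 1), MR5_face hρ a i (Or.inl rfl),
          MR5_face hρ a i (Or.inr rfl)]
    _ = 6 * ∫⁻ x, ρ x ^ 3 := by
        rw [Fin.sum_univ_three]
        ring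

/-- PROOF: for each face, enlarge the square to the whole plane and substitute `v = a i + e s`
(translation and reflection invariance of the measure on `ℝ`): the integral over all real `s` is at
most `∫ ρ³` (`lintegral_ins`). Six faces. The function `s ↦ faceI ρ a i e s` need not be checked to
be measurable if one bounds it first by the measurable function
`s ↦ ∫⁻ u, ρ (ins i (a i + e * s) u) ^ 3`. -/
theorem lintegral_surfI {ρ : E → ℝ≥0∞} (hρ : Measurable ρ) (a : Fin 3 → ℝ) :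
    ∫⁻ s : ℝ, surfI ρ a s ≤ 6 * ∫⁻ x, ρ x ^ 3 := by
  have hf : ∀ (i : Fin 3) (e s : ℝ), faceI ρ a i e s ≤
      ∫⁻ u : Fin 2 → ℝ, ρ (ins i (a i + e * s) u) ^ 3 := fun i e s =>
    setLIntegral_le_lintegral _ _
  rw [← MR5_total hρ a]
  exact lintegral_mono fun s => Finset.sum_le_sum fun i _ => add_le_add (hf i 1 s) (hf i (-1) s)

/-- PROOF: otherwise `surfI ρ a s > (12 / d) ∫ρ³` on the interval `(d/2, d)` of length `d/2`, and the
integral over this interval would be `> 6 ∫ρ³` (if `∫ρ³ = ⊤` every `s` works; in the strict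
inequality for the integral use `exists_le_setLAverage`/`exists_setLAverage_le` style lemmas or
`meas_le_lintegral`; note that `d / 2` is the length and `(d/2) (12/d) = 6`). -/
theorem good_radius {ρ : E → ℝ≥0∞} (hρ : Measurable ρ) (a : Fin 3 → ℝ) {d : ℝ} (hd : 0 < d) :
    ∃ s ∈ Ioo (d / 2) d, surfI ρ a s ≤ ENNReal.ofReal (12 / d) * ∫⁻ x, ρ x ^ 3 := by
  have hvol : volume (Ioo (d / 2) d) = ENNReal.ofReal (d / 2) := by
    rw [Real.volume_Ioo]
    congr 1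
    ring
  have hpos : volume (Ioo (d / 2) d) ≠ 0 := by
    rw [hvol]
    simp only [ne_eq, ENNReal.ofReal_eq_zero, not_le]
    positivity
  by_cases htop : ∫⁻ x, ρ x ^ 3 = ⊤
  · refine ⟨3 * d / 4, ⟨by linarith, by linarith⟩, ?_⟩
    rw [htop, ENNReal.mul_top]
    · exact le_top
    · simp only [ne_eq, ENNReal.ofReal_eq_zero, not_le]
      positivity
  set F : ℝ → ℝ≥0∞ := fun s => ∑ i : Fin 3, ((∫⁻ u : Fin 2 → ℝ, ρ (ins i (a i + 1 * s) u) ^ 3) +
          ∫⁻ u : Fin 2 → ℝ, ρ (ins i (a i + (-1) * s) u) ^ 3) with hF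
  have hFm : Measurable F :=
    Finset.measurable_sum _ fun i _ => MR5_smeas hρ a i
  have hint : ∫⁻ s : ℝ, F s = 6 * ∫⁻ x, ρ x ^ 3 := MR5_total hρ a
  obtain ⟨s, hs, hle⟩ := exists_le_setLAverage hpos (by rw [hvol]; exact ENNReal.ofReal_ne_top)
    (μ := (volume : Measure ℝ)) (f := F) hFm.aemeasurable
  refine ⟨s, hs, ?_⟩
  have h1 : surfI ρ a s ≤ F s :=
    Finset.sum_le_sum fun i _ => add_le_add (setLIntegral_le_lintegral _ _)
      (setLIntegral_le_lintegral _ _)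
  refine h1.trans (hle.trans ?_)
  rw [setLAverage_eq, hvol]
  have h2 : ∫⁻ x in Ioo (d / 2) d, F x ≤ 6 * ∫⁻ x, ρ x ^ 3 := by
    rw [← hint]
    exact setLIntegral_le_lintegral _ _
  refine (ENNReal.div_le_div_right h2 _).trans (le_of_eq ?_)
  have h3 : ENNReal.ofReal (12 / d) = 6 / ENNReal.ofReal (d / 2) := by
    have h6 : (6 : ℝ≥0∞) = ENNReal.ofReal 6 := by
      rw [ENNReal.ofReal_ofNat]
    rw [h6, ← ENNReal.ofReal_div_of_pos (by positivity)]
    congr 1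
    field_simp
    norm_num
  rw [h3, ENNReal.div_eq_inv_mul, ENNReal.div_eq_inv_mul, mul_assoc]

end Pool.QC3
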