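import Pool.Agent.Lib.MP_6b3014_an.MR4
import Pool.Agent.Lib.MP_6b3014_an.MR5

/-!
# MP_6b3014_an, row MR6

Statements must stay exactly as they are. You may use everything that comes EARLIER in the files
Defs, Base, SkelA, SkelB, SkelC, SkelD, SkelE (there it is sorried), nothing that comes later.
-/

open Set MeasureTheory Metric
open scoped ENNReal NNReal Topology

namespace Pool.QC3

/-- PROOF: take `s` from `good_radius`; `96 s^(1/3) (12/d ∫ρ³)^(1/3) ≤ 96 * 12^(1/3) (∫ρ³)^(1/3)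
≤ 240 (∫ρ³)^(1/3)` because `s < d` and `12^(1/3) ≤ 2.5`; `surf_join`, `Cheap.mono`. -/
theorem good_surface {ρ : E → ℝ≥0∞} (hρ : Measurable ρ) (a : Fin 3 → ℝ) {d : ℝ} (hd : 0 < d) :
    ∃ s ∈ Ioo (d / 2) d, ∀ x y : E, ‖co x - a‖ = s → ‖co y - a‖ = s →
      Cheap ρ (240 * (∫⁻ z, ρ z ^ 3) ^ (1 / 3 : ℝ)) x y := by
  obtain ⟨s, hs, hsurf⟩ := good_radius hρ a hd
  have hs0 : 0 < s := (half_pos hd).trans hs.1
  refine ⟨s, hs, fun x y hx hy => (surf_join hρ a hs0 hx hy).mono ?_⟩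
  have h1 : surfI ρ a s ^ (1 / 3 : ℝ) ≤
      ENNReal.ofReal ((12 / d) ^ (1 / 3 : ℝ)) * (∫⁻ x, ρ x ^ 3) ^ (1 / 3 : ℝ) := by
    calc surfI ρ a s ^ (1 / 3 : ℝ)
        ≤ (ENNReal.ofReal (12 / d) * ∫⁻ x, ρ x ^ 3) ^ (1 / 3 : ℝ) :=
          ENNReal.rpow_le_rpow hsurf (by norm_num)
      _ = _ := by
          rw [ENNReal.mul_rpow_of_nonneg _ _ (by norm_num),
            ENNReal.ofReal_rpow_of_pos (by positivity)]
  have h2 : s ^ (1 / 3 : ℝ) * (12 / d) ^ (1 / 3 : ℝ) ≤ 5 / 2 := by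
    rw [← Real.mul_rpow hs0.le (by positivity)]
    have h3 : s * (12 / d) ≤ (5 / 2) ^ (3 : ℝ) := by
      have : s * (12 / d) ≤ 12 := by
        rw [mul_div_assoc', div_le_iff₀ hd]
        nlinarith [hs.2]
      refine this.trans ?_
      norm_num
    calc (s * (12 / d)) ^ (1 / 3 : ℝ) ≤ ((5 / 2 : ℝ) ^ (3 : ℝ)) ^ (1 / 3 : ℝ) :=
          Real.rpow_le_rpow (by positivity) h3 (by norm_num)
      _ = 5 / 2 := by
          rw [← Real.rpow_mul (by norm_num)]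
          norm_num
  calc 96 * ENNReal.ofReal (s ^ (1 / 3 : ℝ)) * surfI ρ a s ^ (1 / 3 : ℝ)
      ≤ 96 * ENNReal.ofReal (s ^ (1 / 3 : ℝ)) *
        (ENNReal.ofReal ((12 / d) ^ (1 / 3 : ℝ)) * (∫⁻ x, ρ x ^ 3) ^ (1 / 3 : ℝ)) := by gcongr
    _ = 96 * ENNReal.ofReal (s ^ (1 / 3 : ℝ) * (12 / d) ^ (1 / 3 : ℝ)) *
        (∫⁻ x, ρ x ^ 3) ^ (1 / 3 : ℝ) := by
        rw [ENNReal.ofReal_mul (by positivity)]
        ring
    _ ≤ 96 * ENNReal.ofReal (5 / 2) * (∫⁻ x, ρ x ^ 3) ^ (1 / 3 : ℝ) := by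
        gcongr
    _ = 240 * (∫⁻ x, ρ x ^ 3) ^ (1 / 3 : ℝ) := by
        congr 1
        rw [show (96 : ℝ≥0∞) = ENNReal.ofReal 96 by simp, ← ENNReal.ofReal_mul (by norm_num)]
        norm_num

end Pool.QC3
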