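import Pool.Agent.Lib.MP_6b3014_an.Base

/-!
# MP_6b3014_an, row TP5

Statements must stay exactly as they are. You may use everything that comes EARLIER in the files
Defs, Base, SkelA, SkelB, SkelC, SkelD, SkelE (there it is sorried), nothing that comes later.
-/

open Set MeasureTheory Metric
open scoped ENNReal NNReal Topology

namespace Pool.QC3

theorem TP5_aux1 {a c d t : ℝ} (h1 : d / 2 < |c - a|) (h2 : |c - a| ≤ d)
    (ht : t ∈ Ioo (d / 2) d) : ∃ p : ℝ, |p - c| = t ∧ |p - a| ≤ d / 2 := by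
  have hd : 0 < d := by have := ht.1.trans ht.2; linarith
  have t0 : 0 < t := by have := ht.1; linarith
  have ht1 := ht.1
  have ht2 := ht.2
  rcases le_total 0 (c - a) with h | h
  · rw [abs_of_nonneg h] at h1 h2
    refine ⟨c - t, ?_, ?_⟩
    · rw [show c - t - c = -t by ring, abs_neg, abs_of_pos t0]
    · rw [abs_le]; constructor <;> linarith
  · rw [abs_of_nonpos h] at h1 h2
    refine ⟨c + t, ?_, ?_⟩
    · rw [show c + t - c = t by ring, abs_of_pos t0]
    · rw [abs_le]; constructor <;> linarith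

theorem TP5_aux2 {a c d s t : ℝ} (h2 : |c - a| ≤ d) (hs : d / 2 < s) (hst : s ≤ t)
    (s0 : 0 < s) : ∃ p : ℝ, |p - a| = s ∧ |p - c| ≤ t := by
  rcases le_total 0 (c - a) with h | h
  · rw [abs_of_nonneg h] at h2
    refine ⟨a + s, ?_, ?_⟩
    · rw [show a + s - a = s by ring, abs_of_pos s0]
    · rw [abs_le]; constructor <;> linarith
  · rw [abs_of_nonpos h] at h2
    refine ⟨a - s, ?_, ?_⟩
    · rw [show a - s - a = -s by ring, abs_neg, abs_of_pos s0]
    · rw [abs_le]; constructor <;> linarith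

theorem TP5_aux3 {a c : Fin 3 → ℝ} {d s t : ℝ} (h1 : d / 2 < ‖c - a‖) (h2 : ‖c - a‖ ≤ d)
    (hs : s ∈ Ioo (d / 2) d) (ht : t ∈ Ioo (d / 2) d) (hst : s ≤ t) :
    ∃ p : Fin 3 → ℝ, ‖p - a‖ = s ∧ ‖p - c‖ = t := by
  have hd : 0 < d := by have := ht.1.trans ht.2; linarith
  have s0 : 0 < s := by have := hs.1; linarith
  have t0 : 0 < t := by have := ht.1; linarith
  obtain ⟨i, hi⟩ : ∃ i, d / 2 < |c i - a i| := by
    by_contra hcon
    push Not at hcon
    have : ‖c - a‖ ≤ d / 2 :=
      (pi_norm_le_iff_of_nonneg (by positivity)).2 (fun i => by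
        simpa [Real.norm_eq_abs] using hcon i)
    linarith
  have hle : ∀ m, |c m - a m| ≤ d := fun m => by
    have := (norm_le_pi_norm (c - a) m).trans h2
    simpa [Real.norm_eq_abs] using this
  obtain ⟨j, hj⟩ : ∃ j : Fin 3, j ≠ i := exists_ne i
  obtain ⟨u, hu1, hu2⟩ := TP5_aux1 hi (hle i) ht
  obtain ⟨v, hv1, hv2⟩ := TP5_aux2 (hle j) hs.1 hst s0
  set p : Fin 3 → ℝ := fun m => if m = i then u else if m = j then v else (a m + c m) / 2 with hp
  have pi : p i = u := by simp [hp]
  have pj : p j = v := by simp [hp, hj]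
  have hs1 := hs.1
  have ht1 := ht.1
  refine ⟨p, le_antisymm ?_ ?_, le_antisymm ?_ ?_⟩
  · refine (pi_norm_le_iff_of_nonneg s0.le).2 (fun m => ?_)
    rw [Pi.sub_apply, Real.norm_eq_abs]
    by_cases hmi : m = i
    · subst hmi; rw [pi]; linarith
    · by_cases hmj : m = j
      · subst hmj; rw [pj]; exact hv1.le
      · have : p m = (a m + c m) / 2 := by simp [hp, hmi, hmj]
        rw [this, show (a m + c m) / 2 - a m = (c m - a m) / 2 by ring, abs_div, abs_two]
        have := hle m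
        linarith
  · rw [← hv1, ← pj]
    have := norm_le_pi_norm (p - a) j
    rwa [Pi.sub_apply, Real.norm_eq_abs] at this
  · refine (pi_norm_le_iff_of_nonneg t0.le).2 (fun m => ?_)
    rw [Pi.sub_apply, Real.norm_eq_abs]
    by_cases hmi : m = i
    · subst hmi; rw [pi]; exact hu1.le
    · by_cases hmj : m = j
      · subst hmj; rw [pj]; exact hv2
      · have : p m = (a m + c m) / 2 := by simp [hp, hmi, hmj]
        rw [this, show (a m + c m) / 2 - c m = -((c m - a m) / 2) by ring, abs_neg, abs_div,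
          abs_two]
        have := hle m
        linarith
  · rw [← hu1, ← pi]
    have := norm_le_pi_norm (p - c) i
    rwa [Pi.sub_apply, Real.norm_eq_abs] at this

/-- Two cube surfaces of comparable size and position intersect.
PROOF: let `i` be a coordinate with `|c i - a i| = ‖c - a‖ =: δ ∈ (d/2, d]` and
`σ = 1` or `-1` the sign of `c i - a i`; let `j ≠ i` and let `k` be the third coordinate.
Case `s ≤ t` : `p i = c i - σ t`, `p j = a j + τ s` with `τ = ±1` the sign of `c j - a j`,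
`p k = (a k + c k) / 2`. Then `|p i - c i| = t`, `|p i - a i| = |δ - t| < d/2 < s`,
`|p j - a j| = s`, `|p j - c j| = |s - |c j - a j|| ≤ max s (|c j - a j| - s) ≤ t` (because `s ≤ t`
and `|c j - a j| - s < d - d/2 < t`), and the third coordinate is within `d/2` of both.
Case `t ≤ s`: exchange the roles of `(a, s)` and `(c, t)`. -/
theorem surfaces_meet {a c : Fin 3 → ℝ} {d s t : ℝ} (h1 : d / 2 < ‖c - a‖) (h2 : ‖c - a‖ ≤ d)
    (hs : s ∈ Ioo (d / 2) d) (ht : t ∈ Ioo (d / 2) d) :
    ∃ p : Fin 3 → ℝ, ‖p - a‖ = s ∧ ‖p - c‖ = t := by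
  rcases le_total s t with hst | hst
  · exact TP5_aux3 h1 h2 hs ht hst
  · rw [norm_sub_rev] at h1 h2
    obtain ⟨p, hp1, hp2⟩ := TP5_aux3 h1 h2 ht hs hst
    exact ⟨p, hp2, hp1⟩

end Pool.QC3
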