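import Pool.Agent.Lib.MP_6b3014_an.LI4

/-!
# MP_6b3014_an, row LI5

-/

open Set MeasureTheory Metric
open scoped ENNReal NNReal Topology

namespace Pool.QC3

/-- PROOF: `arcInt_le_of_param` for `α = F ∘ γ`, `θ` the variation function of `γ` (continuous,
monotone), `p = fun v => ρ (F (naturalParameterization γ (Icc a b) a v))` (`nat_apply`) and
`LipschitzOnWith.comp_eVariationOn_le` for `hL` (with `vf_sub`; the variations are finite).
`θ a = 0`, `θ b = (eVariationOn γ (Icc a b)).toReal`. -/
theorem arcInt_comp_le {F : E → E} {L : ℝ≥0} (hF : LipschitzWith L F) {ρ : E → ℝ≥0∞}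
    (hρ : Measurable ρ) {γ : ℝ → E} {a b : ℝ} (hab : a ≤ b) (hγ : ContinuousOn γ (Icc a b))
    (hb : BoundedVariationOn γ (Icc a b)) :
    arcInt ρ (F ∘ γ) a b ≤ L * arcInt (fun x => ρ (F x)) γ a b := by
  have hbc : BoundedVariationOn (F ∘ γ) (Icc a b) := hF.comp_boundedVariationOn hb
  have h := arcInt_le_of_param (ρ := ρ) hρ (α := F ∘ γ) hab
    (hF.continuous.comp_continuousOn hγ) hbc
    (θ := variationOnFromTo γ (Icc a b) a) (vf_continuousOn hγ hb)
    (variationOnFromTo.monotoneOn hb.locallyBoundedVariationOn (left_mem_Icc.2 hab)) (L := L)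
    (by
      intro s hs t ht hst
      have h1 : eVariationOn (F ∘ γ) (Icc s t) ≤ L * eVariationOn γ (Icc s t) :=
        hF.lipschitzOnWith.comp_eVariationOn_le (t := univ) (mapsTo_univ _ _)
      have h2 : eVariationOn γ (Icc s t) ≠ ⊤ :=
        ne_top_of_le_ne_top hb (eVariationOn.mono γ (Icc_subset_Icc hs.1 ht.2))
      rw [vf_sub hb hs.1 hst ht.2, ENNReal.ofReal_toReal h2]
      exact h1)
    (p := fun v => ρ (F (naturalParameterization γ (Icc a b) a v)))
    (by
      intro t ht
      simp only [Function.comp_apply]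
      rw [nat_apply hb ht])
  have h0 : variationOnFromTo γ (Icc a b) a a = 0 := variationOnFromTo.self _ _ _
  have h1 : variationOnFromTo γ (Icc a b) a b = (eVariationOn γ (Icc a b)).toReal := by
    rw [variationOnFromTo.eq_of_le _ _ hab, inter_self]
  rw [h0, h1] at h
  exact h

/-- PROOF: `arcInt_le_of_param` with `θ = id`, `p = fun t => ρ (α t)`; the variation of an
`L`-Lipschitz function on `Icc s t` is at most `L (t - s)` (`LipschitzOnWith.comp_eVariationOn_le`
with the identity and `eVariationOn_id_Icc`). -/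
theorem arcInt_lipschitz_le {α : ℝ → E} {L : ℝ≥0} {a b : ℝ} (hab : a ≤ b)
    (hα : LipschitzOnWith L α (Icc a b)) {ρ : E → ℝ≥0∞} (hρ : Measurable ρ) :
    arcInt ρ α a b ≤ L * ∫⁻ t in Icc a b, ρ (α t) := by
  have hb : BoundedVariationOn α (Icc a b) := by
    have h1 := hα.comp_boundedVariationOn (g := id) (s := Icc a b) (mapsTo_id _)
      (BoundedVariationOn.id_Icc a b)
    exact h1
  have h := arcInt_le_of_param (ρ := ρ) hρ (α := α) hab hα.continuousOn hb
    (θ := id) continuousOn_id (monotoneOn_id) (L := L)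
    (by
      intro s hs t ht hst
      have h1 : eVariationOn (α ∘ id) (Icc s t) ≤ L * eVariationOn id (Icc s t) :=
        hα.comp_eVariationOn_le (fun x hx => Icc_subset_Icc hs.1 ht.2 hx)
      rw [eVariationOn_id_Icc] at h1
      exact h1)
    (p := fun t => ρ (α t)) (fun t _ => rfl)
  exact h

/-- PROOF: unfold; the integrand is multiplied by the constant `m ≠ ⊤`
(`lintegral_const_mul'`). -/
theorem arcInt_const_mul {ρ : E → ℝ≥0∞} {m : ℝ≥0∞} (hm : m ≠ ⊤) (γ : ℝ → E) (a b : ℝ) :
    arcInt (fun x => m * ρ x) γ a b = m * arcInt ρ γ a b := by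
  unfold arcInt
  exact lintegral_const_mul' m _ hm

end Pool.QC3
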