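import Pool.Agent.Lib.MP_6b3014_an.LI2

/-!
# MP_6b3014_an, row MO1

Statements must stay exactly as they are. You may use everything that comes EARLIER in the files
Defs, Base, SkelA, SkelB, SkelC, SkelD, SkelE (there it is sorried), nothing that comes later.
-/

open Set MeasureTheory Metric
open scoped ENNReal NNReal Topology

namespace Pool.QC3

theorem MO1_aux1 {s : Set ℝ} {γ : ℝ → E} (hord : s.OrdConnected) (hv : LocallyBoundedVariationOn γ s)
    {a b : ℝ} (ha : a ∈ s) (hb : b ∈ s) : BoundedVariationOn γ (Icc a b) := by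
  have h := hv a b ha hb
  rwa [inter_eq_right.mpr (hord.out ha hb)] at h

theorem MO1_aux2 {ρ ρ' : E → ℝ≥0∞} (h : ∀ x, ρ x ≤ ρ' x) (c : Curve) : lineInt ρ c ≤ lineInt ρ' c := by
  unfold lineInt
  refine iSup₂_mono fun a _ => iSup₂_mono fun b _ => iSup_mono fun _ => ?_
  unfold arcInt
  exact lintegral_mono fun s => h _

theorem MO1_aux3 {ρ ρ' : E → ℝ≥0∞} {Γ Γ' : Set Curve} (h : Admissible Γ ρ) (h' : Admissible Γ' ρ') :
    Admissible (Γ ∪ Γ') (fun x => max (ρ x) (ρ' x)) := by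
  refine ⟨h.1.max h'.1, ?_⟩
  rintro c (hc | hc) hv
  · exact (h.2 c hc hv).trans (MO1_aux2 (fun x => le_max_left _ _) c)
  · exact (h'.2 c hc hv).trans (MO1_aux2 (fun x => le_max_right _ _) c)

/-- PROOF: infimum. -/
theorem modulus_le {Γ : Set Curve} {ρ : E → ℝ≥0∞} (h : Admissible Γ ρ) :
    modulus Γ ≤ ∫⁻ x, ρ x ^ 3 := by
  exact iInf₂_le ρ h

/-- PROOF: a function which is admissible for the larger family is admissible for the smaller. -/
theorem modulus_mono {Γ Γ' : Set Curve} (h : Γ ⊆ Γ') : modulus Γ ≤ modulus Γ' := by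
  unfold modulus
  refine le_iInf₂ fun ρ hρ => ?_
  exact iInf₂_le ρ ⟨hρ.1, fun c hc hv => hρ.2 c (h hc) hv⟩

/-- PROOF: if `ρ` is admissible for `Γ` and `ρ'` for `Γ'`, then `max ρ ρ'` is admissible for the
union (`lineInt` is monotone in `ρ`), and `(max ρ ρ') ^ 3 ≤ ρ ^ 3 + ρ' ^ 3`;
`ENNReal.iInf_add_iInf`-type argument: show `modulus (Γ ∪ Γ') ≤ ∫ρ³ + ∫ρ'³` for all admissible
pairs and use `ENNReal.le_of_forall_pos_le_add` or `iInf` lemmas. -/
theorem modulus_union_le (Γ Γ' : Set Curve) : modulus (Γ ∪ Γ') ≤ modulus Γ + modulus Γ' := by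
  have key : ∀ ρ : E → ℝ≥0∞, Admissible Γ ρ → ∀ ρ' : E → ℝ≥0∞, Admissible Γ' ρ' →
      modulus (Γ ∪ Γ') ≤ (∫⁻ x, ρ x ^ 3) + ∫⁻ x, ρ' x ^ 3 := by
    intro ρ hρ ρ' hρ'
    refine (modulus_le (MO1_aux3 hρ hρ')).trans ?_
    rw [← lintegral_add_left (hρ.1.pow_const 3)]
    apply lintegral_mono
    intro x
    beta_reduce
    rcases le_total (ρ x) (ρ' x) with h | h
    · rw [max_eq_right h]; exact le_add_self
    · rw [max_eq_left h]; exact le_self_add
  have h2 : modulus (Γ ∪ Γ') ≤ (⨅ (ρ : E → ℝ≥0∞) (_ : Admissible Γ ρ), ∫⁻ x, ρ x ^ 3) +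
      ⨅ (ρ : E → ℝ≥0∞) (_ : Admissible Γ' ρ), ∫⁻ x, ρ x ^ 3 := by
    simp only [ENNReal.iInf_add, ENNReal.add_iInf]
    exact le_iInf₂ fun ρ hρ => le_iInf₂ fun ρ' hρ' => key ρ' hρ' ρ hρ
  exact h2

/-- PROOF: for `[a, b] ⊆ c.1` (the parameter set is an interval, `OrdConnected`) use
`arcInt_congr`; the variation on compact pieces is finite because the curve is locally of bounded
variation. -/
theorem lineInt_congr {ρ : E → ℝ≥0∞} {c c' : Curve} (hord : c.1.OrdConnected)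
    (hc : ContinuousOn c.2 c.1) (hv : LocallyBoundedVariationOn c.2 c.1)
    (h1 : c.1 = c'.1) (h2 : EqOn c.2 c'.2 c.1) : lineInt ρ c = lineInt ρ c' := by
  obtain ⟨s, γ⟩ := c
  obtain ⟨s', γ'⟩ := c'
  simp only at h1 h2 hord hc hv
  subst h1
  unfold lineInt
  simp only
  refine iSup_congr fun a => iSup_congr fun ha => iSup_congr fun b => iSup_congr fun hb => iSup_congr fun _ => ?_
  have hsub : Icc a b ⊆ s := hord.out ha hb
  exact arcInt_congr (hc.mono hsub) (MO1_aux1 hord hv ha hb) (h2.mono hsub)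

/-- PROOF: if `ρ` is admissible for `Γ'` it is admissible for `Γ` (`lineInt_congr`; local bounded
variation passes to `c'` because it only depends on the restriction to the parameter set,
`eVariationOn.congr`). -/
theorem modulus_le_of_cover {Γ Γ' : Set Curve}
    (h : ∀ c ∈ Γ, c.1.OrdConnected ∧ ContinuousOn c.2 c.1 ∧
      ∃ c' ∈ Γ', c.1 = c'.1 ∧ EqOn c.2 c'.2 c.1) : modulus Γ ≤ modulus Γ' := by
  unfold modulus
  refine le_iInf₂ fun ρ hρ => ?_
  refine iInf₂_le ρ ⟨hρ.1, fun c hc hv => ?_⟩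
  obtain ⟨hord, hcont, c', hc', h1, h2⟩ := h c hc
  rw [lineInt_congr hord hcont hv h1 h2]
  apply hρ.2 c' hc'
  intro a b ha hb
  rw [← h1] at ha hb ⊢
  have h3 := hv a b ha hb
  unfold BoundedVariationOn at h3 ⊢
  rwa [← eVariationOn.congr (h2.mono inter_subset_left)]

end Pool.QC3
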