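import Pool.Agent.Lib.MP_6b3014_an.TP2
import Pool.Agent.Lib.MP_6b3014_an.MO1
import Pool.Agent.Lib.MP_6b3014_an.LI5

/-!
# MP_6b3014_an, row TP6

Statements must stay exactly as they are. You may use everything that comes EARLIER in the files
Defs, Base, SkelA, SkelB, SkelC, SkelD, SkelE (there it is sorried), nothing that comes later.
-/

open Set MeasureTheory Metric
open scoped ENNReal NNReal Topology

namespace Pool.QC3

/-- PROOF: let `T`, `α` be the path, `P = (h '' A0)ᶜ`, closed (`A0` is open, contained in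
`B0 ⊆ h.source`, so `h '' A0` is open: `OpenPartialHomeomorph.isOpen_image_of_subset_source`).
Let `t` be the infimum of the closed set `{τ ∈ Icc 0 T | α τ ∈ P}` (which contains `T`). For
`τ < t`, `α τ ∈ h '' A0`, and `α t ∈ P` is a limit of points of `h '' A0` (note `t > 0` because
`α 0 = x ∈ h '' C0 ⊆ h '' A0`), hence `α t ∈ h '' W` (compact image: `W` is compact, contained in
`B0`, and `h` is continuous there) and so `α t = h w` with `w ∈ W`, `w ∉ A0`, i.e. `phi w = 0`. So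
`α` maps `Icc 0 t` to `h '' W ⊆ h.target`, and `γ = h.symm ∘ α` is continuous on `Icc 0 t` with
values in `W ⊆ B0` (by injectivity of `h` on `B0`), `phi (γ 0) = 1`, `phi (γ t) = 0`. The curve
`(Icc 0 t, γ)` belongs to `Gam`, its image `(Icc 0 t, h ∘ γ)` to `img h Gam`; `h ∘ γ = α` on
`Icc 0 t`. As `α` is `1`-Lipschitz it is of bounded variation, and
`1 ≤ lineInt ρ (Icc 0 t, h ∘ γ) = lineInt ρ (Icc 0 t, α)` (`lineInt_congr`). For `u ≤ v` in
`Icc 0 t`, `arcInt ρ α u v ≤ ∫_{Icc u v} ρ (α τ) dτ ≤ ∫_{Icc 0 T} ρ (α τ) dτ ≤ η`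
(`arcInt_lipschitz_le`). -/
theorem one_le_of_cheap {h : OpenPartialHomeomorph E E} (hB : B0 ⊆ h.source) {ρ : E → ℝ≥0∞}
    (hadm : Admissible (img h Gam) ρ) {x y : E} (hx : x ∈ h '' C0) (hy : y ∉ h '' A0)
    {η : ℝ≥0∞} (hc : Cheap ρ η x y) : 1 ≤ η := by
  obtain ⟨T, hT0, α, hα, hα0, hαT, hint⟩ := hc
  have hA0W : A0 ⊆ W := subset_closure.trans closure_A0_subset
  have hWs : W ⊆ h.source := W_subset_B0.trans hB
  have hA0s : A0 ⊆ h.source := hA0W.trans hWs
  have hAo : IsOpen (h '' A0) := h.isOpen_image_of_subset_source isOpen_A0 hA0s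
  set S : Set ℝ := {τ | τ ∈ Icc 0 T ∧ α τ ∉ h '' A0} with hS
  have hSc : IsClosed S :=
    isClosed_Icc.inter (hAo.isClosed_compl.preimage hα.continuous)
  have hTS : T ∈ S := ⟨⟨hT0, le_rfl⟩, by rw [hαT]; exact hy⟩
  have hSb : BddBelow S := ⟨0, fun τ hτ => hτ.1.1⟩
  set t : ℝ := sInf S with ht
  have htS : t ∈ S := hSc.csInf_mem ⟨T, hTS⟩ hSb
  obtain ⟨⟨ht0, htT⟩, htA⟩ := htS
  have hbefore : ∀ τ ∈ Ico 0 t, α τ ∈ h '' A0 := by
    intro τ hτ
    by_contra hcon
    have : t ≤ τ := csInf_le hSb ⟨⟨hτ.1, hτ.2.le.trans htT⟩, hcon⟩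
    linarith [hτ.2]
  have htpos : 0 < t := by
    rcases ht0.lt_or_eq with h1 | h1
    · exact h1
    · exfalso
      apply htA
      rw [← h1, hα0]
      exact image_mono C0_subset_A0 hx
  have hWc : IsCompact (h '' W) := isCompact_W.image_of_continuousOn (h.continuousOn.mono hWs)
  have htW : α t ∈ h '' W := by
    have h1 : t ∈ closure (Ico 0 t) := by
      rw [closure_Ico htpos.ne]
      exact ⟨ht0, le_rfl⟩
    have h2 : α t ∈ closure (h '' A0) := map_mem_closure hα.continuous h1 hbefore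
    exact closure_minimal (image_mono hA0W) hWc.isClosed h2
  have hall : ∀ τ ∈ Icc 0 t, α τ ∈ h '' W := by
    intro τ hτ
    rcases hτ.2.lt_or_eq with h1 | h1
    · exact image_mono hA0W (hbefore τ ⟨hτ.1, h1⟩)
    · rw [h1]; exact htW
  have htgt : ∀ τ ∈ Icc 0 t, α τ ∈ h.target := by
    intro τ hτ
    obtain ⟨w, hw, hwα⟩ := hall τ hτ
    rw [← hwα]
    exact h.map_source (hWs hw)
  set γ : ℝ → E := h.symm ∘ α with hγ
  have hγW : ∀ τ ∈ Icc 0 t, γ τ ∈ W := by
    intro τ hτ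
    obtain ⟨w, hw, hwα⟩ := hall τ hτ
    show h.symm (α τ) ∈ W
    rw [← hwα, h.left_inv (hWs hw)]
    exact hw
  have hγα : ∀ τ ∈ Icc 0 t, h (γ τ) = α τ := fun τ hτ => h.right_inv (htgt τ hτ)
  have hγc : ContinuousOn γ (Icc 0 t) :=
    h.continuousOn_symm.comp hα.continuous.continuousOn htgt
  have h0mem : (0 : ℝ) ∈ Icc 0 t := ⟨le_rfl, ht0⟩
  have htmem : t ∈ Icc 0 t := ⟨ht0, le_rfl⟩
  have hγ0 : phi (γ 0) = 1 := by
    obtain ⟨z, hz, hzx⟩ := hx
    show phi (h.symm (α 0)) = 1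
    rw [hα0, ← hzx, h.left_inv (hA0s (C0_subset_A0 hz))]
    exact hz
  have hγt : phi (γ t) = 0 := by
    apply le_antisymm _ (phi_nonneg _)
    by_contra hcon
    rw [not_le] at hcon
    exact htA ⟨γ t, hcon, hγα t htmem⟩
  have hGam : ((Icc 0 t, γ) : Curve) ∈ Gam := by
    refine ⟨⟨ordConnected_Icc, hγc, fun τ hτ => W_subset_B0 (hγW τ hτ)⟩, 0, h0mem, t, htmem, ht0,
      hγ0, hγt⟩
  have himg : ((Icc 0 t, h ∘ γ) : Curve) ∈ img h Gam := ⟨(Icc 0 t, γ), hGam, rfl⟩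
  have heq : EqOn α (h ∘ γ) (Icc 0 t) := fun τ hτ => (hγα τ hτ).symm
  have hbv : LocallyBoundedVariationOn α (Icc 0 t) :=
    (hα.lipschitzOnWith (s := Icc 0 t)).locallyBoundedVariationOn
  have hbv2 : LocallyBoundedVariationOn (h ∘ γ) (Icc 0 t) := by
    intro a b ha hb
    have h1 := hbv a b ha hb
    unfold BoundedVariationOn at h1 ⊢
    rw [← eVariationOn.eq_of_eqOn (heq.mono inter_subset_left)]
    exact h1
  have h1 : 1 ≤ lineInt ρ ((Icc 0 t, h ∘ γ) : Curve) := hadm.2 _ himg hbv2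
  have h2 : lineInt ρ ((Icc 0 t, α) : Curve) = lineInt ρ ((Icc 0 t, h ∘ γ) : Curve) :=
    lineInt_congr ordConnected_Icc hα.continuous.continuousOn hbv rfl heq
  rw [← h2] at h1
  refine h1.trans ?_
  unfold lineInt
  refine iSup_le fun u => iSup_le fun hu => iSup_le fun v => iSup_le fun hv => iSup_le fun huv => ?_
  have h3 := arcInt_lipschitz_le huv (hα.lipschitzOnWith (s := Icc u v)) hadm.1
  refine h3.trans ?_
  rw [ENNReal.coe_one, one_mul]
  refine (lintegral_mono_set ?_).trans hint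
  exact Icc_subset_Icc hu.1 (hv.2.trans htT)

end Pool.QC3
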