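import Pool.Agent.Lib.MP_6b3014_an.TP7
import Pool.Agent.Lib.MP_6b3014_an.TP6
import Pool.Agent.Lib.MP_6b3014_an.TP5
import Pool.Agent.Lib.MP_6b3014_an.MR6

/-!
# MP_6b3014_an, row TP8

Statements must stay exactly as they are. You may use everything that comes EARLIER in the files
Defs, Base, SkelA, SkelB, SkelC, SkelD, SkelE (there it is sorried), nothing that comes later.
-/

open Set MeasureTheory Metric
open scoped ENNReal NNReal Topology

namespace Pool.QC3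

theorem TP8_co_continuous : Continuous co := by
  unfold co
  fun_prop

theorem TP8_co_injective : Function.Injective co := by
  intro x y h
  ext i
  exact congrFun h i

theorem TP8_C0_sub {h : OpenPartialHomeomorph E E} (hB : B0 ⊆ h.source) : C0 ⊆ h.source :=
  fun _ hx => hB (W_subset_B0 (closure_A0_subset (subset_closure (C0_subset_A0 hx))))

theorem TP8_cont {h : OpenPartialHomeomorph E E} (hB : B0 ⊆ h.source) :
    ContinuousOn (fun z => co (h z)) C0 :=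
  TP8_co_continuous.comp_continuousOn (h.continuousOn.mono (TP8_C0_sub hB))

/-- PROOF: `C0` is compact and `h` is continuous and injective on it, `circ 0 ≠ circ π`; the
continuous function `(x, y) ↦ ‖co (h y) - co (h x)‖` on the compact set `C0 × C0` has a maximum
`d > 0`, at `(x, y)`. -/
theorem exists_diameter {h : OpenPartialHomeomorph E E} (hB : B0 ⊆ h.source) :
    ∃ x ∈ C0, ∃ y ∈ C0, 0 < ‖co (h y) - co (h x)‖ ∧
      ∀ z ∈ C0, ‖co (h z) - co (h x)‖ ≤ ‖co (h y) - co (h x)‖ := by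
  have hc := TP8_cont hB
  have hK : IsCompact (C0 ×ˢ C0) := isCompact_C0.prod isCompact_C0
  have h0 : circ 0 ∈ C0 := by rw [C0_eq_range]; exact mem_range_self _
  have hpi : circ Real.pi ∈ C0 := by rw [C0_eq_range]; exact mem_range_self _
  have hcont : ContinuousOn (fun p : E × E => ‖co (h p.2) - co (h p.1)‖) (C0 ×ˢ C0) := by
    apply ContinuousOn.norm
    apply ContinuousOn.sub
    · exact hc.comp continuousOn_snd (fun p hp => hp.2)
    · exact hc.comp continuousOn_fst (fun p hp => hp.1)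
  obtain ⟨⟨x, y⟩, hxy, hmax⟩ := hK.exists_isMaxOn ⟨(circ 0, circ 0), h0, h0⟩ hcont
  refine ⟨x, hxy.1, y, hxy.2, ?_, ?_⟩
  · have hm := hmax (show (circ 0, circ Real.pi) ∈ C0 ×ˢ C0 from ⟨h0, hpi⟩)
    refine lt_of_lt_of_le ?_ hm
    rw [norm_pos_iff, sub_ne_zero]
    intro he
    apply circ_ne
    exact (h.injOn (TP8_C0_sub hB hpi) (TP8_C0_sub hB h0) (TP8_co_injective he)).symm
  · intro z hz
    exact hmax (show (x, z) ∈ C0 ×ˢ C0 from ⟨hxy.1, hz⟩)

/-- PROOF: let `x, y, d` be as in `exists_diameter`, `a = co (h x)`, and `c` as in `exists_near`.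
Let `s` be as in `good_surface` for `a` and `d`, and `z₁ ∈ C0` with `‖co (h z₁) - a‖ = s`
(`circle_meets`).
If `‖co c - a‖ ≤ d / 2`: `surface_meets` gives `y₁ ∉ h '' A0` with `‖co y₁ - a‖ = s`, and
`good_surface` joins `h z₁` to `y₁`.
If `‖co c - a‖ > d / 2`: let `t` be as in `good_surface` for `co c` and `d`; `surface_meets` with
centre `co c` gives `y₁ ∉ h '' A0` with `‖co y₁ - co c‖ = t`; `surfaces_meet` gives a common point
`p`, and `h z₁` is joined to `pt p` and `pt p` to `y₁`: total cost `≤ 480 (∫ρ³)^(1/3)`. -/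
theorem exists_cheap {h : OpenPartialHomeomorph E E} (hB : B0 ⊆ h.source) {ρ : E → ℝ≥0∞}
    (hρ : Measurable ρ) : ∃ x ∈ h '' C0, ∃ y, y ∉ h '' A0 ∧
      Cheap ρ (480 * (∫⁻ z, ρ z ^ 3) ^ (1 / 3 : ℝ)) x y := by
  obtain ⟨x, hx, y, hy, hd, hmax⟩ := exists_diameter hB
  set d := ‖co (h y) - co (h x)‖ with hdd
  obtain ⟨c, hc, hca⟩ := exists_near hB hx hmax
  obtain ⟨s, hs, hgs⟩ := good_surface hρ (co (h x)) hd
  have hs0 : 0 < s := by have := hs.1; linarith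
  obtain ⟨z₁, hz₁, hzs⟩ := circle_meets hB hx hy hs0.le hs.2.le
  have hle : (240 : ℝ≥0∞) * (∫⁻ z, ρ z ^ 3) ^ (1 / 3 : ℝ) +
      240 * (∫⁻ z, ρ z ^ 3) ^ (1 / 3 : ℝ) = 480 * (∫⁻ z, ρ z ^ 3) ^ (1 / 3 : ℝ) := by
    rw [← add_mul]
    norm_num
  rcases le_or_gt (‖co c - co (h x)‖) (d / 2) with hcase | hcase
  · obtain ⟨y₁, hy₁, hys⟩ := surface_meets hB hc hs0 (hcase.trans hs.1.le)
    refine ⟨h z₁, mem_image_of_mem _ hz₁, y₁, hy₁, ?_⟩
    refine (hgs _ _ hzs hys).mono ?_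
    rw [← hle]
    exact le_self_add
  · obtain ⟨t, ht, hgt⟩ := good_surface hρ (co c) hd
    have ht0 : 0 < t := by have := ht.1; linarith
    obtain ⟨y₁, hy₁, hyt⟩ := surface_meets hB hc (a := co c) ht0 (by simpa using ht0.le)
    obtain ⟨p, hps, hpt⟩ := surfaces_meet hcase hca hs ht
    have hcp : co (pt p) = p := rfl
    refine ⟨h z₁, mem_image_of_mem _ hz₁, y₁, hy₁, ?_⟩
    rw [← hle]
    exact (hgs _ (pt p) hzs (by rw [hcp]; exact hps)).trans
      (hgt (pt p) _ (by rw [hcp]; exact hpt) hyt)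

/-- PROOF: for every admissible `ρ`, `exists_cheap` and `one_le_of_cheap` give
`1 ≤ 480 (∫ρ³)^(1/3)`, so `∫ρ³ ≥ 480⁻³ ≥ 10⁻⁹` (`480³ = 110592000 ≤ 10⁹`). -/
theorem universal_bound {h : OpenPartialHomeomorph E E} (hB : B0 ⊆ h.source) :
    ENNReal.ofReal (1 / 10 ^ 9) ≤ modulus (img h Gam) := by
  unfold modulus
  refine le_iInf₂ fun ρ hadm => ?_
  obtain ⟨x, hx, y, hy, hcheap⟩ := exists_cheap hB hadm.1
  have h1 := one_le_of_cheap hB hadm hx hy hcheap
  set J := ∫⁻ z, ρ z ^ 3 with hJ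
  have h3 : (1 : ℝ≥0∞) ≤ (480 * J ^ (1 / 3 : ℝ)) ^ 3 := one_le_pow₀ h1
  have h4 : (480 * J ^ (1 / 3 : ℝ)) ^ 3 = 110592000 * J := by
    rw [mul_pow, ← ENNReal.rpow_natCast (J ^ (1 / 3 : ℝ)), ← ENNReal.rpow_mul]
    norm_num
  rw [h4] at h3
  have h5 : (1 : ℝ≥0∞) ≤ 10 ^ 9 * J := h3.trans (by gcongr; norm_num)
  have h6 : ENNReal.ofReal (1 / 10 ^ 9) = (10 ^ 9 : ℝ≥0∞)⁻¹ := by
    rw [one_div, ENNReal.ofReal_inv_of_pos (by positivity)]
    congr 1
    rw [ENNReal.ofReal_pow (by norm_num)]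
    norm_num
  rw [h6]
  have h7 : (10 ^ 9 : ℝ≥0∞)⁻¹ * 1 ≤ (10 ^ 9 : ℝ≥0∞)⁻¹ * (10 ^ 9 * J) := by gcongr
  rw [mul_one, ← mul_assoc, ENNReal.inv_mul_cancel (by positivity) (by finiteness), one_mul] at h7
  exact h7

end Pool.QC3
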