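import Pool.Agent.Lib.MP_6b3014_an.TW5
import Pool.Agent.Lib.MP_6b3014_an.MO1

/-!
# MP_6b3014_an, row TW6

Statements must stay exactly as they are. You may use everything that comes EARLIER in the files
Defs, Base, SkelA, SkelB, SkelC, SkelD, SkelE (there it is sorried), nothing that comes later.
-/

open Set MeasureTheory Metric
open scoped ENNReal NNReal Topology

namespace Pool.QC3

/-- PROOF: `ρ = m * indicator W 1` is admissible: if `c ∈ Γ` is locally of bounded variation, take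
`a, b, t` from `hΓ` (`[a, b]` is contained in the parameter set, an interval), then
`1 ≤ m * eVariationOn c.2 (Icc a t) ≤ arcInt ρ c.2 a b ≤ lineInt ρ c` by `arcInt_ge`. And
`∫ ρ³ = m³ * volume W ≤ 72 m³`. -/
theorem modulus_le_of_long {Γ : Set Curve} {m : ℝ≥0∞}
    (hΓ : ∀ c ∈ Γ, c.1.OrdConnected ∧ ContinuousOn c.2 c.1 ∧ ∃ a ∈ c.1, ∃ b ∈ c.1, ∃ t,
      a ≤ t ∧ t ≤ b ∧ (∀ r ∈ Icc a t, c.2 r ∈ W) ∧ 1 ≤ m * eVariationOn c.2 (Icc a t)) :
    modulus Γ ≤ 72 * m ^ 3 := by
  have hWm : MeasurableSet W := isCompact_W.isClosed.measurableSet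
  have hadm : Admissible Γ (W.indicator (fun _ => m)) := by
    refine ⟨measurable_const.indicator hWm, ?_⟩
    intro c hc hv
    obtain ⟨hord, hcont, a, ha, b, hb, t, hat, htb, hW, h1⟩ := hΓ c hc
    have hsub : Icc a b ⊆ c.1 := hord.out ha hb
    have hbv : BoundedVariationOn c.2 (Icc a b) := by
      have := hv a b ha hb
      rwa [inter_eq_self_of_subset_right hsub] at this
    have h2 : m * eVariationOn c.2 (Icc a t) ≤ arcInt (W.indicator (fun _ => m)) c.2 a b :=
      arcInt_ge le_rfl hat htb (hcont.mono hsub) hbv m (fun r hr => by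
        rw [indicator_of_mem (hW r hr)])
    calc (1 : ℝ≥0∞) ≤ m * eVariationOn c.2 (Icc a t) := h1
      _ ≤ arcInt (W.indicator (fun _ => m)) c.2 a b := h2
      _ ≤ lineInt (W.indicator (fun _ => m)) c := by
          unfold lineInt
          exact le_iSup₂_of_le a ha (le_iSup₂_of_le b hb (le_iSup_of_le (hat.trans htb) le_rfl))
  calc modulus Γ ≤ ∫⁻ x, (W.indicator (fun _ => m)) x ^ 3 := modulus_le hadm
    _ = ∫⁻ x, W.indicator (fun _ => m ^ 3) x := by
        apply lintegral_congr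
        intro x
        by_cases hx : x ∈ W
        · rw [indicator_of_mem hx, indicator_of_mem hx]
        · rw [indicator_of_notMem hx, indicator_of_notMem hx]
          norm_num
    _ = m ^ 3 * volume W := lintegral_indicator_const hWm _
    _ ≤ m ^ 3 * 72 := by gcongr; exact volume_W
    _ = 72 * m ^ 3 := mul_comm _ _

/-- PROOF: `modulus_le_of_long` with `m = 1`, `first_exit`, `one_le_variation`. -/
theorem modulus_Gam_le : modulus Gam ≤ 72 := by
  have h : modulus Gam ≤ 72 * (1 : ℝ≥0∞) ^ 3 := by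
    apply modulus_le_of_long
    rintro c ⟨⟨hord, hcont, -⟩, a, ha, b, hb, hab, h1, h0⟩
    have hsub : Icc a b ⊆ c.1 := hord.out ha hb
    obtain ⟨t, ht, ht0, htW⟩ := first_exit hab (hcont.mono hsub) h1 h0
    exact ⟨hord, hcont, a, ha, b, hb, t, ht.1, ht.2, htW, by
      rw [one_mul]; exact one_le_variation ht.1 h1 ht0⟩
  simpa using h

/-- PROOF: for `γ ∈ Gam` take `a ≤ b` from the definition and `t` from `first_exit`; by `crossing`
one of the two variations on `Icc a t` is at least `c / π`. Let `Γ₁` be the set of curves of `Gam`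
for which (for some such `a, b, t`) `eVariationOn γ (Icc a t) ≥ c / π` and `Γ₂` the set of those for
which `eVariationOn (twist c ∘ γ) (Icc a t) ≥ c / π`. Apply `modulus_le_of_long` with
`m = ENNReal.ofReal (π / c)` to `Γ₁` and to `img (twist c) Γ₂` (`twist c` maps `W` to `W`,
`twist_mem_W`; it is continuous, `twist_lipschitz`). -/
theorem Gam_split {c : ℝ} (hc : 0 < c) : ∃ Γ₁ Γ₂ : Set Curve, Gam = Γ₁ ∪ Γ₂ ∧
    modulus Γ₁ ≤ 72 * ENNReal.ofReal (Real.pi / c) ^ 3 ∧
    modulus (img (twist c) Γ₂) ≤ 72 * ENNReal.ofReal (Real.pi / c) ^ 3 := by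
  have hpi := Real.pi_pos
  have hone : ENNReal.ofReal (Real.pi / c) * ENNReal.ofReal (c / Real.pi) = 1 := by
    rw [← ENNReal.ofReal_mul (by positivity)]
    rw [show Real.pi / c * (c / Real.pi) = 1 by field_simp]
    exact ENNReal.ofReal_one
  refine ⟨{γ ∈ Gam | ∃ a ∈ γ.1, ∃ b ∈ γ.1, ∃ t, a ≤ t ∧ t ≤ b ∧ (∀ r ∈ Icc a t, γ.2 r ∈ W) ∧
      ENNReal.ofReal (c / Real.pi) ≤ eVariationOn γ.2 (Icc a t)},
    {γ ∈ Gam | ∃ a ∈ γ.1, ∃ b ∈ γ.1, ∃ t, a ≤ t ∧ t ≤ b ∧ (∀ r ∈ Icc a t, γ.2 r ∈ W) ∧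
      ENNReal.ofReal (c / Real.pi) ≤ eVariationOn (twist c ∘ γ.2) (Icc a t)}, ?_, ?_, ?_⟩
  · apply Subset.antisymm
    · intro γ hγ
      obtain ⟨⟨hord, hcont, -⟩, a, ha, b, hb, hab, h1, h0⟩ := id hγ
      have hsub : Icc a b ⊆ γ.1 := hord.out ha hb
      obtain ⟨t, ht, ht0, htW⟩ := first_exit hab (hcont.mono hsub) h1 h0
      have hsub' : Icc a t ⊆ γ.1 := fun r hr => hsub ⟨hr.1, hr.2.trans ht.2⟩
      have hcr := crossing (c := c) ht.1 (hcont.mono hsub') h1 ht0 htW
      rw [abs_of_pos hc] at hcr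
      by_contra hcon
      rw [mem_union, not_or] at hcon
      have e1 : eVariationOn γ.2 (Icc a t) < ENNReal.ofReal (c / Real.pi) := by
        rw [← not_le]
        intro h
        exact hcon.1 ⟨hγ, a, ha, b, hb, t, ht.1, ht.2, htW, h⟩
      have e2 : eVariationOn (twist c ∘ γ.2) (Icc a t) < ENNReal.ofReal (c / Real.pi) := by
        rw [← not_le]
        intro h
        exact hcon.2 ⟨hγ, a, ha, b, hb, t, ht.1, ht.2, htW, h⟩
      have e3 := ENNReal.add_lt_add e1 e2
      rw [← ENNReal.ofReal_add (by positivity) (by positivity)] at e3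
      rw [show c / Real.pi + c / Real.pi = 2 / Real.pi * c by ring] at e3
      exact absurd (lt_of_le_of_lt hcr e3) (lt_irrefl _)
    · apply union_subset
      · exact fun γ hγ => hγ.1
      · exact fun γ hγ => hγ.1
  · apply modulus_le_of_long
    rintro γ ⟨⟨⟨hord, hcont, -⟩, -⟩, a, ha, b, hb, t, hat, htb, hW, h⟩
    refine ⟨hord, hcont, a, ha, b, hb, t, hat, htb, hW, ?_⟩
    rw [← hone]
    gcongr
  · apply modulus_le_of_long
    rintro _ ⟨γ, ⟨⟨⟨hord, hcont, -⟩, -⟩, a, ha, b, hb, t, hat, htb, hW, h⟩, rfl⟩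
    refine ⟨hord, (twist_lipschitz c).continuous.comp_continuousOn hcont, a, ha, b, hb, t, hat,
      htb, fun r hr => (twist_mem_W c).mpr (hW r hr), ?_⟩
    rw [← hone]
    gcongr

end Pool.QC3
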