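import Pool.Agent.Lib.MP_6b3014_an.FI2
import Pool.Agent.Lib.MP_6b3014_an.TW6
import Pool.Agent.Lib.MP_6b3014_an.TP8
import Pool.Agent.Lib.MP_6b3014_an.MO3

/-!
# MP_6b3014_an, row FI3
-/

open Set MeasureTheory Metric
open scoped ENNReal NNReal Topology

namespace Pool.QC3

/-- the similarity as a homeomorphism -/
private noncomputable def FI3_homeo (p : E) {r : ℝ} (hr : 0 < r) : E ≃ₜ E where
  toFun := simi p r
  invFun := simiInv p r
  left_inv := simiInv_simi hr
  right_inv := simi_simiInv hr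
  continuous_toFun := (simi_lipschitz hr).continuous
  continuous_invFun := (simiInv_lipschitz hr).continuous

private theorem FI3_bound {D : Set E} {p : E} {r : ℝ} (hr : 0 < r) (hD : simi p r '' B0 ⊆ D)
    {h : OpenPartialHomeomorph E E} (hs : h.source = D) :
    ENNReal.ofReal (1 / 10 ^ 9) ≤ modulus (img h (img (simi p r) Gam)) := by
  have hB : B0 ⊆ ((FI3_homeo p hr).toOpenPartialHomeomorph.trans h).source := by
    intro x hx
    rw [OpenPartialHomeomorph.trans_source]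
    refine ⟨by simp, ?_⟩
    change simi p r x ∈ h.source
    rw [hs]
    exact hD ⟨x, hx, rfl⟩
  have h1 := universal_bound hB
  have h2 : img ((FI3_homeo p hr).toOpenPartialHomeomorph.trans h) Gam =
      img h (img (simi p r) Gam) := by
    unfold img
    rw [Set.image_image]
    rfl
  rw [h2] at h1
  exact h1

private theorem FI3_curveIn {D : Set E} {p : E} {r : ℝ} (hr : 0 < r) (hD : simi p r '' B0 ⊆ D)
    {c : Curve} (hc : CurveIn B0 c) : CurveIn D (c.1, simi p r ∘ c.2) := by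
  refine ⟨hc.1, (simi_lipschitz hr).continuous.comp_continuousOn hc.2.1, ?_⟩
  intro t ht
  exact hD ⟨c.2 t, hc.2.2 ht, rfl⟩

private theorem FI3_num {a b : ℝ} {n : ℝ} (hn : 0 < n) {k : ℝ≥0∞}
    (h : ENNReal.ofReal a ≤ k * ENNReal.ofReal n) (hab : b * n ≤ a) : ENNReal.ofReal b ≤ k := by
  by_cases hk : k = ⊤
  · rw [hk]; exact le_top
  · obtain ⟨k', rfl⟩ := ENNReal.canLift.prf k hk
    have h1 : ENNReal.ofReal (b * n) ≤ ENNReal.ofReal ((k' : ℝ) * n) := by
      refine (ENNReal.ofReal_le_ofReal hab).trans ?_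
      rw [ENNReal.ofReal_mul k'.coe_nonneg, ENNReal.ofReal_coe_nnreal]
      exact h
    by_cases hb : b ≤ 0
    · rw [ENNReal.ofReal_of_nonpos hb]; exact zero_le
    · have hb' : 0 < b := lt_of_not_ge hb
      have h2 : b * n ≤ (k' : ℝ) * n := by
        rwa [ENNReal.ofReal_le_ofReal_iff (by positivity)] at h1
      have h3 : b ≤ k' := le_of_mul_le_mul_right h2 hn
      rw [← ENNReal.ofReal_coe_nnreal]
      exact ENNReal.ofReal_le_ofReal h3

/-- PROOF: let `S` be the similarity as a homeomorphism of `E`, and `h' = S.trans h` (as partial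
homeomorphisms): `h' = h ∘ S` with source `S⁻¹ D ⊇ B0`. By `universal_bound`,
`10⁻⁹ ≤ modulus (img h' Gam)`, and `img h' Gam = img h (img S Gam)` (composition). The curves of
`img S Gam` are curves in `D` (`CurveIn`). For `k > KI h`, `modulus (img h (img S Gam)) ≤
k * modulus (img S Gam) ≤ k * modulus Gam ≤ 72 k` (`le_of_KI_lt`, `modulus_img_simi_le`,
`modulus_Gam_le`). -/
theorem small_bound {D : Set E} {p : E} {r : ℝ} (hr : 0 < r) (hD : simi p r '' B0 ⊆ D)
    {h : OpenPartialHomeomorph E E} (hs : h.source = D) :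
    ENNReal.ofReal (1 / (72 * 10 ^ 9)) ≤ KI h := by
  refine le_of_forall_gt_imp_ge_of_dense fun k hk => ?_
  have h0 := FI3_bound hr hD hs
  have h1 : modulus (img h (img (simi p r) Gam)) ≤ k * modulus (img (simi p r) Gam) := by
    refine le_of_KI_lt hk ?_
    rintro c ⟨c', hc', rfl⟩
    rw [hs]
    exact FI3_curveIn hr hD hc'.1
  have h2 : modulus (img (simi p r) Gam) ≤ modulus Gam :=
    modulus_img_simi_le hr fun c hc => ⟨hc.1.1, hc.1.2.1⟩
  have h3 : ENNReal.ofReal (1 / 10 ^ 9) ≤ k * 72 :=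
    h0.trans (h1.trans (by gcongr; exact h2.trans modulus_Gam_le))
  refine FI3_num (n := 72) (by norm_num) (a := 1 / 10 ^ 9) ?_ (by norm_num)
  simpa using h3

/-- PROOF: `10⁻⁹ ≤ modulus (img h (img S Gam))` as in `small_bound`; with `Gam = Γ₁ ∪ Γ₂` from
`Gam_split`, `img h (img S Gam) = img h (img S Γ₁) ∪ img h (img S Γ₂)`, so by `modulus_union_le` it is
at most `M₁ + M₂`. For `k > KI h`, `k > KO g`: `M₁ ≤ k * modulus (img S Γ₁) ≤ k * modulus Γ₁`, and
`M₂ ≤ k * modulus (img g (img h (img S Γ₂)))` (`le_of_KO_lt`; the curves of `img h (img S Γ₂)` are in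
`h.target = g.source`). On the parameter sets `g ∘ h ∘ S ∘ c.2 = S ∘ twist c ∘ c.2` (`hfg`,
`tw_simi`), so `modulus (img g (img h (img S Γ₂))) ≤ modulus (img S (img (twist c) Γ₂)) ≤
modulus (img (twist c) Γ₂)` (`modulus_le_of_cover`, `modulus_img_simi_le`). Hence
`10⁻⁹ ≤ k * 144 * (π / c)³`, i.e. `k ≥ c³ / (144 π³ 10⁹) ≥ c³ / (5 * 10¹²)` because
`144 π³ ≤ 5000` (`π < 3.15`). Let `k` decrease to the maximum. -/
theorem twist_bound {D : Set E} {p : E} {r : ℝ} (hr : 0 < r) (hD : simi p r '' B0 ⊆ D)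
    {h g : OpenPartialHomeomorph E E} (hs : h.source = D) (ht : h.target = g.source)
    {c : ℝ} (hc : 0 < c) (hfg : ∀ x ∈ D, g (h x) = tw p r c x) :
    ENNReal.ofReal (c ^ 3 / (5 * 10 ^ 12)) ≤ max (KI h) (KO g) := by
  refine le_of_forall_gt_imp_ge_of_dense fun k hk => ?_
  have hkI : KI h < k := lt_of_le_of_lt (le_max_left _ _) hk
  have hkO : KO g < k := lt_of_le_of_lt (le_max_right _ _) hk
  have h0 := FI3_bound hr hD hs
  obtain ⟨Γ₁, Γ₂, hG, hΓ₁, hΓ₂⟩ := Gam_split hc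
  have hB1 : ∀ c' ∈ Γ₁, CurveIn B0 c' := fun c' hc' => (hG ▸ Or.inl hc' : c' ∈ Gam).1
  have hB2 : ∀ c' ∈ Γ₂, CurveIn B0 c' := fun c' hc' => (hG ▸ Or.inr hc' : c' ∈ Gam).1
  have hu : img h (img (simi p r) Gam) =
      img h (img (simi p r) Γ₁) ∪ img h (img (simi p r) Γ₂) := by
    rw [hG]
    unfold img
    rw [Set.image_union, Set.image_union]
  have hM1 : modulus (img h (img (simi p r) Γ₁)) ≤
      k * (72 * ENNReal.ofReal (Real.pi / c) ^ 3) := by
    have h1 : modulus (img h (img (simi p r) Γ₁)) ≤ k * modulus (img (simi p r) Γ₁) := by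
      refine le_of_KI_lt hkI ?_
      rintro c' ⟨c'', hc'', rfl⟩
      rw [hs]
      exact FI3_curveIn hr hD (hB1 _ hc'')
    have h2 : modulus (img (simi p r) Γ₁) ≤ modulus Γ₁ :=
      modulus_img_simi_le hr fun c' hc' => ⟨(hB1 _ hc').1, (hB1 _ hc').2.1⟩
    refine h1.trans ?_
    gcongr
    exact h2.trans hΓ₁
  have hcur : ∀ c' ∈ img h (img (simi p r) Γ₂), CurveIn g.source c' := by
    rintro c' ⟨c'', ⟨c3, hc3, rfl⟩, rfl⟩
    have h1 := FI3_curveIn hr hD (hB2 _ hc3)
    refine ⟨h1.1, ?_, ?_⟩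
    · have hcont : ContinuousOn h D := hs ▸ h.continuousOn
      exact hcont.comp h1.2.1 h1.2.2
    · intro t ht'
      rw [← ht]
      refine h.map_source ?_
      rw [hs]
      exact h1.2.2 ht'
  have hM2 : modulus (img h (img (simi p r) Γ₂)) ≤
      k * (72 * ENNReal.ofReal (Real.pi / c) ^ 3) := by
    have h1 : modulus (img h (img (simi p r) Γ₂)) ≤
        k * modulus (img g (img h (img (simi p r) Γ₂))) := le_of_KO_lt hkO hcur
    have h2 : modulus (img g (img h (img (simi p r) Γ₂))) ≤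
        modulus (img (simi p r) (img (twist c) Γ₂)) := by
      refine modulus_le_of_cover ?_
      rintro c' ⟨c2, hc2, rfl⟩
      have hc2' := hcur c2 hc2
      refine ⟨hc2'.1, g.continuousOn.comp hc2'.2.1 hc2'.2.2, ?_⟩
      obtain ⟨c3, ⟨c4, hc4, rfl⟩, rfl⟩ := hc2
      refine ⟨(c4.1, simi p r ∘ (twist c ∘ c4.2)), ⟨_, ⟨c4, hc4, rfl⟩, rfl⟩, rfl, ?_⟩
      intro t ht'
      have h3 : simi p r (c4.2 t) ∈ D := hD ⟨_, (hB2 _ hc4).2.2 ht', rfl⟩
      change g (h (simi p r (c4.2 t))) = simi p r (twist c (c4.2 t))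
      rw [hfg _ h3, tw_simi hr]
    have h3 : modulus (img (simi p r) (img (twist c) Γ₂)) ≤ modulus (img (twist c) Γ₂) := by
      refine modulus_img_simi_le hr ?_
      rintro c' ⟨c4, hc4, rfl⟩
      exact ⟨(hB2 _ hc4).1, (twist_lipschitz c).continuous.comp_continuousOn (hB2 _ hc4).2.1⟩
    refine h1.trans ?_
    gcongr
    exact h2.trans (h3.trans hΓ₂)
  have h4 : ENNReal.ofReal (1 / 10 ^ 9) ≤ k * ENNReal.ofReal (144 * (Real.pi / c) ^ 3) := by
    refine h0.trans ?_
    rw [hu]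
    refine (modulus_union_le _ _).trans ((add_le_add hM1 hM2).trans (le_of_eq ?_))
    rw [← mul_add, ENNReal.ofReal_mul (by norm_num), ENNReal.ofReal_pow (by positivity)]
    congr 1
    rw [← add_mul]
    congr 1
    norm_num
  refine FI3_num (n := 144 * (Real.pi / c) ^ 3) (by positivity) (a := 1 / 10 ^ 9) h4 ?_
  have hpi : Real.pi ^ 3 ≤ 3.15 ^ 3 := by
    have := Real.pi_lt_d2
    have := Real.pi_pos
    gcongr
  have h5 : c ^ 3 / (5 * 10 ^ 12) * (144 * (Real.pi / c) ^ 3) = 144 * Real.pi ^ 3 / (5 * 10 ^ 12) := by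
    field_simp
  rw [h5]
  rw [div_le_div_iff₀ (by norm_num) (by norm_num)]
  nlinarith

end Pool.QC3
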