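import Pool.Agent.Lib.MP_6b3014_an.FI3

/-!
# MP_6b3014_an, row FI4
-/

open Set MeasureTheory Metric
open scoped ENNReal NNReal Topology

namespace Pool.QC3

/-- the similarity as a homeomorphism of the whole space -/
noncomputable def FI4_S (p : E) {r : ℝ} (hr : 0 < r) : E ≃ₜ E where
  toFun := simi p r
  invFun := simiInv p r
  left_inv := simiInv_simi hr
  right_inv := simi_simiInv hr
  continuous_toFun := (simi_lipschitz hr).continuous
  continuous_invFun := (simiInv_lipschitz hr).continuous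

theorem FI4_Gam_curve {c : Curve} (hc : c ∈ Gam) : c.1.OrdConnected ∧ ContinuousOn c.2 c.1 :=
  ⟨hc.1.1, hc.1.2.1⟩

theorem FI4_img_curveIn {D : Set E} {p : E} {r : ℝ} (hr : 0 < r) (hD : simi p r '' B0 ⊆ D)
    {c : Curve} (hc : c ∈ img (simi p r) Gam) : CurveIn D c := by
  obtain ⟨c', hc', rfl⟩ := hc
  refine ⟨hc'.1.1, ?_, ?_⟩
  · exact (simi_lipschitz hr).continuous.comp_continuousOn hc'.1.2.1
  · intro t ht
    exact hD ⟨c'.2 t, hc'.1.2.2 ht, rfl⟩

/-- Every homeomorphism has maximal dilatation at least one.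
PROOF: with `S` the similarity and `Γ = img S Gam` (curves in `D`): for `k > maxDil f`,
`modulus Γ ≤ k * modulus (img f Γ) ≤ k * (k * modulus Γ)`. Here `modulus Γ ≤ modulus Gam ≤ 72` is
finite, and it is not zero: `modulus Γ ≥ 10⁻⁹` by `universal_bound` for the partial homeomorphism
`S`. So `k ^ 2 ≥ 1`. -/
theorem one_le_maxDil {D : Set E} {p : E} {r : ℝ} (hr : 0 < r) (hD : simi p r '' B0 ⊆ D)
    {f : OpenPartialHomeomorph E E} (hs : f.source = D) : 1 ≤ maxDil f := by
  set Γ : Set Curve := img (simi p r) Gam with hΓ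
  have hfin : modulus Γ ≠ ⊤ := by
    refine ne_top_of_le_ne_top (by norm_num : (72 : ℝ≥0∞) ≠ ⊤) ?_
    exact (modulus_img_simi_le hr (fun c hc => FI4_Gam_curve hc)).trans modulus_Gam_le
  have hpos : modulus Γ ≠ 0 := by
    have h := universal_bound (h := (FI4_S p hr).toOpenPartialHomeomorph) (by
      intro x _
      exact mem_univ x)
    have h2 : img ((FI4_S p hr).toOpenPartialHomeomorph) Gam = Γ := rfl
    rw [h2] at h
    intro h0
    rw [h0] at h
    have : (0 : ℝ≥0∞) < ENNReal.ofReal (1 / 10 ^ 9) := by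
      rw [ENNReal.ofReal_pos]
      positivity
    exact absurd h (not_le.2 this)
  have hcurve : ∀ c ∈ Γ, CurveIn f.source c := by
    intro c hc
    rw [hs]
    exact FI4_img_curveIn hr hD hc
  refine le_of_forall_gt fun k hk => ?_
  have hO : KO f < k := lt_of_le_of_lt (le_max_left _ _) hk
  have hI : KI f < k := lt_of_le_of_lt (le_max_right _ _) hk
  have h1 := le_of_KO_lt hO hcurve
  have h2 := le_of_KI_lt hI hcurve
  by_contra hlt
  rw [not_lt] at hlt
  -- choose a smaller parameter between the maximum and `k`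
  obtain ⟨k', hk'1, hk'2⟩ := exists_between hk
  have hO' : KO f < k' := lt_of_le_of_lt (le_max_left _ _) hk'1
  have hI' : KI f < k' := lt_of_le_of_lt (le_max_right _ _) hk'1
  have h1' := le_of_KO_lt hO' hcurve
  have h2' := le_of_KI_lt hI' hcurve
  have hk'lt : k' < 1 := lt_of_lt_of_le hk'2 hlt
  have h3 : modulus Γ ≤ k' * (k' * modulus Γ) := h1'.trans (mul_le_mul_right h2' k')
  have h4 : k' * (k' * modulus Γ) ≤ k' * modulus Γ := by
    calc k' * (k' * modulus Γ) ≤ 1 * (k' * modulus Γ) := mul_le_mul_left hk'lt.le _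
      _ = k' * modulus Γ := one_mul _
  have h5 : k' * modulus Γ < 1 * modulus Γ :=
    (ENNReal.mul_lt_mul_iff_left hpos hfin).2 hk'lt
  rw [one_mul] at h5
  exact absurd (h3.trans h4) (not_le.2 h5)

end Pool.QC3
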