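import Pool.Agent.Lib.MP_6b3014_an.FI4

/-!
# MP_6b3014_an, row FI5
-/

open Set MeasureTheory Metric
open scoped ENNReal NNReal Topology

namespace Pool.QC3

/-- PROOF: `KO_comp_le` and `KI_comp_le` with `h = twD d`, `g = twD c` (`tw_add`), the dilatations
being finite by `maxDil_twD_le`. -/
theorem maxDil_twD_add {D : Set E} (hDo : IsOpen D) {p : E} {r : ℝ} (hr : 0 < r)
    (hD : simi p r '' B0 ⊆ D) (c d : ℝ) :
    maxDil (twD hDo hr hD (c + d)) ≤
      maxDil (twD hDo hr hD c) * ENNReal.ofReal ((1 + 3 * |d|) ^ 3) := by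
  have hfin : ∀ c : ℝ, maxDil (twD hDo hr hD c) ≠ ⊤ := fun c =>
    ne_top_of_le_ne_top ENNReal.ofReal_ne_top (maxDil_twD_le hDo hr hD c)
  have hOfin : ∀ c : ℝ, KO (twD hDo hr hD c) ≠ ⊤ := fun c =>
    ne_top_of_le_ne_top (hfin c) (le_max_left _ _)
  have hIfin : ∀ c : ℝ, KI (twD hDo hr hD c) ≠ ⊤ := fun c =>
    ne_top_of_le_ne_top (hfin c) (le_max_right _ _)
  have hcomp : ∀ x ∈ (twD hDo hr hD (c + d)).source,
      (twD hDo hr hD c) ((twD hDo hr hD d) x) = (twD hDo hr hD (c + d)) x :=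
    fun x _ => tw_add hr c d x
  have hO := KO_comp_le (f := twD hDo hr hD (c + d)) (h := twD hDo hr hD d)
    (g := twD hDo hr hD c) rfl rfl hcomp (hOfin d) (hOfin c)
  have hI := KI_comp_le (f := twD hDo hr hD (c + d)) (h := twD hDo hr hD d)
    (g := twD hDo hr hD c) rfl rfl hcomp (hIfin d) (hIfin c)
  have hd := maxDil_twD_le hDo hr hD d
  refine max_le (hO.trans ?_) (hI.trans ?_)
  · rw [mul_comm]
    exact mul_le_mul' (le_max_left _ _) ((le_max_left _ _).trans hd)
  · rw [mul_comm]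
    exact mul_le_mul' (le_max_right _ _) ((le_max_right _ _).trans hd)

theorem FI5_cont {k : ℝ → ℝ}
    (hk : ∀ c d, k (c + d) ≤ k c * (1 + 3 * |d|) ^ 3) : Continuous k := by
  rw [continuous_iff_continuousAt]
  intro c
  -- upper bound `k x ≤ k c * (1 + 3 |x - c|)^3`, lower bound `k c / (1 + 3 |x - c|)^3 ≤ k x`
  have hup : ∀ x, k x ≤ k c * (1 + 3 * |x - c|) ^ 3 := by
    intro x
    have := hk c (x - c)
    rwa [add_sub_cancel] at this
  have hlo : ∀ x, k c / (1 + 3 * |x - c|) ^ 3 ≤ k x := by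
    intro x
    have := hk x (c - x)
    rw [add_sub_cancel] at this
    rw [div_le_iff₀ (by positivity), ← abs_sub_comm]
    rwa [abs_sub_comm c x, abs_sub_comm x c] at this
  have hc1 : Filter.Tendsto (fun x => k c * (1 + 3 * |x - c|) ^ 3) (𝓝 c) (𝓝 (k c)) := by
    have : Continuous (fun x : ℝ => k c * (1 + 3 * |x - c|) ^ 3) := by fun_prop
    have h2 := this.tendsto c
    simpa using h2
  have hc2 : Filter.Tendsto (fun x => k c / (1 + 3 * |x - c|) ^ 3) (𝓝 c) (𝓝 (k c)) := by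
    have : Continuous (fun x : ℝ => k c / (1 + 3 * |x - c|) ^ 3) := by
      refine Continuous.div (by fun_prop) (by fun_prop) fun x => ?_
      positivity
    have h2 := this.tendsto c
    simpa using h2
  exact tendsto_of_tendsto_of_tendsto_of_le_of_le hc2 hc1 hlo hup

/-- PROOF: let `k c = (maxDil (twD c)).toReal`, finite by `maxDil_twD_le`. By `maxDil_twD_add`,
`k (c + d) ≤ k c (1 + 3 |d|)³` and `k c ≤ k (c + d) (1 + 3 |d|)³`, so `k` is continuous. `k 0 = 1`
(`maxDil_twD_le`, `one_le_maxDil`). For `c > 0`, `twist_bound` with `h` the identity of `D`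
(`twD 0`) and `g = twD c` gives `c³ / (5 * 10¹²) ≤ max 1 (k c) = k c`; so `k c ≥ K` for large `c`,
and the intermediate value theorem gives `c ≥ 0` with `k c = K`. -/
theorem exists_twist {D : Set E} (hDo : IsOpen D) {p : E} {r : ℝ} (hr : 0 < r)
    (hD : simi p r '' B0 ⊆ D) {K : ℝ} (hK : 1 ≤ K) :
    ∃ c : ℝ, 0 ≤ c ∧ maxDil (twD hDo hr hD c) = ENNReal.ofReal K := by
  have hfin : ∀ c : ℝ, maxDil (twD hDo hr hD c) ≠ ⊤ := fun c =>
    ne_top_of_le_ne_top ENNReal.ofReal_ne_top (maxDil_twD_le hDo hr hD c)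
  set k : ℝ → ℝ := fun c => (maxDil (twD hDo hr hD c)).toReal with hkdef
  have hkadd : ∀ c d, k (c + d) ≤ k c * (1 + 3 * |d|) ^ 3 := by
    intro c d
    have h := maxDil_twD_add hDo hr hD c d
    have h2 : (maxDil (twD hDo hr hD (c + d))).toReal ≤
        (maxDil (twD hDo hr hD c) * ENNReal.ofReal ((1 + 3 * |d|) ^ 3)).toReal :=
      ENNReal.toReal_mono (ENNReal.mul_ne_top (hfin c) ENNReal.ofReal_ne_top) h
    rwa [ENNReal.toReal_mul, ENNReal.toReal_ofReal (by positivity)] at h2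
  have hcont : Continuous k := FI5_cont hkadd
  have hone : ∀ c, 1 ≤ k c := by
    intro c
    have h := one_le_maxDil hr hD (f := twD hDo hr hD c) rfl
    have h2 := ENNReal.toReal_mono (hfin c) h
    simpa using h2
  have hk00 : k 0 = 1 := by
    refine le_antisymm ?_ (hone 0)
    have h := maxDil_twD_le hDo hr hD 0
    have h2 := ENNReal.toReal_mono ENNReal.ofReal_ne_top h
    rw [ENNReal.toReal_ofReal (by positivity)] at h2
    simpa using h2
  have hlow : ∀ c, 0 < c → c ^ 3 / (5 * 10 ^ 12) ≤ k c := by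
    intro c hc
    have h := twist_bound hr hD (h := twD hDo hr hD 0) (g := twD hDo hr hD c) rfl rfl hc
      (fun x _ => by
        change tw p r c (tw p r 0 x) = tw p r c x
        rw [tw_zero hr])
    have h1 : KI (twD hDo hr hD 0) ≤ maxDil (twD hDo hr hD c) := by
      refine le_trans (le_max_right (KO (twD hDo hr hD 0)) _) ?_
      change maxDil (twD hDo hr hD 0) ≤ _
      rw [← ENNReal.toReal_le_toReal (hfin 0) (hfin c)]
      change k 0 ≤ k c
      rw [hk00]
      exact hone c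
    have h2 : ENNReal.ofReal (c ^ 3 / (5 * 10 ^ 12)) ≤ maxDil (twD hDo hr hD c) :=
      h.trans (max_le h1 (le_max_left _ _))
    have h3 := ENNReal.toReal_mono (hfin c) h2
    rwa [ENNReal.toReal_ofReal (by positivity)] at h3
  -- a large parameter
  set C : ℝ := 5 * 10 ^ 12 * K with hC
  have hC1 : 1 ≤ C := by
    rw [hC]
    nlinarith
  have hkC : K ≤ k C := by
    refine le_trans ?_ (hlow C (by linarith))
    rw [le_div_iff₀ (by positivity)]
    have h3 : C ≤ C ^ 3 := by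
      have : 1 ≤ C ^ 2 := one_le_pow₀ hC1
      nlinarith
    linarith [h3, hC]
  have hmem : K ∈ Icc (k 0) (k C) := ⟨by rw [hk00]; exact hK, hkC⟩
  obtain ⟨c, hc, hkc⟩ := intermediate_value_Icc (by linarith : (0 : ℝ) ≤ C) hcont.continuousOn hmem
  refine ⟨c, hc.1, ?_⟩
  rw [← hkc]
  exact (ENNReal.ofReal_toReal (hfin c)).symm

end Pool.QC3
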