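import Pool.Agent.Lib.MP_6b3014_an.FI5

/-!
# MP_6b3014_an, row FI6 (helper67)
-/

open Set MeasureTheory Metric
open scoped ENNReal NNReal Topology

namespace Pool.QC3

/-- PROOF: `D` contains a ball; choose `p` in it and `r` small. -/
theorem exists_simi {D : Set E} (hDo : IsOpen D) (hne : D.Nonempty) :
    ∃ p : E, ∃ r : ℝ, 0 < r ∧ simi p r '' B0 ⊆ D := by
  obtain ⟨p, hp⟩ := hne
  obtain ⟨ε, hε, hball⟩ := Metric.isOpen_iff.mp hDo p hp
  refine ⟨p, ε / 4, by positivity, ?_⟩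
  rintro _ ⟨x, hx, rfl⟩
  apply hball
  have hx' : ‖x‖ < 4 := by simpa [B0] using hx
  rw [mem_ball, dist_eq_norm]
  have h1 : simi p (ε / 4) x - p = (ε / 4) • x := by
    simp [simi]
  rw [h1, norm_smul, Real.norm_of_nonneg (by positivity)]
  nlinarith

theorem FI6_aux_small {K : ℝ} (_hK : 1 ≤ K) (hK2 : K < 64) :
    K / 10 ^ 15 ≤ 1 / (72 * 10 ^ 9) := by
  rw [div_le_div_iff₀ (by positivity) (by positivity)]
  norm_num
  nlinarith

theorem FI6_aux_large {K c : ℝ} (hK : 64 ≤ K) (hc : 0 ≤ c) (h : K ≤ (1 + 3 * c) ^ 3) :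
    0 < c ∧ K / 10 ^ 15 ≤ c ^ 3 / (5 * 10 ^ 12) := by
  have h1 : 1 ≤ c := by
    by_contra hlt
    push Not at hlt
    have : (1 + 3 * c) ^ 3 < 4 ^ 3 := by
      apply pow_lt_pow_left₀ (by linarith) (by linarith) (by norm_num)
    norm_num at this
    linarith
  have h2 : (1 + 3 * c) ^ 3 ≤ (4 * c) ^ 3 := by
    apply pow_le_pow_left₀ (by linarith) (by linarith)
  have h3 : K ≤ 64 * c ^ 3 := by
    calc K ≤ (4 * c) ^ 3 := h.trans h2
      _ = 64 * c ^ 3 := by ring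
  refine ⟨by linarith, ?_⟩
  rw [div_le_div_iff₀ (by positivity) (by positivity)]
  have h4 : 0 ≤ c ^ 3 := by positivity
  nlinarith

/-- MAIN THEOREM. -/
theorem main (D : Set E) (hDo : IsOpen D) (hne : D.Nonempty) (K : ℝ) (hK : 1 ≤ K) :
    ∃ f : OpenPartialHomeomorph E E, f.source = D ∧ f.target = D ∧
      (∃ Z : Set E, IsCompact Z ∧ Z ⊆ D ∧ ∀ x ∈ D, x ∉ Z → f x = x) ∧
      maxDil f = ENNReal.ofReal K ∧
      ∀ h g : OpenPartialHomeomorph E E, h.source = D → h.target = g.source →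
        (∀ x ∈ D, g (h x) = f x) →
        ENNReal.ofReal (K / 10 ^ 15) ≤ max (KI h) (KO g) := by
  obtain ⟨p, r, hr, hD⟩ := exists_simi hDo hne
  obtain ⟨c, hc, hmax⟩ := exists_twist hDo hr hD hK
  refine ⟨twD hDo hr hD c, rfl, rfl, ⟨simi p r '' W, ?_, ?_, ?_⟩, hmax, ?_⟩
  · exact isCompact_W.image (simi_lipschitz hr).continuous
  · exact (image_mono W_subset_B0).trans hD
  · intro x _ hx
    exact tw_of_not_mem hr c hx
  · intro h g hs ht hfg
    by_cases hK2 : K < 64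
    · calc ENNReal.ofReal (K / 10 ^ 15) ≤ ENNReal.ofReal (1 / (72 * 10 ^ 9)) :=
            ENNReal.ofReal_le_ofReal (FI6_aux_small hK hK2)
        _ ≤ KI h := small_bound hr hD hs
        _ ≤ _ := le_max_left _ _
    · push Not at hK2
      have h1 : K ≤ (1 + 3 * c) ^ 3 := by
        have h2 := maxDil_twD_le hDo hr hD c
        rw [hmax, abs_of_nonneg hc] at h2
        exact (ENNReal.ofReal_le_ofReal_iff (by positivity)).mp h2
      obtain ⟨hc0, hb⟩ := FI6_aux_large hK2 hc h1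
      calc ENNReal.ofReal (K / 10 ^ 15) ≤ ENNReal.ofReal (c ^ 3 / (5 * 10 ^ 12)) :=
            ENNReal.ofReal_le_ofReal hb
        _ ≤ _ := twist_bound hr hD hs ht hc0 hfg

end Pool.QC3
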