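import Pool.Agent.Lib.MP_6b3014_an.Base

/-!
# MP_6b3014_an, row LI1

Statements must stay exactly as they are. You may use everything that comes EARLIER in the files
Defs, Base, SkelA, SkelB, SkelC, SkelD, SkelE (there it is sorried), nothing that comes later.
-/

open Set MeasureTheory Metric
open scoped ENNReal NNReal Topology

namespace Pool.QC3

/-- PROOF: `variationOnFromTo.tendsto_left` and `variationOnFromTo.tendsto_right` (with `l = γ t`,
because `γ` is continuous on `Icc a b`) show that the limits from the left and from the right of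
the variation function inside `Icc a b` are its value (`dist (γ t) (γ t) = 0`); combine the two
one-sided limits (`nhdsWithin` of the union `s ∩ Iio t`, `{t}`, `s ∩ Ioi t`). -/
theorem vf_continuousOn {γ : ℝ → E} {a b : ℝ} (hγ : ContinuousOn γ (Icc a b))
    (hb : BoundedVariationOn γ (Icc a b)) :
    ContinuousOn (variationOnFromTo γ (Icc a b) a) (Icc a b) := by
  intro t ht
  have ha : a ∈ Icc a b := ⟨le_refl a, ht.1.trans ht.2⟩
  have hl := hb.locallyBoundedVariationOn
  have h1 : ContinuousWithinAt (variationOnFromTo γ (Icc a b) a) (Icc a b ∩ Iio t) t := by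
    have h := variationOnFromTo.tendsto_left ha ht hl ((hγ t ht).mono_left (nhdsWithin_mono t inter_subset_left))
    rwa [dist_self, sub_zero] at h
  have h2 : ContinuousWithinAt (variationOnFromTo γ (Icc a b) a) (Icc a b ∩ Ioi t) t := by
    have h := variationOnFromTo.tendsto_right ha ht hl ((hγ t ht).mono_left (nhdsWithin_mono t inter_subset_left))
    rwa [dist_self, add_zero] at h
  have h3 := (h1.union (continuousWithinAt_singleton (f := variationOnFromTo γ (Icc a b) a) (x := t))).union h2
  apply h3.mono
  intro x hx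
  rcases lt_trichotomy x t with h | h | h
  · exact Or.inl (Or.inl ⟨hx, h⟩)
  · exact Or.inl (Or.inr h)
  · exact Or.inr ⟨hx, h⟩

/-- PROOF: `variationOnFromTo.add` (with `hb.locallyBoundedVariationOn`) and
`variationOnFromTo.eq_of_le`; `Icc a b ∩ Icc s t = Icc s t`. -/
theorem vf_sub {γ : ℝ → E} {a b s t : ℝ} (hb : BoundedVariationOn γ (Icc a b))
    (has : a ≤ s) (hst : s ≤ t) (htb : t ≤ b) :
    variationOnFromTo γ (Icc a b) a t - variationOnFromTo γ (Icc a b) a s =
      (eVariationOn γ (Icc s t)).toReal := by
  have ha : a ∈ Icc a b := ⟨le_refl a, has.trans (hst.trans htb)⟩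
  have hs : s ∈ Icc a b := ⟨has, hst.trans htb⟩
  have ht : t ∈ Icc a b := ⟨has.trans hst, htb⟩
  rw [variationOnFromTo.sub_right hb.locallyBoundedVariationOn ha ht hs, variationOnFromTo.eq_of_le _ _ hst,
    inter_eq_right.mpr (Icc_subset_Icc has htb)]

/-- PROOF: the variation function is continuous and monotone on `Icc a b`, with value `0` at `a`
and `(eVariationOn γ (Icc a b)).toReal` at `b`; intermediate value theorem
(`intermediate_value_Icc`). -/
theorem vf_image {γ : ℝ → E} {a b : ℝ} (hab : a ≤ b) (hγ : ContinuousOn γ (Icc a b))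
    (hb : BoundedVariationOn γ (Icc a b)) :
    variationOnFromTo γ (Icc a b) a '' Icc a b =
      Icc 0 (eVariationOn γ (Icc a b)).toReal := by
  have ha : a ∈ Icc a b := ⟨le_refl a, hab⟩
  have hbb : b ∈ Icc a b := ⟨hab, le_refl b⟩
  have hVa : variationOnFromTo γ (Icc a b) a a = 0 := variationOnFromTo.self γ (Icc a b) a
  have hVb : variationOnFromTo γ (Icc a b) a b = (eVariationOn γ (Icc a b)).toReal := by
    rw [variationOnFromTo.eq_of_le _ _ hab, inter_self]
  apply Subset.antisymm
  · rintro _ ⟨t, ht, rfl⟩
    refine ⟨variationOnFromTo.nonneg_of_le _ _ ht.1, ?_⟩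
    rw [← hVb]
    exact variationOnFromTo.monotoneOn hb.locallyBoundedVariationOn ha ht hbb ht.2
  · have h := intermediate_value_Icc hab (vf_continuousOn hγ hb)
    rwa [hVa, hVb] at h

/-- PROOF: `edist_naturalParameterization_eq_zero` and `edist_eq_zero`. -/
theorem nat_apply {γ : ℝ → E} {a b t : ℝ} (hb : BoundedVariationOn γ (Icc a b))
    (ht : t ∈ Icc a b) :
    naturalParameterization γ (Icc a b) a (variationOnFromTo γ (Icc a b) a t) = γ t := by
  have ha : a ∈ Icc a b := ⟨le_refl a, ht.1.trans ht.2⟩
  exact edist_eq_zero.mp (edist_naturalParameterization_eq_zero hb.locallyBoundedVariationOn ha ht)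

/-- PROOF: `has_unit_speed_naturalParameterization` and `vf_image`; for `u ≤ v` in `Icc 0 l`,
`edist (nat u) (nat v) ≤ eVariationOn nat (Icc 0 l ∩ Icc u v) = ENNReal.ofReal (v - u)`
(`eVariationOn.edist_le`). -/
theorem nat_lipschitz {γ : ℝ → E} {a b : ℝ} (hab : a ≤ b) (hγ : ContinuousOn γ (Icc a b))
    (hb : BoundedVariationOn γ (Icc a b)) :
    LipschitzOnWith 1 (naturalParameterization γ (Icc a b) a)
      (Icc 0 (eVariationOn γ (Icc a b)).toReal) := by
  have ha : a ∈ Icc a b := ⟨le_refl a, hab⟩
  have h := has_unit_speed_naturalParameterization γ hb.locallyBoundedVariationOn ha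
  rw [vf_image hab hγ hb] at h
  have key : ∀ x ∈ Icc 0 (eVariationOn γ (Icc a b)).toReal, ∀ y ∈ Icc 0 (eVariationOn γ (Icc a b)).toReal,
      x ≤ y → edist (naturalParameterization γ (Icc a b) a x) (naturalParameterization γ (Icc a b) a y) ≤
        edist x y := by
    intro x hx y hy hxy
    have h1 := h hx hy
    have h2 := eVariationOn.edist_le (naturalParameterization γ (Icc a b) a)
      (s := Icc 0 (eVariationOn γ (Icc a b)).toReal ∩ Icc x y) (x := x) (y := y)
      ⟨hx, le_refl x, hxy⟩ ⟨hy, hxy, le_refl y⟩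
    rw [h1] at h2
    refine h2.trans (le_of_eq ?_)
    rw [edist_dist, Real.dist_eq, abs_sub_comm, abs_of_nonneg (by linarith)]
    simp
  intro x hx y hy
  rw [ENNReal.coe_one, one_mul]
  rcases le_total x y with hxy | hxy
  · exact key x hx y hy hxy
  · rw [edist_comm, edist_comm x y]
    exact key y hy x hx hxy

end Pool.QC3
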