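import Pool.Agent.Lib.MP_6b3014_an.LI1

/-!
# MP_6b3014_an, row LI2

Statements must stay exactly as they are. You may use everything that comes EARLIER in the files
Defs, Base, SkelA, SkelB, SkelC, SkelD, SkelE (there it is sorried), nothing that comes later.
-/

open Set MeasureTheory Metric
open scoped ENNReal NNReal Topology

namespace Pool.QC3

/-- PROOF: let `V` be the variation function. For `v ∈ Icc (V s) (V t)` there is `r ∈ Icc s t` with
`V r = v` (`vf_continuousOn`, intermediate value), hence `nat v = γ r` (`nat_apply`) and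
`m ≤ ρ (nat v)`. As `Icc (V s) (V t) ⊆ Icc 0 l` (`variationOnFromTo.monotoneOn`, `vf_image`), the
integral is at least `m * volume (Icc (V s) (V t)) = m * ENNReal.ofReal (V t - V s)`, which is
`m * eVariationOn γ (Icc s t)` by `vf_sub` (the variation is finite). -/
theorem arcInt_ge {ρ : E → ℝ≥0∞} {γ : ℝ → E} {a b s t : ℝ} (has : a ≤ s) (hst : s ≤ t)
    (htb : t ≤ b) (hγ : ContinuousOn γ (Icc a b)) (hb : BoundedVariationOn γ (Icc a b))
    (m : ℝ≥0∞) (hm : ∀ r ∈ Icc s t, m ≤ ρ (γ r)) :
    m * eVariationOn γ (Icc s t) ≤ arcInt ρ γ a b := by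
  have hab : a ≤ b := has.trans (hst.trans htb)
  have hsub : Icc s t ⊆ Icc a b := Icc_subset_Icc has htb
  have hVc := vf_continuousOn hγ hb
  have hVsub := vf_sub hb has hst htb
  have him := vf_image hab hγ hb
  have hfin : eVariationOn γ (Icc s t) ≠ ⊤ := ne_top_of_le_ne_top hb (eVariationOn.mono γ hsub)
  obtain ⟨V, hV⟩ : ∃ V, V = variationOnFromTo γ (Icc a b) a := ⟨_, rfl⟩
  rw [← hV] at hVc hVsub him
  have hs' : V s ∈ Icc 0 (eVariationOn γ (Icc a b)).toReal := by
    rw [← him]
    exact mem_image_of_mem V (hsub (left_mem_Icc.2 hst))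
  have ht' : V t ∈ Icc 0 (eVariationOn γ (Icc a b)).toReal := by
    rw [← him]
    exact mem_image_of_mem V (hsub (right_mem_Icc.2 hst))
  unfold arcInt
  calc m * eVariationOn γ (Icc s t)
      = ∫⁻ _ in Icc (V s) (V t), m := by
        rw [setLIntegral_const, Real.volume_Icc, hVsub, ENNReal.ofReal_toReal hfin]
    _ ≤ ∫⁻ v in Icc (V s) (V t), ρ (naturalParameterization γ (Icc a b) a v) := by
        refine setLIntegral_mono' measurableSet_Icc fun v hv => ?_
        obtain ⟨r, hr, rfl⟩ := intermediate_value_Icc hst (hVc.mono hsub) hv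
        rw [hV, nat_apply hb (hsub hr)]
        exact hm r hr
    _ ≤ ∫⁻ v in Icc 0 (eVariationOn γ (Icc a b)).toReal,
          ρ (naturalParameterization γ (Icc a b) a v) :=
        lintegral_mono_set (Icc_subset_Icc hs'.1 ht'.2)

/-- PROOF: the two variation functions coincide (`eVariationOn.congr`, as
`Icc a b ∩ Icc a t ⊆ Icc a b`), so both natural parametrisations use the same
`Function.invFunOn (variationOnFromTo γ (Icc a b) a) (Icc a b)`; for `s ∈ Icc 0 l` this point is in
`Icc a b` (if `a ≤ b`, by `vf_image`; here one can argue without continuity: if the value `s` is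
attained the chosen point is in `Icc a b` and the two curves agree there; if it is not attained
`invFunOn` returns the same arbitrary point `Classical.choice ⟨a⟩` for both, and this point may be
outside `Icc a b`, so continuity is assumed here to have `vf_image`). For `b < a` the interval is
empty, the length is `0` and `Icc 0 0` has measure zero. -/
theorem arcInt_congr {ρ : E → ℝ≥0∞} {γ γ' : ℝ → E} {a b : ℝ} (hγ : ContinuousOn γ (Icc a b))
    (hb : BoundedVariationOn γ (Icc a b)) (h : EqOn γ γ' (Icc a b)) :
    arcInt ρ γ a b = arcInt ρ γ' a b := by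
  have hlen : eVariationOn γ (Icc a b) = eVariationOn γ' (Icc a b) := eVariationOn.congr h
  unfold arcInt
  rw [← hlen]
  rcases le_or_gt a b with hab | hab
  · have hV : variationOnFromTo γ' (Icc a b) a = variationOnFromTo γ (Icc a b) a := by
      funext t
      unfold variationOnFromTo
      rw [eVariationOn.congr (h.mono (inter_subset_left (t := Icc a t))),
        eVariationOn.congr (h.mono (inter_subset_left (t := Icc t a)))]
    have him := vf_image hab hγ hb
    refine setLIntegral_congr_fun measurableSet_Icc fun v hv => ?_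
    unfold naturalParameterization
    rw [hV]
    have hv' : v ∈ variationOnFromTo γ (Icc a b) a '' Icc a b := by
      rw [him]
      exact hv
    have : Nonempty ℝ := ⟨a⟩
    have hmem : Function.invFunOn (variationOnFromTo γ (Icc a b) a) (Icc a b) v ∈ Icc a b :=
      Function.invFunOn_mem hv'
    have h1 := h hmem
    simp only [Function.comp_apply]
    rw [h1]
  · have h0 : eVariationOn γ (Icc a b) = 0 := by
      rw [Icc_eq_empty (not_le.2 hab)]
      exact eVariationOn.subsingleton γ subsingleton_empty
    rw [h0, ENNReal.toReal_zero, Icc_self]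
    rw [setLIntegral_measure_zero _ _ (by simp), setLIntegral_measure_zero _ _ (by simp)]

end Pool.QC3
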