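import Pool.Agent.Lib.MP_6b3014_an.Base

/-!
# MP_6b3014_an, row LI3

Statements must stay exactly as they are. You may use everything that comes EARLIER in the files
Defs, Base, SkelA, SkelB, SkelC, SkelD, SkelE (there it is sorried), nothing that comes later.
-/

open Set MeasureTheory Metric
open scoped ENNReal NNReal Topology

namespace Pool.QC3

/-- PROOF: `σ` maps `Icc c d` onto `Icc 0 l` (intermediate value theorem). For a measurable set
`B` of reals, `volume (B ∩ Icc 0 l) ≤ volume (σ '' (σ ⁻¹' B ∩ Icc c d)) ≤ L * volume (σ ⁻¹' B ∩ Icc c d)`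
(Lipschitz maps increase the one-dimensional measure at most by the factor `L`:
`LipschitzOnWith.hausdorffMeasure_image_le` with `d = 1` and `MeasureTheory.hausdorffMeasure_real`).
So `volume.restrict (Icc 0 l) ≤ L • Measure.map σ (volume.restrict (Icc c d))` (`σ` is a.e.
measurable for `volume.restrict (Icc c d)` because it is continuous there). Replace `q` by `q'`
(equal on `Icc 0 l`, measurable everywhere) and use `lintegral_mono'`, `lintegral_map'`. -/
theorem lintegral_reparam {σ : ℝ → ℝ} {c d l : ℝ} {L : ℝ≥0} (hcd : c ≤ d)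
    (hσ : LipschitzOnWith L σ (Icc c d)) (h0 : σ c = 0) (hd : σ d = l)
    (hmaps : MapsTo σ (Icc c d) (Icc 0 l)) {q q' : ℝ → ℝ≥0∞} (hq : Measurable q')
    (hqq : EqOn q q' (Icc 0 l)) :
    ∫⁻ v in Icc 0 l, q v ≤ L * ∫⁻ u in Icc c d, q (σ u) := by
  have hσc : ContinuousOn σ (Icc c d) := hσ.continuousOn
  have hae : AEMeasurable σ (volume.restrict (Icc c d)) := hσc.aemeasurable measurableSet_Icc
  have hsurj : Icc 0 l ⊆ σ '' Icc c d := by
    have h := intermediate_value_Icc hcd hσc
    rwa [h0, hd] at h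
  have hle : (volume.restrict (Icc (0 : ℝ) l) : Measure ℝ) ≤
      (L : ℝ≥0∞) • Measure.map σ (volume.restrict (Icc c d)) := by
    refine Measure.le_iff.2 fun B hB => ?_
    rw [Measure.restrict_apply hB, Measure.smul_apply, Measure.map_apply_of_aemeasurable hae hB,
      Measure.restrict_apply' measurableSet_Icc, smul_eq_mul]
    have hsub : B ∩ Icc 0 l ⊆ σ '' (σ ⁻¹' B ∩ Icc c d) := by
      rintro v ⟨hv, hv'⟩
      obtain ⟨u, hu, rfl⟩ := hsurj hv'
      exact ⟨u, ⟨hv, hu⟩, rfl⟩
    have hl : LipschitzOnWith L σ (σ ⁻¹' B ∩ Icc c d) := hσ.mono inter_subset_right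
    have h1 := hl.hausdorffMeasure_image_le (zero_le_one : (0 : ℝ) ≤ 1)
    rw [hausdorffMeasure_real, ENNReal.rpow_one] at h1
    exact (measure_mono hsub).trans h1
  calc ∫⁻ v in Icc 0 l, q v = ∫⁻ v in Icc 0 l, q' v :=
        setLIntegral_congr_fun measurableSet_Icc fun v hv => hqq hv
    _ ≤ ∫⁻ v, q' v ∂((L : ℝ≥0∞) • Measure.map σ (volume.restrict (Icc c d))) :=
        lintegral_mono' hle le_rfl
    _ = L * ∫⁻ u in Icc c d, q' (σ u) := by
        rw [lintegral_smul_measure, lintegral_map' hq.aemeasurable hae, smul_eq_mul]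
    _ = L * ∫⁻ u in Icc c d, q (σ u) := by
        congr 1
        exact setLIntegral_congr_fun measurableSet_Icc fun u hu => (hqq (hmaps hu)).symm

end Pool.QC3
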