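import Pool.Agent.Lib.MP_6b3014_an.LI1
import Pool.Agent.Lib.MP_6b3014_an.LI3

/-!
# MP_6b3014_an, row LI4

Statements must stay exactly as they are. You may use everything that comes EARLIER in the files
Defs, Base, SkelA, SkelB, SkelC, SkelD, SkelE (there it is sorried), nothing that comes later.
-/

open Set MeasureTheory Metric
open scoped ENNReal NNReal Topology

namespace Pool.QC3

/-- PROOF: let `V` be the variation function of `α` on `Icc a b`, `l` its length. `θ` maps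
`Icc a b` onto `Icc (θ a) (θ b)` (intermediate value). Choose for each `u ∈ Icc (θ a) (θ b)` a point
`τ u ∈ Icc a b` with `θ (τ u) = u` and put `σ u = V (τ u)`. By `hL` and `vf_sub`,
`|V s - V t| ≤ L |θ s - θ t|` for `s, t ∈ Icc a b`, so `σ` is `L`-Lipschitz on `Icc (θ a) (θ b)`,
`σ (θ t) = V t` for `t ∈ Icc a b`, `σ (θ a) = 0`, `σ (θ b) = l`. Apply `lintegral_reparam` to
`q v = ρ (naturalParameterization α (Icc a b) a v)`; `q'` is `ρ` composed with the natural
parametrisation precomposed with the projection to `Icc 0 l` (continuous by `nat_lipschitz`: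
use `ContinuousOn.comp_continuous` or `IccExtend`). Finally for `u ∈ Icc (θ a) (θ b)`,
`q (σ u) = ρ (α (τ u)) = p (θ (τ u)) = p u` (`nat_apply`, `hp`). -/
theorem arcInt_le_of_param {ρ : E → ℝ≥0∞} (hρ : Measurable ρ) {α : ℝ → E} {a b : ℝ}
    (hab : a ≤ b) (hα : ContinuousOn α (Icc a b)) (hb : BoundedVariationOn α (Icc a b))
    {θ : ℝ → ℝ} (hθc : ContinuousOn θ (Icc a b)) (hθm : MonotoneOn θ (Icc a b)) {L : ℝ≥0}
    (hL : ∀ s ∈ Icc a b, ∀ t ∈ Icc a b, s ≤ t →
      eVariationOn α (Icc s t) ≤ L * ENNReal.ofReal (θ t - θ s))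
    {p : ℝ → ℝ≥0∞} (hp : ∀ t ∈ Icc a b, p (θ t) = ρ (α t)) :
    arcInt ρ α a b ≤ L * ∫⁻ u in Icc (θ a) (θ b), p u := by
  set V := variationOnFromTo α (Icc a b) a with hV
  set l := (eVariationOn α (Icc a b)).toReal with hl
  have haI : a ∈ Icc a b := ⟨le_rfl, hab⟩
  have hbI : b ∈ Icc a b := ⟨hab, le_rfl⟩
  have hθab : θ a ≤ θ b := hθm haI hbI hab
  have hsub : Icc (θ a) (θ b) ⊆ θ '' Icc a b := intermediate_value_Icc hab hθc
  have hex : ∀ u : ℝ, ∃ τ ∈ Icc a b, u ∈ Icc (θ a) (θ b) → θ τ = u := by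
    intro u
    by_cases hu : u ∈ Icc (θ a) (θ b)
    · obtain ⟨τ, hτ, hτu⟩ := hsub hu
      exact ⟨τ, hτ, fun _ => hτu⟩
    · exact ⟨a, haI, fun h => absurd h hu⟩
  choose τ hτI hτu using hex
  have hkey1 : ∀ s ∈ Icc a b, ∀ t ∈ Icc a b, s ≤ t → 0 ≤ V t - V s ∧ V t - V s ≤ L * (θ t - θ s) := by
    intro s hs t ht hst
    rw [hV, vf_sub hb hs.1 hst ht.2]
    refine ⟨ENNReal.toReal_nonneg, ?_⟩
    have hθst : 0 ≤ θ t - θ s := sub_nonneg.mpr (hθm hs ht hst)
    have h1 := hL s hs t ht hst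
    have h2 : (L : ℝ≥0∞) * ENNReal.ofReal (θ t - θ s) ≠ ⊤ :=
      ENNReal.mul_ne_top ENNReal.coe_ne_top ENNReal.ofReal_ne_top
    have h3 := ENNReal.toReal_mono h2 h1
    rwa [ENNReal.toReal_mul, ENNReal.coe_toReal, ENNReal.toReal_ofReal hθst] at h3
  have hkey : ∀ s ∈ Icc a b, ∀ t ∈ Icc a b, |V t - V s| ≤ L * |θ t - θ s| := by
    intro s hs t ht
    rcases le_total s t with hst | hst
    · obtain ⟨h1, h2⟩ := hkey1 s hs t ht hst
      rw [abs_of_nonneg h1, abs_of_nonneg (sub_nonneg.mpr (hθm hs ht hst))]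
      exact h2
    · obtain ⟨h1, h2⟩ := hkey1 t ht s hs hst
      rw [abs_sub_comm, abs_sub_comm (θ t), abs_of_nonneg h1,
        abs_of_nonneg (sub_nonneg.mpr (hθm ht hs hst))]
      exact h2
  have hVa : V a = 0 := variationOnFromTo.self _ _ _
  have hVb : V b = l := by
    rw [hV, variationOnFromTo.eq_of_le _ _ hab, inter_self]
  have hVim : V '' Icc a b = Icc 0 l := vf_image hab hα hb
  set σ : ℝ → ℝ := fun u => V (τ u) with hσ
  have hσLip : LipschitzOnWith L σ (Icc (θ a) (θ b)) := by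
    refine LipschitzOnWith.of_dist_le_mul fun u hu v hv => ?_
    have h1 := hkey _ (hτI v) _ (hτI u)
    rw [hτu u hu, hτu v hv] at h1
    rw [Real.dist_eq, Real.dist_eq]
    exact h1
  have hσθ : ∀ t ∈ Icc a b, σ (θ t) = V t := by
    intro t ht
    have hmem : θ t ∈ Icc (θ a) (θ b) := ⟨hθm haI ht ht.1, hθm ht hbI ht.2⟩
    have h1 := hkey _ ht _ (hτI (θ t))
    rw [hτu _ hmem, sub_self, abs_zero, mul_zero] at h1
    have h2 := abs_nonpos_iff.mp h1
    simp only [hσ]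
    linarith
  have hσ0 : σ (θ a) = 0 := by rw [hσθ a haI, hVa]
  have hσl : σ (θ b) = l := by rw [hσθ b hbI, hVb]
  have hmaps : MapsTo σ (Icc (θ a) (θ b)) (Icc 0 l) := by
    intro u _
    rw [← hVim]
    exact mem_image_of_mem _ (hτI u)
  have hl0 : (0 : ℝ) ≤ l := ENNReal.toReal_nonneg
  set nat := naturalParameterization α (Icc a b) a with hnat
  have hnatc : ContinuousOn nat (Icc 0 l) := (nat_lipschitz hab hα hb).continuousOn
  have hq'c : Continuous fun v : ℝ => (Icc 0 l).domRestrict nat (projIcc 0 l hl0 v) :=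
    (continuousOn_iff_continuous_domRestrict.mp hnatc).comp continuous_projIcc
  have hq' : Measurable fun v : ℝ => ρ ((Icc 0 l).domRestrict nat (projIcc 0 l hl0 v)) :=
    hρ.comp hq'c.measurable
  have hqq : EqOn (fun v => ρ (nat v))
      (fun v : ℝ => ρ ((Icc 0 l).domRestrict nat (projIcc 0 l hl0 v))) (Icc 0 l) := by
    intro v hv
    simp only [projIcc_of_mem hl0 hv]
    rfl
  have h1 := lintegral_reparam hθab hσLip hσ0 hσl hmaps hq' hqq
  refine h1.trans (le_of_eq ?_)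
  congr 1
  refine setLIntegral_congr_fun measurableSet_Icc fun u hu => ?_
  have h2 : nat (V (τ u)) = α (τ u) := nat_apply hb (hτI u)
  simp only [hσ]
  rw [h2, ← hp _ (hτI u), hτu u hu]

end Pool.QC3
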