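import Pool.Agent.Lib.MP_6b3014_an.LI5
import Pool.Agent.Lib.MP_6b3014_an.MO1

/-!
# MP_6b3014_an, row MO2

Statements must stay exactly as they are. You may use everything that comes EARLIER in the files
Defs, Base, SkelA, SkelB, SkelC, SkelD, SkelE (there it is sorried), nothing that comes later.
-/

open Set MeasureTheory Metric
open scoped ENNReal NNReal Topology

namespace Pool.QC3

theorem MO2_aux1 {s : Set ℝ} {γ : ℝ → E} (hord : s.OrdConnected) (hv : LocallyBoundedVariationOn γ s)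
    {a b : ℝ} (ha : a ∈ s) (hb : b ∈ s) : BoundedVariationOn γ (Icc a b) := by
  have h := hv a b ha hb
  rwa [inter_eq_right.mpr (hord.out ha hb)] at h

/-- PROOF: let `ρ` be admissible for `img F Γ`. Then `ρ' x = L * ρ (F x)` is measurable, and
admissible for `Γ`: for `c ∈ Γ` locally of bounded variation, `F ∘ c.2` is also
(`LipschitzWith.comp_locallyBoundedVariationOn`), so `1 ≤ lineInt ρ (c.1, F ∘ c.2)`, and for
`a ≤ b` in `c.1`, `arcInt ρ (F ∘ c.2) a b ≤ L * arcInt (ρ ∘ F) c.2 a b = arcInt ρ' c.2 a b`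
(`arcInt_comp_le`, `arcInt_const_mul`). And `∫ ρ'³ = L³ ∫ ρ(F x)³ ≤ L³ J ∫ ρ³`. Infimum over
`ρ` (`ENNReal.mul_iInf` type argument; if `L ^ 3 * J = ⊤` or `0` take care: it is simplest to prove
`modulus Γ ≤ L ^ 3 * J * ∫ ρ ^ 3` for every admissible `ρ` and then use
`ENNReal.mul_iInf_of_ne` with `L ^ 3 * J ≠ 0, ⊤`, hypotheses `hL0`, `hJ0`, `hJt`). -/
theorem modulus_le_img {F : E → E} {L : ℝ≥0} {J : ℝ≥0∞} (hL0 : L ≠ 0) (hJ0 : J ≠ 0)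
    (hJt : J ≠ ⊤) (hF : LipschitzWith L F)
    (hJ : ∀ ρ : E → ℝ≥0∞, Measurable ρ → ∫⁻ x, ρ (F x) ≤ J * ∫⁻ x, ρ x) {Γ : Set Curve}
    (hΓ : ∀ c ∈ Γ, c.1.OrdConnected ∧ ContinuousOn c.2 c.1) :
    modulus Γ ≤ (L : ℝ≥0∞) ^ 3 * J * modulus (img F Γ) := by
  have hc0 : (L : ℝ≥0∞) ^ 3 * J ≠ 0 :=
    mul_ne_zero (pow_ne_zero 3 (ENNReal.coe_ne_zero.mpr hL0)) hJ0
  have hct : (L : ℝ≥0∞) ^ 3 * J ≠ ⊤ :=
    ENNReal.mul_ne_top (ENNReal.pow_ne_top ENNReal.coe_ne_top) hJt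
  have key : ∀ ρ : E → ℝ≥0∞, Admissible (img F Γ) ρ → modulus Γ ≤ (L : ℝ≥0∞) ^ 3 * J * ∫⁻ x, ρ x ^ 3 := by
    intro ρ hρ
    have hm : Measurable (fun x => ρ (F x)) := hρ.1.comp hF.continuous.measurable
    have hadm : Admissible Γ (fun x => (L : ℝ≥0∞) * ρ (F x)) := by
      refine ⟨hm.const_mul _, fun c hc hv => ?_⟩
      obtain ⟨hord, hcont⟩ := hΓ c hc
      refine (hρ.2 (c.1, F ∘ c.2) ⟨c, hc, rfl⟩ (hF.comp_locallyBoundedVariationOn hv)).trans ?_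
      unfold lineInt
      refine iSup₂_mono fun a ha => iSup₂_mono fun b hb => iSup_mono fun hab => ?_
      rw [arcInt_const_mul ENNReal.coe_ne_top]
      exact arcInt_comp_le hF hρ.1 hab (hcont.mono (hord.out ha hb)) (MO2_aux1 hord hv ha hb)
    refine (modulus_le hadm).trans ?_
    calc ∫⁻ x, ((L : ℝ≥0∞) * ρ (F x)) ^ 3 = ∫⁻ x, (L : ℝ≥0∞) ^ 3 * (fun y => ρ y ^ 3) (F x) := by
          apply lintegral_congr; intro x
          rw [mul_pow]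
      _ = (L : ℝ≥0∞) ^ 3 * ∫⁻ x, (fun y => ρ y ^ 3) (F x) :=
          lintegral_const_mul' _ _ (ENNReal.pow_ne_top ENNReal.coe_ne_top)
      _ ≤ (L : ℝ≥0∞) ^ 3 * (J * ∫⁻ x, ρ x ^ 3) := by
          gcongr
          exact hJ (fun y => ρ y ^ 3) (hρ.1.pow_const 3)
      _ = (L : ℝ≥0∞) ^ 3 * J * ∫⁻ x, ρ x ^ 3 := by rw [mul_assoc]
  have h2 : modulus Γ ≤ (L : ℝ≥0∞) ^ 3 * J *
      ⨅ (ρ : E → ℝ≥0∞) (_ : Admissible (img F Γ) ρ), ∫⁻ x, ρ x ^ 3 := by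
    simp only [ENNReal.mul_iInf_of_ne hc0 hct]
    exact le_iInf₂ key
  exact h2

/-- PROOF: `sInf_lt_iff`: some `K < k` is in the set; monotonicity of multiplication. -/
theorem le_of_KO_lt {f : OpenPartialHomeomorph E E} {k : ℝ≥0∞} (hk : KO f < k) {Γ : Set Curve}
    (hΓ : ∀ c ∈ Γ, CurveIn f.source c) : modulus Γ ≤ k * modulus (img f Γ) := by
  unfold KO at hk
  obtain ⟨K, hK, hKk⟩ := sInf_lt_iff.mp hk
  refine (hK Γ hΓ).trans ?_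
  gcongr

/-- PROOF: as before. -/
theorem le_of_KI_lt {f : OpenPartialHomeomorph E E} {k : ℝ≥0∞} (hk : KI f < k) {Γ : Set Curve}
    (hΓ : ∀ c ∈ Γ, CurveIn f.source c) : modulus (img f Γ) ≤ k * modulus Γ := by
  unfold KI at hk
  obtain ⟨K, hK, hKk⟩ := sInf_lt_iff.mp hk
  refine (hK Γ hΓ).trans ?_
  gcongr

/-- PROOF: `modulus_le_img` for the curves of `Γ` and `modulus_le_of_cover` to pass from
`img F Γ` to `img f Γ` (the curves `F ∘ c.2` and `f ∘ c.2` agree on `c.1`); `sInf_le`. -/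
theorem KO_le_of_lipschitz {f : OpenPartialHomeomorph E E} {F : E → E} (hfF : EqOn f F f.source)
    {L : ℝ≥0} {J : ℝ≥0∞} (hL0 : L ≠ 0) (hJ0 : J ≠ 0) (hJt : J ≠ ⊤) (hF : LipschitzWith L F)
    (hJ : ∀ ρ : E → ℝ≥0∞, Measurable ρ → ∫⁻ x, ρ (F x) ≤ J * ∫⁻ x, ρ x) :
    KO f ≤ (L : ℝ≥0∞) ^ 3 * J := by
  unfold KO
  apply sInf_le
  intro Γ hΓ
  refine (modulus_le_img hL0 hJ0 hJt hF hJ (fun c hc => ⟨(hΓ c hc).1, (hΓ c hc).2.1⟩)).trans ?_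
  gcongr
  apply modulus_le_of_cover
  rintro _ ⟨c, hc, rfl⟩
  obtain ⟨hord, hcont, hmaps⟩ := hΓ c hc
  refine ⟨hord, hF.continuous.comp_continuousOn hcont, (c.1, f ∘ c.2), ⟨c, hc, rfl⟩, rfl, ?_⟩
  intro t ht
  exact (hfF (hmaps ht)).symm

/-- PROOF: for a family `Γ` in `f.source` put `Γ' = img f Γ`, a family in `f.target`; by
`modulus_le_img` for `G` and `Γ'`, `modulus Γ' ≤ L ^ 3 * J * modulus (img G Γ')`, and
`modulus (img G Γ') ≤ modulus Γ` by `modulus_le_of_cover`, because `G ∘ f ∘ c.2` and `c.2` agree on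
`c.1` (`G (f x) = x` for `x ∈ f.source`, from `hfG` and `f.left_inv`). -/
theorem KI_le_of_lipschitz {f : OpenPartialHomeomorph E E} {G : E → E}
    (hfG : EqOn f.symm G f.target)
    {L : ℝ≥0} {J : ℝ≥0∞} (hL0 : L ≠ 0) (hJ0 : J ≠ 0) (hJt : J ≠ ⊤) (hG : LipschitzWith L G)
    (hJ : ∀ ρ : E → ℝ≥0∞, Measurable ρ → ∫⁻ x, ρ (G x) ≤ J * ∫⁻ x, ρ x) :
    KI f ≤ (L : ℝ≥0∞) ^ 3 * J := by
  unfold KI
  apply sInf_le
  intro Γ hΓ
  have hcf : ∀ c ∈ img f Γ, c.1.OrdConnected ∧ ContinuousOn c.2 c.1 := by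
    rintro _ ⟨c, hc, rfl⟩
    obtain ⟨hord, hcont, hmaps⟩ := hΓ c hc
    exact ⟨hord, f.continuousOn.comp hcont hmaps⟩
  refine (modulus_le_img hL0 hJ0 hJt hG hJ hcf).trans ?_
  gcongr
  apply modulus_le_of_cover
  rintro _ ⟨_, ⟨c, hc, rfl⟩, rfl⟩
  obtain ⟨hord, hcont, hmaps⟩ := hΓ c hc
  refine ⟨hord, hG.continuous.comp_continuousOn (f.continuousOn.comp hcont hmaps), c, hc, rfl, ?_⟩
  intro t ht
  have h1 := hmaps ht
  show G (f (c.2 t)) = c.2 t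
  rw [← hfG (f.map_source h1), f.left_inv h1]

end Pool.QC3
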