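import Pool.Agent.Lib.MP_6b3014_an.Base

/-!
# MP_6b3014_an, row MR1

Statements must stay exactly as they are. You may use everything that comes EARLIER in the files
Defs, Base, SkelA, SkelB, SkelC, SkelD, SkelE (there it is sorried), nothing that comes later.
-/

open Set MeasureTheory Metric
open scoped ENNReal NNReal Topology

namespace Pool.QC3

theorem MR1_change {G : (Fin 2 → ℝ) → ℝ≥0∞} (hG : Measurable G) (x : Fin 2 → ℝ) {t : ℝ}
    (ht : 0 < t) :
    ∫⁻ m, G (x + t • (m - x)) = ENNReal.ofReal ((t ^ 2)⁻¹) * ∫⁻ y, G y := by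
  have h1 : ∫⁻ m, G (x + t • (m - x)) = ∫⁻ m, G (x + t • m) :=
    lintegral_sub_right_eq_self (fun m => G (x + t • m)) x
  have h2 : ∫⁻ m, G (x + t • m) = ∫⁻ y, G (x + y) ∂(Measure.map (t • ·) (volume : Measure (Fin 2 → ℝ))) := by
    rw [lintegral_map]
    · exact hG.comp (measurable_const_add x)
    · exact measurable_const_smul t
  rw [h1, h2, Measure.map_addHaar_smul _ ht.ne', lintegral_smul_measure,
    lintegral_add_left_eq_self (fun y => G y) x]
  simp only [Module.finrank_fintype_fun_eq_card, Fintype.card_fin, smul_eq_mul]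
  rw [abs_of_pos (by positivity)]

theorem MR1_int : ∫⁻ t in Ioc (0 : ℝ) 1, ENNReal.ofReal (t ^ (-(2 / 3) : ℝ)) = 3 := by
  have hint : IntervalIntegrable (fun t : ℝ => t ^ (-(2 / 3) : ℝ)) volume 0 1 :=
    intervalIntegral.intervalIntegrable_rpow' (by norm_num)
  have hio : IntegrableOn (fun t : ℝ => t ^ (-(2 / 3) : ℝ)) (Ioc 0 1) volume :=
    (intervalIntegrable_iff_integrableOn_Ioc_of_le zero_le_one).mp hint
  rw [← ofReal_integral_eq_lintegral_ofReal hio]
  · rw [← intervalIntegral.integral_of_le zero_le_one, integral_rpow (Or.inl (by norm_num))]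
    rw [Real.one_rpow, Real.zero_rpow (by norm_num)]
    norm_num
  · filter_upwards [ae_restrict_mem measurableSet_Ioc] with t ht
    exact Real.rpow_nonneg ht.1.le _

/-- PROOF: exchange the integrals (Tonelli). For fixed `t ∈ (0, 1]` the map `m ↦ x + t (m - x)` maps
the square `Q = closedBall u₀ s` onto a set `Qₜ ⊆ Q` (convexity, `x ∈ Q`), of area `t² |Q|`, and
`∫_Q ρ (x + t (m - x)) dm = t⁻² ∫_{Qₜ} ρ ≤ t⁻² |Qₜ|^(2/3) (∫_{Qₜ} ρ³)^(1/3) ≤
t^(-2/3) |Q|^(2/3) (∫_Q ρ³)^(1/3)` (Hoelder with exponents `3/2` and `3`,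
`ENNReal.lintegral_mul_le_Lp_mul_Lq`). Finally `∫₀¹ t^(-2/3) dt = 3`. The change of variables:
`MeasureTheory.Measure.map_addHaar_smul` / `Measure.addHaar_smul` and translation invariance in
`Fin 2 → ℝ` (dimension 2), or `MeasureTheory.lintegral_comp_...`. -/
theorem square_avg {ρ : (Fin 2 → ℝ) → ℝ≥0∞} (hρ : Measurable ρ) (u₀ : Fin 2 → ℝ) {s : ℝ}
    (hs : 0 < s) {x : Fin 2 → ℝ} (hx : x ∈ closedBall u₀ s) :
    ∫⁻ m in closedBall u₀ s, ∫⁻ t in Icc (0 : ℝ) 1, ρ (x + t • (m - x)) ≤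
      3 * volume (closedBall u₀ s) ^ (2 / 3 : ℝ) *
        (∫⁻ u in closedBall u₀ s, ρ u ^ 3) ^ (1 / 3 : ℝ) := by
  have hmeas : Measurable (fun p : (Fin 2 → ℝ) × ℝ => ρ (x + p.2 • (p.1 - x))) := by
    apply hρ.comp
    apply Continuous.measurable
    fun_prop
  rw [lintegral_lintegral_swap hmeas.aemeasurable]
  have key : ∀ t ∈ Ioc (0 : ℝ) 1, ∫⁻ m in closedBall u₀ s, ρ (x + t • (m - x)) ≤
      ENNReal.ofReal (t ^ (-(2 / 3) : ℝ)) * (volume (closedBall u₀ s) ^ (2 / 3 : ℝ) *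
        (∫⁻ u in closedBall u₀ s, ρ u ^ 3) ^ (1 / 3 : ℝ)) := by
    rintro t ⟨ht0, ht1⟩
    obtain ⟨c, hc⟩ : ∃ c : Fin 2 → ℝ, c = x + t • (u₀ - x) := ⟨_, rfl⟩
    have hball : ∀ m, m ∈ closedBall u₀ s ↔ x + t • (m - x) ∈ closedBall c (t * s) := by
      intro m
      rw [mem_closedBall, mem_closedBall, dist_eq_norm, dist_eq_norm, hc]
      have : x + t • (m - x) - (x + t • (u₀ - x)) = t • (m - u₀) := by
        rw [add_sub_add_left_eq_sub, ← smul_sub]
        congr 1
        abel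
      rw [this, norm_smul, Real.norm_eq_abs, abs_of_pos ht0]
      exact (mul_le_mul_iff_right₀ ht0).symm
    have h1 : ∫⁻ m in closedBall u₀ s, ρ (x + t • (m - x))
        = ∫⁻ m, (closedBall c (t * s)).indicator ρ (x + t • (m - x)) := by
      rw [← lintegral_indicator measurableSet_closedBall]
      apply lintegral_congr
      intro m
      by_cases hm : m ∈ closedBall u₀ s
      · rw [indicator_of_mem hm, indicator_of_mem ((hball m).mp hm)]
      · rw [indicator_of_notMem hm, indicator_of_notMem (fun h => hm ((hball m).mpr h))]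
    have hsub : closedBall c (t * s) ⊆ closedBall u₀ s := by
      intro y hy
      rw [mem_closedBall, dist_eq_norm] at hy hx ⊢
      have e : y - u₀ = (y - c) + (1 - t) • (x - u₀) := by
        rw [hc, sub_smul, one_smul, smul_sub, smul_sub]
        abel
      calc ‖y - u₀‖ ≤ ‖y - c‖ + ‖(1 - t) • (x - u₀)‖ := by rw [e]; exact norm_add_le _ _
        _ = ‖y - c‖ + (1 - t) * ‖x - u₀‖ := by
            rw [norm_smul, Real.norm_eq_abs, abs_of_nonneg (by linarith)]
        _ ≤ t * s + (1 - t) * s := by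
            gcongr
        _ = s := by ring
    have hvol : volume (closedBall c (t * s)) = ENNReal.ofReal (t ^ 2) * volume (closedBall u₀ s) := by
      rw [Measure.addHaar_closedBall_mul _ _ ht0.le hs.le, Measure.addHaar_closedBall_center _ u₀]
      simp
    have hhold : ∫⁻ m in closedBall c (t * s), ρ m ≤
        (∫⁻ m in closedBall c (t * s), ρ m ^ 3) ^ (1 / 3 : ℝ) *
          volume (closedBall c (t * s)) ^ (2 / 3 : ℝ) := by
      have hpq : (3 : ℝ).HolderConjugate (3 / 2) := by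
        rw [Real.holderConjugate_iff]
        constructor <;> norm_num
      have := ENNReal.lintegral_mul_le_Lp_mul_Lq (volume.restrict (closedBall c (t * s))) hpq
        hρ.aemeasurable (aemeasurable_const (b := (1 : ℝ≥0∞)))
      simp only [Pi.mul_apply, mul_one, ENNReal.one_rpow, lintegral_const, one_mul,
        MeasurableSet.univ, Measure.restrict_apply, univ_inter] at this
      have e3 : ∀ m, ρ m ^ (3 : ℝ) = ρ m ^ 3 := by
        intro m
        rw [← ENNReal.rpow_natCast]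
        norm_num
      simp only [e3] at this
      rw [show (1 / (3 / 2) : ℝ) = 2 / 3 by norm_num] at this
      exact this
    rw [h1, MR1_change (hρ.indicator measurableSet_closedBall) x ht0,
      lintegral_indicator measurableSet_closedBall]
    calc ENNReal.ofReal ((t ^ 2)⁻¹) * ∫⁻ m in closedBall c (t * s), ρ m
        ≤ ENNReal.ofReal ((t ^ 2)⁻¹) * ((∫⁻ m in closedBall c (t * s), ρ m ^ 3) ^ (1 / 3 : ℝ) *
          volume (closedBall c (t * s)) ^ (2 / 3 : ℝ)) := by gcongr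
      _ ≤ ENNReal.ofReal ((t ^ 2)⁻¹) * ((∫⁻ m in closedBall u₀ s, ρ m ^ 3) ^ (1 / 3 : ℝ) *
          (ENNReal.ofReal (t ^ 2) * volume (closedBall u₀ s)) ^ (2 / 3 : ℝ)) := by
          rw [hvol]
          gcongr
      _ = (ENNReal.ofReal ((t ^ 2)⁻¹) * ENNReal.ofReal (t ^ 2) ^ (2 / 3 : ℝ)) *
          (volume (closedBall u₀ s) ^ (2 / 3 : ℝ) *
            (∫⁻ m in closedBall u₀ s, ρ m ^ 3) ^ (1 / 3 : ℝ)) := by
          rw [ENNReal.mul_rpow_of_nonneg _ _ (by norm_num)]
          ring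
      _ = _ := by
          congr 1
          rw [ENNReal.ofReal_rpow_of_pos (by positivity), ← ENNReal.ofReal_mul (by positivity)]
          congr 1
          have e1 : (t ^ 2)⁻¹ = t ^ (-2 : ℝ) := by
            rw [Real.rpow_neg ht0.le]
            norm_num
          have e2 : (t ^ 2) ^ (2 / 3 : ℝ) = t ^ (4 / 3 : ℝ) := by
            rw [← Real.rpow_natCast, ← Real.rpow_mul ht0.le]
            norm_num
          rw [e1, e2, ← Real.rpow_add ht0]
          norm_num
  calc ∫⁻ t in Icc (0 : ℝ) 1, ∫⁻ m in closedBall u₀ s, ρ (x + t • (m - x))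
      = ∫⁻ t in Ioc (0 : ℝ) 1, ∫⁻ m in closedBall u₀ s, ρ (x + t • (m - x)) :=
        (setLIntegral_congr Ioc_ae_eq_Icc).symm
    _ ≤ ∫⁻ t in Ioc (0 : ℝ) 1, ENNReal.ofReal (t ^ (-(2 / 3) : ℝ)) *
        (volume (closedBall u₀ s) ^ (2 / 3 : ℝ) *
        (∫⁻ u in closedBall u₀ s, ρ u ^ 3) ^ (1 / 3 : ℝ)) :=
        setLIntegral_mono' measurableSet_Ioc key
    _ = (∫⁻ t in Ioc (0 : ℝ) 1, ENNReal.ofReal (t ^ (-(2 / 3) : ℝ))) *
        (volume (closedBall u₀ s) ^ (2 / 3 : ℝ) *
        (∫⁻ u in closedBall u₀ s, ρ u ^ 3) ^ (1 / 3 : ℝ)) := by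
        rw [lintegral_mul_const]
        fun_prop
    _ = _ := by rw [MR1_int, mul_assoc]

end Pool.QC3
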