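import Pool.Agent.Lib.MP_6b3014_an.MR1

/-!
# MP_6b3014_an, row MR2

Statements must stay exactly as they are. You may use everything that comes EARLIER in the files
Defs, Base, SkelA, SkelB, SkelC, SkelD, SkelE (there it is sorried), nothing that comes later.
-/

open Set MeasureTheory Metric
open scoped ENNReal NNReal Topology

namespace Pool.QC3

theorem MR2_meas {ρ : (Fin 2 → ℝ) → ℝ≥0∞} (hρ : Measurable ρ) (x : Fin 2 → ℝ) :
    Measurable (fun m : Fin 2 → ℝ => ∫⁻ t in Icc (0 : ℝ) 1, ρ (x + t • (m - x))) := by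
  have h : Measurable (fun p : (Fin 2 → ℝ) × ℝ => ρ (x + p.2 • (p.1 - x))) := by
    apply hρ.comp
    fun_prop
  exact h.lintegral_prod_right'

theorem MR2_vol (u₀ : Fin 2 → ℝ) {s : ℝ} (hs : 0 < s) :
    volume (closedBall u₀ s) = ENNReal.ofReal (4 * s ^ 2) := by
  rw [Real.volume_pi_closedBall _ hs.le]
  congr 1
  simp only [Fintype.card_fin]
  ring

theorem MR2_pow {s : ℝ} (hs : 0 < s) :
    ENNReal.ofReal (4 * s ^ 2) ^ (2 / 3 : ℝ) / ENNReal.ofReal (4 * s ^ 2) ≤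
      ENNReal.ofReal (s ^ (-(2 / 3) : ℝ)) := by
  have h4 : (0 : ℝ) < 4 * s ^ 2 := by positivity
  have e1 : ENNReal.ofReal (4 * s ^ 2) ^ (2 / 3 : ℝ) / ENNReal.ofReal (4 * s ^ 2) =
      ENNReal.ofReal ((4 * s ^ 2) ^ (-(1 / 3) : ℝ)) := by
    rw [ENNReal.ofReal_rpow_of_pos h4, ← ENNReal.ofReal_div_of_pos h4]
    congr 1
    have : (-(1 / 3) : ℝ) = 2 / 3 - 1 := by norm_num
    rw [this, Real.rpow_sub h4, Real.rpow_one]
  rw [e1]
  apply ENNReal.ofReal_le_ofReal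
  rw [Real.mul_rpow (by norm_num) (by positivity)]
  have e2 : (s ^ 2) ^ (-(1 / 3) : ℝ) = s ^ (-(2 / 3) : ℝ) := by
    rw [← Real.rpow_natCast, ← Real.rpow_mul hs.le]
    congr 1
    norm_num
  rw [e2]
  have h1 : (4 : ℝ) ^ (-(1 / 3) : ℝ) ≤ 1 := by
    apply Real.rpow_le_one_of_one_le_of_nonpos <;> norm_num
  have h2 : 0 ≤ s ^ (-(2 / 3) : ℝ) := by positivity
  nlinarith

/-- PROOF: the area of the square is `(2 s)² = 4 s²` (`Real.volume_pi_closedBall`). Add the two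
inequalities `square_avg` for `x` and `y`; some point `m` of the square is at most the average
(`MeasureTheory.exists_le_setLAverage` or similar):
value `≤ 6 * (4 s²)^(2/3) * I^(1/3) / (4 s²) = 6 (4 s²)^(-1/3) I^(1/3) ≤ 6 * s^(-2/3) I^(1/3)`. -/
theorem square_join {ρ : (Fin 2 → ℝ) → ℝ≥0∞} (hρ : Measurable ρ) (u₀ : Fin 2 → ℝ) {s : ℝ}
    (hs : 0 < s) {x y : Fin 2 → ℝ} (hx : x ∈ closedBall u₀ s) (hy : y ∈ closedBall u₀ s) :
    ∃ m ∈ closedBall u₀ s,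
      (∫⁻ t in Icc (0 : ℝ) 1, ρ (x + t • (m - x))) +
        (∫⁻ t in Icc (0 : ℝ) 1, ρ (y + t • (m - y))) ≤
      6 * ENNReal.ofReal (s ^ (-(2 / 3) : ℝ)) *
        (∫⁻ u in closedBall u₀ s, ρ u ^ 3) ^ (1 / 3 : ℝ) := by
  have hv := MR2_vol u₀ hs
  have h4 : (0 : ℝ) < 4 * s ^ 2 := by positivity
  have hμ : volume (closedBall u₀ s) ≠ 0 := by
    rw [hv]
    exact (ENNReal.ofReal_pos.2 h4).ne'
  have hμt : volume (closedBall u₀ s) ≠ ⊤ := by
    rw [hv]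
    exact ENNReal.ofReal_ne_top
  have hmx := MR2_meas hρ x
  have hmy := MR2_meas hρ y
  obtain ⟨m, hm, hle⟩ := exists_le_setLAverage (μ := volume) (s := closedBall u₀ s)
    (f := fun m => (∫⁻ t in Icc (0 : ℝ) 1, ρ (x + t • (m - x))) +
        (∫⁻ t in Icc (0 : ℝ) 1, ρ (y + t • (m - y)))) hμ hμt (hmx.add hmy).aemeasurable
  refine ⟨m, hm, hle.trans ?_⟩
  rw [setLAverage_eq, lintegral_add_left hmx]
  have ax := square_avg hρ u₀ hs hx
  have ay := square_avg hρ u₀ hs hy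
  have h6 := add_le_add ax ay
  refine (ENNReal.div_le_div_right h6 _).trans ?_
  rw [hv]
  have hp := MR2_pow hs
  set I := (∫⁻ u in closedBall u₀ s, ρ u ^ 3) ^ (1 / 3 : ℝ)
  set A := ENNReal.ofReal (4 * s ^ 2)
  calc (3 * A ^ (2 / 3 : ℝ) * I + 3 * A ^ (2 / 3 : ℝ) * I) / A
      = 6 * (A ^ (2 / 3 : ℝ) / A) * I := by
        simp only [ENNReal.div_eq_inv_mul]
        ring
    _ ≤ 6 * ENNReal.ofReal (s ^ (-(2 / 3) : ℝ)) * I := by gcongr

end Pool.QC3
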