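import Pool.Agent.Lib.MP_6b3014_an.MR2
import Pool.Agent.Lib.MP_6b3014_an.CH1

/-!
# MP_6b3014_an, row MR3

Statements must stay exactly as they are. You may use everything that comes EARLIER in the files
Defs, Base, SkelA, SkelB, SkelC, SkelD, SkelE (there it is sorried), nothing that comes later.
-/

open Set MeasureTheory Metric
open scoped ENNReal NNReal Topology

namespace Pool.QC3

theorem MR3_ins_self (i : Fin 3) (v : ℝ) (u : Fin 2 → ℝ) : (ins i v u) i = v := by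
  simp [ins, pt]

theorem MR3_ins_succ (i : Fin 3) (v : ℝ) (u : Fin 2 → ℝ) (j : Fin 2) :
    (ins i v u) (i.succAbove j) = u j := by
  simp [ins, pt]

theorem MR3_cont (i : Fin 3) (v : ℝ) : Continuous (ins i v) := by
  unfold ins pt
  refine (PiLp.continuous_toLp 2 _).comp ?_
  refine continuous_pi fun j => ?_
  rcases eq_or_ne j i with rfl | hj
  · simp only [Fin.insertNth_apply_same]
    exact continuous_const
  · obtain ⟨k, rfl⟩ := Fin.exists_succAbove_eq hj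
    simp only [Fin.insertNth_apply_succAbove]
    exact continuous_apply k

theorem MR3_seg (i : Fin 3) (v : ℝ) (x m : Fin 2 → ℝ) (t : ℝ) :
    ins i v x + t • (ins i v m - ins i v x) = ins i v (x + t • (m - x)) := by
  ext j
  rcases eq_or_ne j i with rfl | hj
  · simp [MR3_ins_self]
  · obtain ⟨k, rfl⟩ := Fin.exists_succAbove_eq hj
    simp [MR3_ins_succ]

theorem MR3_norm (i : Fin 3) (v : ℝ) (x m : Fin 2 → ℝ) :
    ‖ins i v m - ins i v x‖ ≤ 2 * ‖m - x‖ := by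
  rw [EuclideanSpace.norm_eq, Fin.sum_univ_succAbove _ i]
  simp only [PiLp.sub_apply, MR3_ins_self, MR3_ins_succ, Fin.sum_univ_two]
  refine Real.sqrt_le_iff.mpr ⟨by positivity, ?_⟩
  have h0 : ‖m 0 - x 0‖ ≤ ‖m - x‖ := by simpa using norm_le_pi_norm (m - x) 0
  have h1 : ‖m 1 - x 1‖ ≤ ‖m - x‖ := by simpa using norm_le_pi_norm (m - x) 1
  have h2 : ‖m 0 - x 0‖ ^ 2 ≤ ‖m - x‖ ^ 2 := by gcongr
  have h3 : ‖m 1 - x 1‖ ^ 2 ≤ ‖m - x‖ ^ 2 := by gcongr
  simp only [sub_self, norm_zero]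
  nlinarith [sq_nonneg ‖m - x‖]

/-- PROOF: the map `u ↦ ins i v u` is affine: `ins i v x + t • (ins i v m - ins i v x) =
ins i v (x + t • (m - x))` and `‖ins i v m - ins i v x‖ ≤ 2 * ‖m - x‖` (euclidean norm of a vector
with two nonzero entries, `√2 ≤ 2`), `‖m - x‖ ≤ 2 s` for points of the square. Apply
`square_join` to `ρ ∘ ins i v` (measurable) and `Cheap.segment`, `Cheap.symm`, `Cheap.trans`:
total cost `≤ 4 s * 6 * s^(-2/3) * I^(1/3) = 24 s^(1/3) I^(1/3)`. -/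
theorem face_join {ρ : E → ℝ≥0∞} (hρ : Measurable ρ) (i : Fin 3) (v : ℝ) (u₀ : Fin 2 → ℝ)
    {s : ℝ} (hs : 0 < s) {x y : Fin 2 → ℝ} (hx : x ∈ closedBall u₀ s)
    (hy : y ∈ closedBall u₀ s) :
    Cheap ρ (24 * ENNReal.ofReal (s ^ (1 / 3 : ℝ)) *
      (∫⁻ u in closedBall u₀ s, ρ (ins i v u) ^ 3) ^ (1 / 3 : ℝ)) (ins i v x) (ins i v y) := by
  obtain ⟨m, hm, hle⟩ := square_join (ρ := fun u => ρ (ins i v u))
    (hρ.comp (MR3_cont i v).measurable) u₀ hs hx hy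
  have hd : ∀ z : Fin 2 → ℝ, z ∈ closedBall u₀ s → ‖ins i v m - ins i v z‖ ≤ 4 * s := by
    intro z hz
    have h1 := MR3_norm i v z m
    have h2 : ‖m - z‖ ≤ s + s := by
      rw [← dist_eq_norm]
      exact (dist_triangle_right m z u₀).trans (add_le_add hm hz)
    linarith
  have hcx := Pool.QC3.Cheap.segment ρ (ins i v x) (ins i v m)
  have hcy := (Pool.QC3.Cheap.segment ρ (ins i v y) (ins i v m)).symm
  simp only [MR3_seg] at hcx hcy
  refine (hcx.trans hcy).mono ?_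
  have hxd := ENNReal.ofReal_le_ofReal (hd x hx)
  have hyd := ENNReal.ofReal_le_ofReal (hd y hy)
  calc ENNReal.ofReal ‖ins i v m - ins i v x‖ *
        (∫⁻ t in Icc (0 : ℝ) 1, ρ (ins i v (x + t • (m - x)))) +
      ENNReal.ofReal ‖ins i v m - ins i v y‖ *
        (∫⁻ t in Icc (0 : ℝ) 1, ρ (ins i v (y + t • (m - y))))
      ≤ ENNReal.ofReal (4 * s) * (∫⁻ t in Icc (0 : ℝ) 1, ρ (ins i v (x + t • (m - x)))) +
        ENNReal.ofReal (4 * s) * (∫⁻ t in Icc (0 : ℝ) 1, ρ (ins i v (y + t • (m - y)))) := by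
        gcongr
    _ = ENNReal.ofReal (4 * s) * ((∫⁻ t in Icc (0 : ℝ) 1, ρ (ins i v (x + t • (m - x)))) +
        (∫⁻ t in Icc (0 : ℝ) 1, ρ (ins i v (y + t • (m - y))))) := by rw [mul_add]
    _ ≤ ENNReal.ofReal (4 * s) * (6 * ENNReal.ofReal (s ^ (-(2 / 3) : ℝ)) *
        (∫⁻ u in closedBall u₀ s, ρ (ins i v u) ^ 3) ^ (1 / 3 : ℝ)) := by gcongr
    _ = 24 * ENNReal.ofReal (s ^ (1 / 3 : ℝ)) *
        (∫⁻ u in closedBall u₀ s, ρ (ins i v u) ^ 3) ^ (1 / 3 : ℝ) := by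
        have hr : (4 * s) * s ^ (-(2 / 3) : ℝ) = 4 * s ^ (1 / 3 : ℝ) := by
          have h4 : s * s ^ (-(2 / 3) : ℝ) = s ^ (1 / 3 : ℝ) := by
            nth_rewrite 1 [← Real.rpow_one s]
            rw [← Real.rpow_add hs]
            norm_num
          rw [mul_assoc, h4]
        have hE : ENNReal.ofReal (4 * s) * ENNReal.ofReal (s ^ (-(2 / 3) : ℝ)) =
            4 * ENNReal.ofReal (s ^ (1 / 3 : ℝ)) := by
          rw [← ENNReal.ofReal_mul (by positivity), hr, ENNReal.ofReal_mul (by norm_num)]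
          norm_num
        calc _ = (ENNReal.ofReal (4 * s) * ENNReal.ofReal (s ^ (-(2 / 3) : ℝ))) * 6 *
              (∫⁻ u in closedBall u₀ s, ρ (ins i v u) ^ 3) ^ (1 / 3 : ℝ) := by ring
          _ = _ := by rw [hE]; ring

end Pool.QC3
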