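import Pool.Agent.Lib.MP_6b3014_an.MR3

/-!
# MP_6b3014_an, row MR4

Statements must stay exactly as they are. You may use everything that comes EARLIER in the files
Defs, Base, SkelA, SkelB, SkelC, SkelD, SkelE (there it is sorried), nothing that comes later.
-/

open Set MeasureTheory Metric
open scoped ENNReal NNReal Topology

namespace Pool.QC3

/-- two points on the same face -/
theorem MR4_face {ρ : E → ℝ≥0∞} (hρ : Measurable ρ) (a : Fin 3 → ℝ) {s : ℝ} (hs : 0 < s)
    (i : Fin 3) {e : ℝ} (he : e = 1 ∨ e = -1) {x y : E}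
    (hxi : x i = a i + e * s) (hx : ∀ j, |x j - a j| ≤ s)
    (hyi : y i = a i + e * s) (hy : ∀ j, |y j - a j| ≤ s) :
    Cheap ρ (24 * ENNReal.ofReal (s ^ (1 / 3 : ℝ)) * surfI ρ a s ^ (1 / 3 : ℝ)) x y := by
  have key : ∀ z : E, z i = a i + e * s → (∀ j, |z j - a j| ≤ s) →
      (fun j => z (i.succAbove j)) ∈ closedBall (drop i a) s ∧
      ins i (a i + e * s) (fun j => z (i.succAbove j)) = z := by
    intro z hzi hz
    constructor
    · rw [mem_closedBall, dist_pi_le_iff hs.le]
      intro j
      rw [Real.dist_eq]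
      exact hz _
    · unfold ins pt
      ext j
      refine Fin.succAboveCases (α := fun j => (WithLp.toLp 2 (i.insertNth (α := fun _ => ℝ)
        (a i + e * s) (fun j => z (i.succAbove j))) : E) j = z j) i ?_ ?_ j
      · simp [hzi]
      · intro k
        simp
  obtain ⟨hx1, hx2⟩ := key x hxi hx
  obtain ⟨hy1, hy2⟩ := key y hyi hy
  have h := Pool.QC3.face_join hρ i (a i + e * s) (drop i a) hs hx1 hy1
  rw [hx2, hy2] at h
  refine h.mono ?_
  have hle : faceI ρ a i e s ≤ surfI ρ a s := by
    have h1 : faceI ρ a i e s ≤ faceI ρ a i 1 s + faceI ρ a i (-1) s := by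
      rcases he with rfl | rfl
      · exact le_self_add
      · exact le_add_self
    exact h1.trans (Finset.single_le_sum (f := fun i => faceI ρ a i 1 s + faceI ρ a i (-1) s)
      (fun _ _ => zero_le) (Finset.mem_univ i))
  exact mul_le_mul_right (ENNReal.rpow_le_rpow hle (by norm_num)) _

theorem MR4_corner {ρ : E → ℝ≥0∞} (hρ : Measurable ρ) (a : Fin 3 → ℝ) {s : ℝ} (hs : 0 < s)
    {x : E} (hx : ‖co x - a‖ = s) :
    Cheap ρ (48 * ENNReal.ofReal (s ^ (1 / 3 : ℝ)) * surfI ρ a s ^ (1 / 3 : ℝ)) x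
      (pt fun j => a j + s) := by
  have hb : ∀ j, |x j - a j| ≤ s := by
    intro j
    have := norm_le_pi_norm (co x - a) j
    rw [hx, Real.norm_eq_abs] at this
    exact this
  obtain ⟨i, hi⟩ : ∃ i, |x i - a i| = s := by
    obtain ⟨i, hi⟩ := Finite.exists_max (fun j => |x j - a j|)
    refine ⟨i, le_antisymm (hb i) ?_⟩
    rw [← hx]
    refine (pi_norm_le_iff_of_nonneg (abs_nonneg _)).2 fun j => ?_
    rw [Real.norm_eq_abs]
    exact hi j
  set v : E := pt fun j => a j + s with hv
  have hvj : ∀ j, v j = a j + s := fun j => rfl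
  have hvb : ∀ j, |v j - a j| ≤ s := by
    intro j
    rw [hvj, add_sub_cancel_left, abs_of_pos hs]
  set c : ℝ≥0∞ := 24 * ENNReal.ofReal (s ^ (1 / 3 : ℝ)) * surfI ρ a s ^ (1 / 3 : ℝ) with hc
  have h48 : 48 * ENNReal.ofReal (s ^ (1 / 3 : ℝ)) * surfI ρ a s ^ (1 / 3 : ℝ) = c + c := by
    rw [hc]
    ring
  rw [h48]
  rcases abs_eq hs.le |>.1 hi with h | h
  · have h1 := MR4_face hρ a hs i (Or.inl rfl) (x := x) (y := v) (by linarith) hb
      (by rw [hvj]; ring) hvb
    exact h1.mono le_self_add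
  · obtain ⟨k, hk⟩ : ∃ k : Fin 3, k ≠ i := exists_ne i
    set w : E := pt (Function.update (fun j => a j + s) i (a i - s)) with hw
    have hwi : w i = a i - s := by
      change Function.update (fun j => a j + s) i (a i - s) i = _
      simp
    have hwk : ∀ j, j ≠ i → w j = a j + s := by
      intro j hj
      change Function.update (fun j => a j + s) i (a i - s) j = _
      simp [hj]
    have hwb : ∀ j, |w j - a j| ≤ s := by
      intro j
      by_cases hj : j = i
      · subst hj
        rw [hwi, sub_sub_cancel_left, abs_neg, abs_of_pos hs]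
      · rw [hwk j hj, add_sub_cancel_left, abs_of_pos hs]
    have h1 := MR4_face hρ a hs i (Or.inr rfl) (x := x) (y := w) (by linarith) hb
      (by rw [hwi]; ring) hwb
    have h2 := MR4_face hρ a hs k (Or.inl rfl) (x := w) (y := v) (by rw [hwk k hk]; ring) hwb
      (by rw [hvj]; ring) hvb
    exact h1.trans h2

/-- PROOF: a point `x` with `‖co x - a‖ = s` (sup norm on `Fin 3 → ℝ`) has a coordinate `i` with
`|x i - a i| = s`, i.e. `x i = a i + e s` with `e = ±1`, and the other coordinates satisfy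
`|x j - a j| ≤ s`: so `x = ins i (a i + e s) u` with `u ∈ closedBall (drop i a) s`. Let
`v = pt (fun j => a j + s)` (the corner which lies on the three faces `(j, +1)`). If `e = 1`, `x`
and `v` lie on the face `(i, 1)`. If `e = -1`, let `w` be the corner with coordinates `a i - s` at
`i` and `a j + s` for `j ≠ i`: `x` and `w` lie on the face `(i, -1)`, and `w`, `v` lie on the face
`(j, 1)` for any `j ≠ i`. So `x` is joined to `v` by at most two applications of `face_join`, each
of cost at most `24 s^(1/3) (surfI ρ a s)^(1/3)` (`faceI ≤ surfI`). Same for `y`. Total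
`≤ 96 s^(1/3) (surfI)^(1/3)`. -/
theorem surf_join {ρ : E → ℝ≥0∞} (hρ : Measurable ρ) (a : Fin 3 → ℝ) {s : ℝ} (hs : 0 < s)
    {x y : E} (hx : ‖co x - a‖ = s) (hy : ‖co y - a‖ = s) :
    Cheap ρ (96 * ENNReal.ofReal (s ^ (1 / 3 : ℝ)) * surfI ρ a s ^ (1 / 3 : ℝ)) x y := by
  have h := (MR4_corner hρ a hs hx).trans (MR4_corner hρ a hs hy).symm
  refine h.mono (le_of_eq ?_)
  ring

end Pool.QC3
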