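import Pool.Agent.Lib.MP_6b3014_an.Base

/-!
# MP_6b3014_an, row TP1

Statements must stay exactly as they are. You may use everything that comes EARLIER in the files
Defs, Base, SkelA, SkelB, SkelC, SkelD, SkelE (there it is sorried), nothing that comes later.
-/

open Set MeasureTheory Metric
open scoped ENNReal NNReal Topology

namespace Pool.QC3

/-- The complement of a closed ball is preconnected in a normed space of dimension `> 1`.
PROOF: it is the image of the preconnected set `sphere 0 1 ×ˢ Ioi s` under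
`(u, t) ↦ x + t • u` (`isPreconnected_sphere`). -/
theorem compl_closedBall_preconnected {V : Type*} [NormedAddCommGroup V] [NormedSpace ℝ V]
    (hr : 1 < Module.rank ℝ V) (x : V) {s : ℝ} (hs : 0 < s) :
    IsPreconnected (closedBall x s)ᶜ := by
  have h1 : (closedBall x s)ᶜ =
      (fun p : V × ℝ => x + p.2 • p.1) '' ((sphere (0 : V) 1) ×ˢ Ioi s) := by
    ext y
    simp only [mem_compl_iff, mem_closedBall, not_le, mem_image, mem_prod, mem_sphere_iff_norm,
      sub_zero, mem_Ioi, Prod.exists]
    constructor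
    · intro hy
      have hpos : 0 < ‖y - x‖ := by rw [← dist_eq_norm]; linarith
      refine ⟨‖y - x‖⁻¹ • (y - x), ‖y - x‖, ⟨?_, ?_⟩, ?_⟩
      · rw [norm_smul, norm_inv, norm_norm, inv_mul_cancel₀ hpos.ne']
      · rw [← dist_eq_norm]; exact hy
      · rw [smul_smul, mul_inv_cancel₀ hpos.ne', one_smul, add_sub_cancel]
    · rintro ⟨u, t, ⟨hu, ht⟩, rfl⟩
      rw [dist_eq_norm, add_sub_cancel_left, norm_smul, hu, mul_one, Real.norm_eq_abs,
        abs_of_pos (by linarith)]
      exact ht
  rw [h1]
  apply IsPreconnected.image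
  · exact (isPreconnected_sphere hr 0 1).prod isPreconnected_Ioi
  · fun_prop

/-- PROOF: `R = D \ U` is preconnected and disjoint from the sphere, so `R ⊆ ball x s` or
`R ⊆ (closedBall x s)ᶜ` (`IsPreconnected.subset_or_subset`-type lemma, the two sets are open and
disjoint and cover the complement of the sphere).
First case (`R ⊆ ball x s`): put `T = D ∩ (closedBall x s)ᶜ`. It is open, contained in `U`, so in
the compact set `Z ⊆ D`; therefore `closure T ∩ (closedBall x s)ᶜ ⊆ Z ∩ (closedBall x s)ᶜ ⊆ T`, and
`T` is relatively open and closed in the preconnected set `(closedBall x s)ᶜ`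
(`compl_closedBall_preconnected`). `T` is not empty: the sphere is not empty, its points are in the
open set `U ⊆ D` and are limits of points outside the closed ball. So `T = (closedBall x s)ᶜ`,
which is unbounded, while `Z` is bounded: contradiction.
Second case (`R ⊆ (closedBall x s)ᶜ`): `T = D ∩ ball x s ⊆ U ⊆ Z`; again `T` is open, relatively
closed in `ball x s` (convex, so preconnected), and not empty (points of the sphere are limits of
points of the ball). So `ball x s ⊆ D`, and `ball x s ∩ R = ∅` gives `ball x s ⊆ U`. With the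
sphere: `closedBall x s ⊆ U`. -/
theorem ball_subset_of_sphere_subset {V : Type*} [NormedAddCommGroup V] [NormedSpace ℝ V]
    (hr : 1 < Module.rank ℝ V) {U Z D : Set V} (hU : IsOpen U) (hD : IsOpen D) (hUZ : U ⊆ Z)
    (hZ : IsCompact Z) (hZD : Z ⊆ D) (hR : IsPreconnected (D \ U)) {x : V} {s : ℝ} (hs : 0 < s)
    (hS : sphere x s ⊆ U) : closedBall x s ⊆ U := by
  have hsph : (sphere x s).Nonempty := (isConnected_sphere hr x hs.le).nonempty
  obtain ⟨p, hp⟩ := hsph
  have hps : ‖p - x‖ = s := by rw [← dist_eq_norm]; exact hp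
  have hpU : p ∈ U := hS hp
  obtain ⟨δ, hδ, hδU⟩ := Metric.isOpen_iff.mp hU p hpU
  -- the ray through `p`
  have hray : ∀ c : ℝ, dist (x + c • (p - x)) x = |c| * s := by
    intro c
    rw [dist_eq_norm, add_sub_cancel_left, norm_smul, hps, Real.norm_eq_abs]
  have hray2 : ∀ c : ℝ, dist (x + c • (p - x)) p = |c - 1| * s := by
    intro c
    have h1 : x + c • (p - x) - p = (c - 1) • (p - x) := by
      rw [sub_smul, one_smul]
      abel
    rw [dist_eq_norm, h1, norm_smul, hps, Real.norm_eq_abs]
  set ε : ℝ := min (1 / 2) (δ / (2 * s)) with hε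
  have hε0 : 0 < ε := lt_min (by norm_num) (by positivity)
  have hε1 : ε ≤ 1 / 2 := min_le_left _ _
  have hε2 : ε * s ≤ δ / 2 := by
    have h1 : ε ≤ δ / (2 * s) := min_le_right _ _
    calc ε * s ≤ δ / (2 * s) * s := mul_le_mul_of_nonneg_right h1 hs.le
      _ = δ / 2 := by field_simp
  have hcase : (∀ y ∈ D \ U, y ∉ ball x s) ∨ (∀ y ∈ D \ U, y ∉ (closedBall x s)ᶜ) := by
    by_contra hcon
    push Not at hcon
    obtain ⟨⟨y1, hy1, hy1b⟩, ⟨y2, hy2, hy2b⟩⟩ := hcon
    obtain ⟨z, hz, hz1, hz2⟩ := hR (ball x s) (closedBall x s)ᶜ isOpen_ball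
      isClosed_closedBall.isOpen_compl (by
        intro y hy
        rcases lt_trichotomy (dist y x) s with h | h | h
        · exact Or.inl h
        · exact absurd (hS h) hy.2
        · refine Or.inr ?_
          simp only [mem_compl_iff, mem_closedBall, not_le]
          exact h) ⟨y1, hy1, hy1b⟩ ⟨y2, hy2, hy2b⟩
    exact hz2 (ball_subset_closedBall hz1)
  have hZc : IsOpen Zᶜ := hZ.isClosed.isOpen_compl
  rcases hcase with hA | hB
  · -- `D \ U` does not meet the ball
    have hTU : D ∩ ball x s ⊆ U := by
      intro y hy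
      by_contra hyU
      exact hA y ⟨hy.1, hyU⟩ hy.2
    have hbZ : ball x s ⊆ Z := by
      by_contra hcon
      rw [not_subset] at hcon
      obtain ⟨y, hy, hyZ⟩ := hcon
      have hq : x + (1 - ε) • (p - x) ∈ ball x s ∩ (D ∩ ball x s) := by
        have h1 : x + (1 - ε) • (p - x) ∈ ball x s := by
          rw [mem_ball, hray, abs_of_pos (by linarith)]
          nlinarith
        have h2 : x + (1 - ε) • (p - x) ∈ U := by
          apply hδU
          rw [mem_ball, hray2]
          have h3 : |1 - ε - 1| = ε := by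
            rw [show 1 - ε - 1 = -ε by ring, abs_neg, abs_of_pos hε0]
          rw [h3]
          linarith
        exact ⟨h1, hZD (hUZ h2), h1⟩
      obtain ⟨z, hz, hz1, hz2⟩ := (convex_ball x s).isPreconnected (D ∩ ball x s) Zᶜ
        (hD.inter isOpen_ball) hZc (by
          intro w hw
          by_cases hwD : w ∈ D
          · exact Or.inl ⟨hwD, hw⟩
          · exact Or.inr fun h => hwD (hZD h)) ⟨_, hq⟩ ⟨y, hy, hyZ⟩
      exact hz2 (hUZ (hTU hz1))
    intro y hy
    rcases (mem_closedBall.mp hy).lt_or_eq with h | h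
    · exact hTU ⟨hZD (hbZ h), h⟩
    · exact hS h
  · exfalso
    have hTU : D ∩ (closedBall x s)ᶜ ⊆ U := by
      intro y hy
      by_contra hyU
      exact hB y ⟨hy.1, hyU⟩ hy.2
    have hcZ : (closedBall x s)ᶜ ⊆ Z := by
      by_contra hcon
      rw [not_subset] at hcon
      obtain ⟨y, hy, hyZ⟩ := hcon
      have hq : x + (1 + ε) • (p - x) ∈ (closedBall x s)ᶜ ∩ (D ∩ (closedBall x s)ᶜ) := by
        have h1 : x + (1 + ε) • (p - x) ∈ (closedBall x s)ᶜ := by
          rw [mem_compl_iff, mem_closedBall, hray, abs_of_pos (by linarith), not_le]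
          nlinarith
        have h2 : x + (1 + ε) • (p - x) ∈ U := by
          apply hδU
          rw [mem_ball, hray2]
          have h3 : |1 + ε - 1| = ε := by
            rw [show 1 + ε - 1 = ε by ring, abs_of_pos hε0]
          rw [h3]
          linarith
        exact ⟨h1, hZD (hUZ h2), h1⟩
      obtain ⟨z, hz, hz1, hz2⟩ := compl_closedBall_preconnected hr x hs
        (D ∩ (closedBall x s)ᶜ) Zᶜ (hD.inter isClosed_closedBall.isOpen_compl) hZc (by
          intro w hw
          by_cases hwD : w ∈ D
          · exact Or.inl ⟨hwD, hw⟩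
          · exact Or.inr fun h => hwD (hZD h)) ⟨_, hq⟩ ⟨y, hy, hyZ⟩
      exact hz2 (hUZ (hTU hz1))
    obtain ⟨R, hR2⟩ := hZ.isBounded.subset_closedBall x
    have h1 : x + (|R| / s + 2) • (p - x) ∈ (closedBall x s)ᶜ := by
      have : 0 ≤ |R| / s := by positivity
      rw [mem_compl_iff, mem_closedBall, hray, abs_of_pos (by positivity), not_le]
      nlinarith
    have h2 := hR2 (hcZ h1)
    rw [mem_closedBall, hray, abs_of_pos (by positivity)] at h2
    have h3 : (|R| / s + 2) * s = |R| + 2 * s := by field_simp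
    rw [h3] at h2
    linarith [le_abs_self R]

end Pool.QC3
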