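import Pool.Agent.Lib.MP_6b3014_an.TW2

/-!
# MP_6b3014_an, row TP2

Statements must stay exactly as they are. You may use everything that comes EARLIER in the files
Defs, Base, SkelA, SkelB, SkelC, SkelD, SkelE (there it is sorried), nothing that comes later.
-/

open Set MeasureTheory Metric
open scoped ENNReal NNReal Topology

namespace Pool.QC3

/-- PROOF: `phi` is continuous. -/
theorem isOpen_A0 : IsOpen A0 :=
  isOpen_lt continuous_const phi_lipschitz.continuous

/-- PROOF: `W` is closed (compact) and contains `A0` (`mem_W_of_pos`). -/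
theorem closure_A0_subset : closure A0 ⊆ W :=
  closure_minimal (fun _ hx => mem_W_of_pos hx) isCompact_W.isClosed

theorem C0_subset_A0 : C0 ⊆ A0 := by
  intro x hx
  have h : phi x = 1 := hx
  show 0 < phi x
  rw [h]
  exact one_pos

theorem TP2_phi_eq_one {x : E} : phi x = 1 ↔ rad x = 2 ∧ x 2 = 0 := by
  unfold phi
  constructor
  · intro h
    have h1 : max |rad x - 2| |x 2| = 0 := by
      have h0 : 0 ≤ max |rad x - 2| |x 2| := le_max_of_le_left (abs_nonneg _)
      rcases max_choice 0 (1 - max |rad x - 2| |x 2|) with h2 | h2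
      · rw [h2] at h
        norm_num at h
      · rw [h2] at h
        linarith
    have h2 : |rad x - 2| = 0 :=
      le_antisymm ((le_max_left _ _).trans h1.le) (abs_nonneg _)
    have h3 : |x 2| = 0 := le_antisymm ((le_max_right _ _).trans h1.le) (abs_nonneg _)
    rw [abs_eq_zero] at h2 h3
    exact ⟨by linarith, h3⟩
  · rintro ⟨h1, h2⟩
    rw [h1, h2]
    simp

/-- PROOF: `phi x = 1` iff `rad x = 2` and `x 2 = 0`; polar coordinates in the plane. -/
theorem C0_eq_range : C0 = range circ := by
  ext x
  constructor
  · intro hx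
    obtain ⟨h1, h2⟩ := TP2_phi_eq_one.1 hx
    have h3 : x 0 ^ 2 + x 1 ^ 2 = 4 := by
      have h4 : rad x ^ 2 = 4 := by
        rw [h1]
        norm_num
      unfold rad at h4
      rwa [Real.sq_sqrt (by positivity)] at h4
    have h5 : ‖(⟨x 0, x 1⟩ : ℂ)‖ = 2 := by
      rw [Complex.norm_def, Complex.normSq_mk]
      have : x 0 * x 0 + x 1 * x 1 = 2 ^ 2 := by linarith
      rw [this, Real.sqrt_sq (by norm_num)]
    refine ⟨Complex.arg ⟨x 0, x 1⟩, ?_⟩
    have h6 := Complex.norm_mul_cos_arg (⟨x 0, x 1⟩ : ℂ)
    have h7 := Complex.norm_mul_sin_arg (⟨x 0, x 1⟩ : ℂ)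
    rw [h5] at h6 h7
    ext i
    fin_cases i
    · simpa [circ] using h6
    · simpa [circ] using h7
    · simpa [circ] using h2.symm
  · rintro ⟨t, rfl⟩
    refine TP2_phi_eq_one.2 ⟨?_, ?_⟩
    · unfold rad circ
      have : (2 * Real.cos t) ^ 2 + (2 * Real.sin t) ^ 2 = 2 ^ 2 := by
        have := Real.cos_sq_add_sin_sq t
        nlinarith
      simp only [Matrix.cons_val_zero, Matrix.cons_val_one]
      rw [this, Real.sqrt_sq (by norm_num)]
    · simp [circ]

theorem circ_continuous : Continuous circ := by
  unfold circ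
  refine (PiLp.continuous_toLp 2 _).comp (continuous_pi fun i => ?_)
  fin_cases i
  · exact continuous_const.mul Real.continuous_cos
  · exact continuous_const.mul Real.continuous_sin
  · exact continuous_const

theorem TP2_circ_periodic : Function.Periodic circ (2 * Real.pi) := by
  intro t
  unfold circ
  rw [Real.cos_add_two_pi, Real.sin_add_two_pi]

/-- PROOF: image of `Icc 0 (2π)` or of `ℝ` under the continuous map `circ` (compact: image of
`Icc 0 (2 * π)` by periodicity; connected: image of `ℝ`). -/
theorem isCompact_C0 : IsCompact C0 := by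
  have h : C0 = circ '' Icc 0 (2 * Real.pi) := by
    rw [C0_eq_range]
    have := TP2_circ_periodic.image_Icc Real.two_pi_pos 0
    rw [zero_add] at this
    exact this.symm
  rw [h]
  exact isCompact_Icc.image circ_continuous

theorem isConnected_C0 : IsConnected C0 := by
  rw [C0_eq_range]
  exact isConnected_range circ_continuous

theorem circ_ne : circ 0 ≠ circ Real.pi := by
  intro h
  have h1 : (circ 0) 0 = (circ Real.pi) 0 := by rw [h]
  simp [circ] at h1
  norm_num at h1

end Pool.QC3
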