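import Pool.Agent.Lib.MP_6b3014_an.TP2

/-!
# MP_6b3014_an, row TP3

Statements must stay exactly as they are. You may use everything that comes EARLIER in the files
Defs, Base, SkelA, SkelB, SkelC, SkelD, SkelE (there it is sorried), nothing that comes later.
-/

open Set MeasureTheory Metric
open scoped ENNReal NNReal Topology

namespace Pool.QC3

theorem TP3_mem (x : E) : x ∈ B0 \ A0 ↔ x 0 ^ 2 + x 1 ^ 2 + x 2 ^ 2 < 16 ∧
    (x 0 ^ 2 + x 1 ^ 2 ≤ 1 ∨ 9 ≤ x 0 ^ 2 + x 1 ^ 2 ∨ 1 ≤ x 2 ^ 2) := by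
  have h1 : x ∈ B0 ↔ x 0 ^ 2 + x 1 ^ 2 + x 2 ^ 2 < 16 := by
    unfold B0
    rw [mem_ball_zero_iff, EuclideanSpace.norm_eq, Real.sqrt_lt' (by norm_num), Fin.sum_univ_three]
    simp only [Real.norm_eq_abs, sq_abs]
    norm_num
  have h2 : x ∉ A0 ↔ (x 0 ^ 2 + x 1 ^ 2 ≤ 1 ∨ 9 ≤ x 0 ^ 2 + x 1 ^ 2 ∨ 1 ≤ x 2 ^ 2) := by
    unfold A0 phi
    have hr : 0 ≤ rad x := Real.sqrt_nonneg _
    have hr2 : rad x ^ 2 = x 0 ^ 2 + x 1 ^ 2 := Real.sq_sqrt (by positivity)
    have e1 : x 0 ^ 2 + x 1 ^ 2 ≤ 1 ↔ rad x ≤ 1 := by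
      rw [← hr2]
      constructor
      · intro h
        nlinarith
      · intro h
        nlinarith
    have e2 : 9 ≤ x 0 ^ 2 + x 1 ^ 2 ↔ 3 ≤ rad x := by
      rw [← hr2]
      constructor
      · intro h
        nlinarith
      · intro h
        nlinarith
    have e3 : 1 ≤ x 2 ^ 2 ↔ 1 ≤ |x 2| := by
      rw [← sq_abs]
      have := abs_nonneg (x 2)
      constructor
      · intro h
        nlinarith
      · intro h
        nlinarith
    rw [e1, e2, e3, mem_ofPred_eq, not_lt, max_le_iff]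
    simp only [le_refl, true_and, tsub_le_iff_right, zero_add, le_max_iff, le_abs]
    constructor
    · rintro ((h | h) | (h | h))
      · right; left; linarith
      · left; linarith
      · right; right; left; exact h
      · right; right; right; exact h
    · rintro (h | h | h | h)
      · left; right; linarith
      · left; left; linarith
      · right; left; exact h
      · right; right; exact h
  rw [mem_sdiff, h1, h2]

theorem TP3_join {x y : E} (h : ∀ θ ∈ Icc (0 : ℝ) 1, x + θ • (y - x) ∈ B0 \ A0) :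
    JoinedIn (B0 \ A0) x y := by
  refine JoinedIn.of_segment_subset ?_
  rw [segment_eq_image']
  rintro _ ⟨θ, hθ, rfl⟩
  exact h θ hθ

theorem TP3_axis {z : ℝ} (hz : z ^ 2 < 16) :
    JoinedIn (B0 \ A0) (!₂[0, 0, z] : E) (!₂[0, 0, 1] : E) := by
  refine TP3_join ?_
  rintro θ ⟨h0, h1⟩
  rw [TP3_mem]
  simp only [PiLp.add_apply, PiLp.smul_apply, PiLp.sub_apply, smul_eq_mul, Matrix.cons_val_zero,
    Matrix.cons_val_one, Matrix.cons_val]
  have ha : |z| < 4 := by
    have := abs_nonneg z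
    rw [← sq_abs] at hz
    nlinarith
  rw [abs_lt] at ha
  constructor
  · have h2 : -4 < z + θ * (1 - z) := by nlinarith
    have h3 : z + θ * (1 - z) < 4 := by nlinarith
    nlinarith
  · left
    norm_num

theorem TP3_toAxis {x : E} (hn : x 0 ^ 2 + x 1 ^ 2 + x 2 ^ 2 < 16)
    (h : x 0 ^ 2 + x 1 ^ 2 ≤ 1 ∨ 1 ≤ x 2 ^ 2) :
    JoinedIn (B0 \ A0) x (!₂[0, 0, 1] : E) := by
  have h1 : JoinedIn (B0 \ A0) x (!₂[0, 0, x 2] : E) := by
    refine TP3_join ?_
    rintro θ ⟨h0, h1⟩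
    rw [TP3_mem]
    simp only [PiLp.add_apply, PiLp.smul_apply, PiLp.sub_apply, smul_eq_mul, Matrix.cons_val_zero,
      Matrix.cons_val_one, Matrix.cons_val]
    have e0 : x 0 + θ * (0 - x 0) = (1 - θ) * x 0 := by ring
    have e1 : x 1 + θ * (0 - x 1) = (1 - θ) * x 1 := by ring
    have e2 : x 2 + θ * (x 2 - x 2) = x 2 := by ring
    rw [e0, e1, e2]
    have hle : (1 - θ) ^ 2 ≤ 1 := by nlinarith
    have hle' : ((1 - θ) * x 0) ^ 2 + ((1 - θ) * x 1) ^ 2 ≤ x 0 ^ 2 + x 1 ^ 2 := by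
      have : ((1 - θ) * x 0) ^ 2 + ((1 - θ) * x 1) ^ 2 = (1 - θ) ^ 2 * (x 0 ^ 2 + x 1 ^ 2) := by
        ring
      rw [this]
      exact mul_le_of_le_one_left (by positivity) hle
    refine ⟨by linarith, ?_⟩
    rcases h with h | h
    · left; linarith
    · right; right; exact h
  refine h1.trans (TP3_axis ?_)
  nlinarith [sq_nonneg (x 0), sq_nonneg (x 1)]

theorem TP3_all {x : E} (hx : x ∈ B0 \ A0) : JoinedIn (B0 \ A0) x (!₂[0, 0, 1] : E) := by
  rw [TP3_mem] at hx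
  obtain ⟨hn, hc⟩ := hx
  by_cases h : x 0 ^ 2 + x 1 ^ 2 ≤ 1 ∨ 1 ≤ x 2 ^ 2
  · exact TP3_toAxis hn h
  rw [not_or, not_le, not_le] at h
  obtain ⟨ha, hb⟩ := h
  have h9 : 9 ≤ x 0 ^ 2 + x 1 ^ 2 := by
    rcases hc with hc | hc | hc
    · linarith
    · exact hc
    · linarith
  set R : ℝ := x 0 ^ 2 + x 1 ^ 2 with hR
  set r : ℝ := √R with hr
  have hr2 : r ^ 2 = R := Real.sq_sqrt (by linarith)
  have hr3 : 3 ≤ r := by
    rw [hr]
    refine Real.le_sqrt_of_sq_le ?_
    linarith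
  set c : ℝ := 3 / r with hcdef
  have hrpos : 0 < r := by linarith
  have hcr : c * r = 3 := by
    rw [hcdef]
    field_simp
  have hc0 : 0 < c := by positivity
  have hc1 : c ≤ 1 := by
    rw [hcdef, div_le_one hrpos]
    exact hr3
  have hc9 : c ^ 2 * R = 9 := by
    rw [← hr2, ← mul_pow, hcr]
    norm_num
  have h1 : JoinedIn (B0 \ A0) x (!₂[c * x 0, c * x 1, x 2] : E) := by
    refine TP3_join ?_
    rintro θ ⟨h0, h1⟩
    rw [TP3_mem]
    simp only [PiLp.add_apply, PiLp.smul_apply, PiLp.sub_apply, smul_eq_mul, Matrix.cons_val_zero,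
      Matrix.cons_val_one, Matrix.cons_val]
    set u : ℝ := 1 - θ + θ * c with hu
    have e0 : x 0 + θ * (c * x 0 - x 0) = u * x 0 := by rw [hu]; ring
    have e1 : x 1 + θ * (c * x 1 - x 1) = u * x 1 := by rw [hu]; ring
    have e2 : x 2 + θ * (x 2 - x 2) = x 2 := by ring
    have e3 : (u * x 0) ^ 2 + (u * x 1) ^ 2 = u ^ 2 * R := by rw [hR]; ring
    have hu1 : u ≤ 1 := by rw [hu]; nlinarith
    have hu0 : c ≤ u := by rw [hu]; nlinarith
    rw [e0, e1, e2, e3]
    have hu2 : u ^ 2 ≤ 1 := by nlinarith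
    have hu3 : c ^ 2 ≤ u ^ 2 := by nlinarith
    have hR0 : 0 ≤ R := by linarith
    have h5 : u ^ 2 * R ≤ 1 * R := mul_le_mul_of_nonneg_right hu2 hR0
    have h6 : c ^ 2 * R ≤ u ^ 2 * R := mul_le_mul_of_nonneg_right hu3 hR0
    refine ⟨by linarith, Or.inr (Or.inl ?_)⟩
    linarith
  have h2 : JoinedIn (B0 \ A0) (!₂[c * x 0, c * x 1, x 2] : E)
      (!₂[c * x 0, c * x 1, 1] : E) := by
    refine TP3_join ?_
    rintro θ ⟨h0, h1⟩
    rw [TP3_mem]
    simp only [PiLp.add_apply, PiLp.smul_apply, PiLp.sub_apply, smul_eq_mul, Matrix.cons_val_zero,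
      Matrix.cons_val_one, Matrix.cons_val]
    have e0 : c * x 0 + θ * (c * x 0 - c * x 0) = c * x 0 := by ring
    have e1 : c * x 1 + θ * (c * x 1 - c * x 1) = c * x 1 := by ring
    have e3 : (c * x 0) ^ 2 + (c * x 1) ^ 2 = 9 := by rw [← hc9, hR]; ring
    rw [e0, e1, e3]
    refine ⟨?_, Or.inr (Or.inl le_rfl)⟩
    have hz : |x 2| < 1 := by
      have := abs_nonneg (x 2)
      rw [← sq_abs] at hb
      nlinarith
    rw [abs_lt] at hz
    have h3 : -1 ≤ x 2 + θ * (1 - x 2) := by nlinarith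
    have h4 : x 2 + θ * (1 - x 2) ≤ 1 := by nlinarith
    have h5 : (x 2 + θ * (1 - x 2)) ^ 2 ≤ 1 := by
      rw [sq_le_one_iff_abs_le_one, abs_le]
      exact ⟨h3, h4⟩
    linarith
  refine h1.trans (h2.trans (TP3_toAxis ?_ (Or.inr ?_)))
  · have e3 : (c * x 0) ^ 2 + (c * x 1) ^ 2 = 9 := by rw [← hc9, hR]; ring
    simp only [Matrix.cons_val_zero, Matrix.cons_val_one, Matrix.cons_val]
    rw [e3]
    norm_num
  · simp only [Matrix.cons_val]
    norm_num

/-- PROOF: `x ∈ B0 \ A0` iff `‖x‖ < 4` and (`rad x ≤ 1` or `rad x ≥ 3` or `|x 2| ≥ 1`); every such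
point can be joined inside the set to the point `e = (0, 0, 1)`:
* if `rad x ≤ 1` or `rad x ≥ 3`... vertical segments may leave the ball when `rad x ≥ 3` is close to
`4`; so argue as follows. Let `x = (p, z)` with `p` in the plane, `r = |p|`.
* If `|z| ≥ 1`: the horizontal segment from `x` to `(0, z)` stays in the set (`|z| ≥ 1`, the norm
decreases).
* Points `(0, z)`, `|z| < 4`, are joined to each other along the axis (`rad = 0 ≤ 1`).
* If `r ≤ 1`: the horizontal segment to `(0, z)` stays in the set (`rad ≤ 1`).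
* If `r ≥ 3` and `|z| < 1`: first move horizontally towards the axis until `rad = 3` (norm
decreases, `rad ≥ 3`), then vertically from `(p', z)`, `|p'| = 3`, to `(p', 1)`: the norm is at most
`√(9 + 1) < 4` and `rad = 3`; now `|z| ≥ 1` and the previous case applies.
Use `JoinedIn`/`IsPathConnected`, or unions of preconnected sets
(`IsPreconnected.union`, convex sets). -/
theorem isPreconnected_B0_diff : IsPreconnected (B0 \ A0) := by
  have he : (!₂[0, 0, 1] : E) ∈ B0 \ A0 := by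
    rw [TP3_mem]
    simp only [Matrix.cons_val_zero, Matrix.cons_val_one, Matrix.cons_val]
    norm_num
  have h : IsPathConnected (B0 \ A0) := ⟨_, he, fun {y} hy => (TP3_all hy).symm⟩
  exact h.isConnected.isPreconnected

end Pool.QC3
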