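import Pool.Agent.Lib.MP_6b3014_an.TP2

/-!
# MP_6b3014_an, row TP4

Statements must stay exactly as they are. You may use everything that comes EARLIER in the files
Defs, Base, SkelA, SkelB, SkelC, SkelD, SkelE (there it is sorried), nothing that comes later.
-/

open Set MeasureTheory Metric
open scoped ENNReal NNReal Topology

namespace Pool.QC3

theorem TP4_const {φ : ℝ → ℂ} (hφ : Continuous φ)
    (h : ∀ t, Complex.exp (φ t) = Complex.exp (φ 0)) (t : ℝ) : φ t = φ 0 := by
  have hint : ∀ t, ∃ n : ℤ, φ t = φ 0 + n * (2 * Real.pi * Complex.I) := fun t =>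
    Complex.exp_eq_exp_iff_exists_int.mp (h t)
  set f : ℝ → ℝ := fun t => (φ t - φ 0).im / (2 * Real.pi) with hf
  have hfc : Continuous f :=
    (Complex.continuous_im.comp (hφ.sub continuous_const)).div_const _
  have hfn : ∀ t, ∃ n : ℤ, f t = n ∧ φ t = φ 0 + n * (2 * Real.pi * Complex.I) := by
    intro t
    obtain ⟨n, hn⟩ := hint t
    refine ⟨n, ?_, hn⟩
    simp only [hf]
    rw [hn]
    simp
  have hf0 : f 0 = 0 := by simp [hf]
  have hrange : ∀ c : ℝ, c ∈ range f → ∃ n : ℤ, c = n := by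
    rintro c ⟨s, rfl⟩
    obtain ⟨n, hn, _⟩ := hfn s
    exact ⟨n, hn⟩
  obtain ⟨n, hn, hφt⟩ := hfn t
  have hn0 : n = 0 := by
    by_contra hne
    rcases lt_or_gt_of_ne hne with hlt | hgt
    · have h1 : f t ≤ -1 := by
        rw [hn]
        exact_mod_cast (show n ≤ -1 by omega)
      obtain ⟨m, hm⟩ := hrange _ (mem_range_of_exists_le_of_exists_ge hfc
        ⟨t, (by linarith : f t ≤ -1 / 2)⟩ ⟨0, (by rw [hf0]; norm_num : -1 / 2 ≤ f 0)⟩)
      have h2 : ((2 * m : ℤ) : ℝ) = ((-1 : ℤ) : ℝ) := by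
        push_cast
        linarith
      have h3 : 2 * m = -1 := by exact_mod_cast h2
      omega
    · have h1 : 1 ≤ f t := by
        rw [hn]
        exact_mod_cast (show 1 ≤ n by omega)
      obtain ⟨m, hm⟩ := hrange _ (mem_range_of_exists_le_of_exists_ge hfc
        ⟨0, (by rw [hf0]; norm_num : f 0 ≤ 1 / 2)⟩ ⟨t, (by linarith : 1 / 2 ≤ f t)⟩)
      have h2 : ((2 * m : ℤ) : ℝ) = ((1 : ℤ) : ℝ) := by
        push_cast
        linarith
      have h3 : 2 * m = 1 := by exact_mod_cast h2
      omega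
  rw [hφt, hn0]
  simp

/-- The circle cannot be contracted off the vertical axis.
PROOF: let `w x = x 0 + i x 1 : ℂ`, nonzero when `0 < rad x`. Put, for `s ∈ [0, 1]` (extended to all
real `s` by projection to `[0, 1]`) and `t ∈ ℝ`, `H (s, t) = w (g ((1 - s) • l 0 + s • l t))`: a
continuous map to `ℂ \ {0}` (convexity of `Q`). As `ℝ × ℝ` is simply connected and locally path
connected, there is a continuous `Λ : ℝ × ℝ → ℂ` with `exp Λ = H`
(`Complex.isCoveringMap_exp` / `IsCoveringMapOn.existsUnique_continuousMap_lifts`).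
`H (0, t)` is constant in `t`, so `Λ (0, ·)` is continuous with values in a translate of `2πi ℤ`,
hence constant. `H (s, 0)` is constant in `s` and so is `H (s, 2π)` (`l (2π) = l 0`), so
`Λ (·, 0)` and `Λ (·, 2π)` are constant. Therefore `Λ (1, 0) = Λ (0, 0) = Λ (0, 2π) = Λ (1, 2π)`.
But `H (1, t) = w (circ t) = 2 exp (i t)`, so `Λ (1, t) - i t` is continuous with constant
exponential `2`, hence constant, and `Λ (1, 2π) = Λ (1, 0) + 2 π i`: contradiction. -/
theorem no_contract {V : Type*} [NormedAddCommGroup V] [NormedSpace ℝ V] {Q : Set V}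
    (hQ : Convex ℝ Q) {g : V → E} (hg : ContinuousOn g Q) (hpos : ∀ q ∈ Q, 0 < rad (g q))
    {l : ℝ → V} (hl : Continuous l) (hlQ : ∀ t, l t ∈ Q) (hper : l (2 * Real.pi) = l 0)
    (hgl : ∀ t, g (l t) = circ t) : False := by
  have hQmem : ∀ (c t : ℝ), 0 ≤ c → c ≤ 1 → l 0 + c • (l t - l 0) ∈ Q := by
    intro c t hc0 hc1
    have h1 := hQ (hlQ 0) (hlQ t) (show 0 ≤ 1 - c by linarith) hc0 (by ring)
    have h2 : l 0 + c • (l t - l 0) = (1 - c) • l 0 + c • l t := by
      rw [smul_sub, sub_smul, one_smul]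
      abel
    rw [h2]
    exact h1
  set w : E → ℂ := fun x => (x 0 : ℂ) + (x 1 : ℂ) * Complex.I with hw
  have hwc : Continuous w := by
    have h0 : Continuous fun x : E => x 0 := by fun_prop
    have h1 : Continuous fun x : E => x 1 := by fun_prop
    exact (Complex.continuous_ofReal.comp h0).add
      ((Complex.continuous_ofReal.comp h1).mul continuous_const)
  have hw0 : ∀ x : E, 0 < rad x → w x ≠ 0 := by
    intro x hx h
    have hre := congrArg Complex.re h
    have him := congrArg Complex.im h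
    simp [hw] at hre him
    unfold rad at hx
    rw [hre, him] at hx
    simp at hx
  set pr : ℝ → ℝ := fun s => (projIcc (0 : ℝ) 1 zero_le_one s : ℝ) with hpr
  have hprc : Continuous pr := continuous_subtype_val.comp continuous_projIcc
  have hpr0 : ∀ s, 0 ≤ pr s := fun s => (projIcc (0 : ℝ) 1 zero_le_one s).2.1
  have hpr1 : ∀ s, pr s ≤ 1 := fun s => (projIcc (0 : ℝ) 1 zero_le_one s).2.2
  have hprz : pr 0 = 0 := by simp [hpr]
  have hpro : pr 1 = 1 := by simp [hpr]
  set A : ℝ × ℝ → V := fun p => l 0 + pr p.1 • (l p.2 - l 0) with hA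
  have hAc : Continuous A := by
    have h1 : Continuous fun p : ℝ × ℝ => pr p.1 := hprc.comp continuous_fst
    have h2 : Continuous fun p : ℝ × ℝ => l p.2 := hl.comp continuous_snd
    exact continuous_const.add (h1.smul (h2.sub continuous_const))
  have hAQ : ∀ p, A p ∈ Q := fun p => hQmem _ _ (hpr0 _) (hpr1 _)
  set H : ℝ × ℝ → ℂ := fun p => w (g (A p)) with hH
  have hHc : Continuous H := by
    have h1 : ContinuousOn (fun p => g (A p)) univ :=
      hg.comp hAc.continuousOn fun p _ => hAQ p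
    exact hwc.comp (continuousOn_univ.mp h1)
  have hH0 : ∀ p, H p ≠ 0 := fun p => hw0 _ (hpos _ (hAQ p))
  obtain ⟨Λ, hΛc, hΛ⟩ : ∃ Λ : ℝ × ℝ → ℂ, Continuous Λ ∧ ∀ p, Complex.exp (Λ p) = H p := by
    have hcon : ContractibleSpace (univ : Set (ℝ × ℝ)) :=
      convex_univ.contractibleSpace univ_nonempty
    have hsc : IsSimplyConnected (univ : Set (ℝ × ℝ)) := by
      show SimplyConnectedSpace (univ : Set (ℝ × ℝ))
      infer_instance
    obtain ⟨Λ, h1, h2⟩ := Complex.exists_continuousOn_eqOn_exp_comp hsc isOpen_univ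
      hHc.continuousOn (by
        rintro ⟨z, _, h⟩
        exact hH0 z h)
    exact ⟨Λ, continuousOn_univ.mp h1, fun p => h2 (mem_univ p)⟩
  have c1 : ∀ t, Λ (0, t) = Λ (0, 0) := by
    intro t
    apply TP4_const (φ := fun t => Λ (0, t)) (hΛc.comp (by fun_prop))
    intro t
    rw [hΛ, hΛ]
    simp only [hH, hA, hprz, zero_smul, add_zero]
  have c2 : ∀ s, Λ (s, 0) = Λ (0, 0) := by
    intro s
    apply TP4_const (φ := fun s => Λ (s, 0)) (hΛc.comp (by fun_prop))
    intro s
    rw [hΛ, hΛ]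
    simp only [hH, hA, sub_self, smul_zero, add_zero]
  have c3 : ∀ s, Λ (s, 2 * Real.pi) = Λ (0, 2 * Real.pi) := by
    intro s
    apply TP4_const (φ := fun s => Λ (s, 2 * Real.pi)) (hΛc.comp (by fun_prop))
    intro s
    rw [hΛ, hΛ]
    simp only [hH, hA, hper, sub_self, smul_zero, add_zero]
  have hH1 : ∀ t, H (1, t) = 2 * Complex.exp (t * Complex.I) := by
    intro t
    have h1 : A (1, t) = l t := by
      simp only [hA, hpro, one_smul]
      abel
    simp only [hH, h1, hgl, hw]
    rw [Complex.exp_mul_I]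
    simp [circ]
    ring
  have c4 : ∀ t, Λ (1, t) - t * Complex.I = Λ (1, 0) - (0 : ℝ) * Complex.I := by
    intro t
    apply TP4_const (φ := fun t : ℝ => Λ (1, t) - t * Complex.I)
    · exact (hΛc.comp (by fun_prop)).sub (Complex.continuous_ofReal.mul continuous_const)
    · intro t
      rw [Complex.exp_sub, Complex.exp_sub, hΛ, hΛ, hH1, hH1,
        mul_div_assoc, div_self (Complex.exp_ne_zero _), mul_div_assoc,
        div_self (Complex.exp_ne_zero _)]
  have h5 := c4 (2 * Real.pi)
  rw [c3 1, c1, c2 1] at h5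
  have h6 := congrArg Complex.im h5
  simp at h6

end Pool.QC3
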