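import Pool.Agent.Lib.MP_6b3014_an.TP1
import Pool.Agent.Lib.MP_6b3014_an.TP3
import Pool.Agent.Lib.MP_6b3014_an.TP4

/-!
# MP_6b3014_an, row TP7

Statements must stay exactly as they are. You may use everything that comes EARLIER in the files
Defs, Base, SkelA, SkelB, SkelC, SkelD, SkelE (there it is sorried), nothing that comes later.
-/

open Set MeasureTheory Metric
open scoped ENNReal NNReal Topology

namespace Pool.QC3

private noncomputable def TP7_e : E ≃ₜ (Fin 3 → ℝ) :=
  (EuclideanSpace.equiv (Fin 3) ℝ).toHomeomorph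

private theorem TP7_co (x : E) : co x = TP7_e x := rfl

private theorem TP7_co_pt (v : Fin 3 → ℝ) : co (pt v) = v := rfl

private theorem TP7_pt_co (x : E) : pt (co x) = x := rfl

private theorem TP7_co_cont : Continuous co := TP7_e.continuous

private theorem TP7_pt_cont : Continuous pt := TP7_e.symm.continuous

private theorem TP7_co_inj : Function.Injective co := TP7_e.injective

private theorem TP7_A0W : A0 ⊆ W := subset_closure.trans closure_A0_subset

private theorem TP7_A0B : A0 ⊆ B0 := TP7_A0W.trans W_subset_B0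

private theorem TP7_circ_mem (t : ℝ) : circ t ∈ C0 := by
  rw [C0_eq_range]
  exact mem_range_self t

private theorem TP7_rad_pos {x : E} (h : x ∈ A0) : 0 < rad x := by
  have h1 : 0 < phi x := h
  unfold phi at h1
  rcases lt_max_iff.mp h1 with h2 | h2
  · exact absurd h2 (lt_irrefl _)
  · have h3 : |rad x - 2| < 1 := lt_of_le_of_lt (le_max_left _ _) (by linarith)
    have h4 := (abs_lt.mp h3).1
    linarith

/-- PROOF: apply `ball_subset_of_sphere_subset` in `V = Fin 3 → ℝ` (rank `3`) to
`U = co '' (h '' A0)`, `Z = co '' (h '' W)`, `D = co '' (h '' B0)` (`co` is a homeomorphism,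
`EuclideanSpace.equiv`/`PiLp.homeomorph`-type facts): `U`, `D` are open, `Z` is compact,
`U ⊆ Z ⊆ D` (`closure_A0_subset` gives `A0 ⊆ W`, `W_subset_B0`), and
`D \ U = co '' (h '' (B0 \ A0))` (injectivity) is preconnected (`isPreconnected_B0_diff`). If no
point `y ∉ h '' A0` satisfied `‖co y - a‖ = s`, the sphere would be contained in `U`, hence
`closedBall a s ⊆ U`, but `c ∈ closedBall a s` is not in `U`. -/
theorem surface_meets {h : OpenPartialHomeomorph E E} (hB : B0 ⊆ h.source) {c : E}
    (hc : c ∉ h '' A0) {a : Fin 3 → ℝ} {s : ℝ} (hs : 0 < s) (hca : ‖co c - a‖ ≤ s) :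
    ∃ y, y ∉ h '' A0 ∧ ‖co y - a‖ = s := by
  by_contra hcon
  push Not at hcon
  have hAs : A0 ⊆ h.source := TP7_A0B.trans hB
  have hWs : W ⊆ h.source := W_subset_B0.trans hB
  have hU : IsOpen (co '' (h '' A0)) :=
    TP7_e.isOpenMap _ (h.isOpen_image_of_subset_source isOpen_A0 hAs)
  have hD : IsOpen (co '' (h '' B0)) :=
    TP7_e.isOpenMap _ (h.isOpen_image_of_subset_source isOpen_ball hB)
  have hZ : IsCompact (co '' (h '' W)) :=
    (isCompact_W.image_of_continuousOn (h.continuousOn.mono hWs)).image TP7_co_cont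
  have hUZ : co '' (h '' A0) ⊆ co '' (h '' W) := image_mono (image_mono TP7_A0W)
  have hZD : co '' (h '' W) ⊆ co '' (h '' B0) := image_mono (image_mono W_subset_B0)
  have hinj : InjOn h B0 := h.injOn.mono hB
  have hdiff : co '' (h '' B0) \ co '' (h '' A0) = co '' (h '' (B0 \ A0)) := by
    rw [hinj.image_sdiff, inter_eq_self_of_subset_right TP7_A0B, image_sdiff TP7_co_inj]
  have hR : IsPreconnected (co '' (h '' B0) \ co '' (h '' A0)) := by
    rw [hdiff]
    exact (isPreconnected_B0_diff.image h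
      (h.continuousOn.mono (sdiff_subset.trans hB))).image co TP7_co_cont.continuousOn
  have hr : 1 < Module.rank ℝ (Fin 3 → ℝ) := by
    rw [rank_fin_fun]
    norm_num
  have hS : sphere a s ⊆ co '' (h '' A0) := by
    intro v hv
    have h1 : ‖co (pt v) - a‖ = s := by
      rw [TP7_co_pt, ← dist_eq_norm]
      exact hv
    by_contra h2
    refine hcon (pt v) (fun h3 => h2 ?_) h1
    exact ⟨pt v, h3, rfl⟩
  have hmain := ball_subset_of_sphere_subset hr hU hD hUZ hZ hZD hR hs hS
  have hcm : co c ∈ closedBall a s := by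
    rw [mem_closedBall, dist_eq_norm]
    exact hca
  obtain ⟨c', hc', hcc⟩ := hmain hcm
  rw [TP7_co_inj hcc] at hc'
  exact hc hc'

/-- PROOF: suppose every point of the closed cube is in `h '' A0`. Apply `no_contract` with
`V = Fin 3 → ℝ`, `Q = closedBall (co (h x)) d` (convex), `g v = h.symm (pt v)` (continuous on `Q`,
because `pt v ∈ h '' A0 ⊆ h.target`), whose values lie in `A0`, where `rad > 0`
(`phi > 0` gives `rad > 1`), and `l t = co (h (circ t))`, continuous, with values in `Q` because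
`circ t ∈ C0` (`C0_eq_range`) and `hd`. `g (l t) = circ t`. -/
theorem exists_near {h : OpenPartialHomeomorph E E} (hB : B0 ⊆ h.source) {x : E} (hx : x ∈ C0)
    {d : ℝ} (hd : ∀ z ∈ C0, ‖co (h z) - co (h x)‖ ≤ d) :
    ∃ c, c ∉ h '' A0 ∧ ‖co c - co (h x)‖ ≤ d := by
  by_contra hcon
  push Not at hcon
  have hAs : A0 ⊆ h.source := TP7_A0B.trans hB
  have hQ : ∀ v ∈ closedBall (co (h x)) d, pt v ∈ h '' A0 := by
    intro v hv
    by_contra h1
    have h2 := hcon (pt v) h1
    rw [TP7_co_pt, ← dist_eq_norm] at h2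
    exact absurd (mem_closedBall.mp hv) (not_le.mpr h2)
  refine no_contract (V := Fin 3 → ℝ) (Q := closedBall (co (h x)) d)
    (g := fun v => h.symm (pt v)) (l := fun t => co (h (circ t)))
    (convex_closedBall _ _) ?_ ?_ ?_ ?_ ?_ ?_
  · refine h.symm.continuousOn.comp TP7_pt_cont.continuousOn ?_
    intro v hv
    obtain ⟨w, hw, hwv⟩ := hQ v hv
    rw [← hwv]
    exact h.map_source (hAs hw)
  · intro v hv
    obtain ⟨w, hw, hwv⟩ := hQ v hv
    rw [← hwv, h.left_inv (hAs hw)]
    exact TP7_rad_pos hw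
  · refine TP7_co_cont.comp ?_
    exact h.continuousOn.comp_continuous circ_continuous
      fun t => hAs (C0_subset_A0 (TP7_circ_mem t))
  · intro t
    rw [mem_closedBall, dist_eq_norm]
    exact hd _ (TP7_circ_mem t)
  · have h1 : circ (2 * Real.pi) = circ 0 := by
      unfold circ
      simp
    rw [h1]
  · intro t
    rw [TP7_pt_co, h.left_inv (hAs (C0_subset_A0 (TP7_circ_mem t)))]

/-- PROOF: `z ↦ ‖co (h z) - co (h x)‖` is continuous on the connected set `C0`, vanishes at `x` and
is `≥ s` at `y`. -/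
theorem circle_meets {h : OpenPartialHomeomorph E E} (hB : B0 ⊆ h.source) {x y : E}
    (hx : x ∈ C0) (hy : y ∈ C0) {s : ℝ} (hs : 0 ≤ s) (hsy : s ≤ ‖co (h y) - co (h x)‖) :
    ∃ z ∈ C0, ‖co (h z) - co (h x)‖ = s := by
  have hCs : C0 ⊆ h.source := C0_subset_A0.trans (TP7_A0B.trans hB)
  have hcont : ContinuousOn (fun z => ‖co (h z) - co (h x)‖) C0 := by
    refine ContinuousOn.norm (ContinuousOn.sub ?_ continuousOn_const)
    exact TP7_co_cont.comp_continuousOn (h.continuousOn.mono hCs)
  have h1 := isConnected_C0.isPreconnected.intermediate_value hx hy hcont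
  have h2 : s ∈ Icc ‖co (h x) - co (h x)‖ ‖co (h y) - co (h x)‖ := by
    rw [sub_self, norm_zero]
    exact ⟨hs, hsy⟩
  obtain ⟨z, hz, hzs⟩ := h1 h2
  exact ⟨z, hz, hzs⟩

end Pool.QC3
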