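import Pool.Agent.Lib.MP_6b3014_an.Base

/-!
# MP_6b3014_an, row TW1

Statements must stay exactly as they are. You may use everything that comes EARLIER in the files
Defs, Base, SkelA, SkelB, SkelC, SkelD, SkelE (there it is sorried), nothing that comes later.
-/

open Set MeasureTheory Metric
open scoped ENNReal NNReal Topology

namespace Pool.QC3

theorem rad_nonneg (x : E) : 0 ≤ rad x := Real.sqrt_nonneg _

theorem phi_nonneg (x : E) : 0 ≤ phi x := le_max_left _ _

theorem phi_le_one (x : E) : phi x ≤ 1 := by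
  unfold phi
  apply max_le zero_le_one
  have h : 0 ≤ max |rad x - 2| |x 2| := le_max_of_le_left (abs_nonneg _)
  linarith

theorem TW1_coord_le (x y : E) (i : Fin 3) : |x i - y i| ≤ dist x y := by
  rw [EuclideanSpace.dist_eq, ← Real.sqrt_sq_eq_abs]
  apply Real.sqrt_le_sqrt
  have h : (x i - y i) ^ 2 = dist (x i) (y i) ^ 2 := by rw [Real.dist_eq, sq_abs]
  rw [h]
  exact Finset.single_le_sum (f := fun j => dist (x j) (y j) ^ 2) (fun j _ => sq_nonneg _)
    (Finset.mem_univ i)

theorem TW1_rad_norm (x : E) : rad x = ‖(⟨x 0, x 1⟩ : ℂ)‖ := by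
  rw [rad, Complex.norm_def, Complex.normSq_apply]
  congr 1
  ring

theorem TW1_rad_sub (x y : E) : |rad x - rad y| ≤ dist x y := by
  rw [TW1_rad_norm, TW1_rad_norm]
  refine (abs_norm_sub_norm_le _ _).trans ?_
  rw [Complex.norm_def, EuclideanSpace.dist_eq]
  apply Real.sqrt_le_sqrt
  rw [Complex.normSq_apply, Fin.sum_univ_three]
  simp only [Complex.sub_re, Complex.sub_im, Real.dist_eq, sq_abs]
  nlinarith [sq_nonneg (x 2 - y 2)]

/-- PROOF: `|√(a² + b²) - √(c² + d²)| ≤ √((a - c)² + (b - d)²) ≤ dist x y`. -/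
theorem rad_lipschitz : LipschitzWith 1 rad := by
  apply LipschitzWith.of_dist_le_mul
  intro x y
  rw [Real.dist_eq, NNReal.coe_one, one_mul]
  exact TW1_rad_sub x y

/-- PROOF: `rad` and `x 2` are `1`-Lipschitz; absolute value, max, subtraction from a constant
preserve this. -/
theorem phi_lipschitz : LipschitzWith 1 phi := by
  apply LipschitzWith.of_dist_le_mul
  intro x y
  rw [Real.dist_eq, NNReal.coe_one, one_mul]
  have h1 : |phi x - phi y| ≤
      |(1 - max |rad x - 2| |x 2|) - (1 - max |rad y - 2| |y 2|)| := by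
    unfold phi
    have := abs_max_sub_max_le_max 0 (1 - max |rad x - 2| |x 2|) 0 (1 - max |rad y - 2| |y 2|)
    rw [sub_self, abs_zero] at this
    exact this.trans (max_le (abs_nonneg _) le_rfl)
  have h2 : |(1 - max |rad x - 2| |x 2|) - (1 - max |rad y - 2| |y 2|)| =
      |(max |rad x - 2| |x 2|) - (max |rad y - 2| |y 2|)| := by
    rw [← abs_neg]
    congr 1
    ring
  rw [h2] at h1
  refine h1.trans ((abs_max_sub_max_le_max _ _ _ _).trans ?_)
  apply max_le
  · refine (abs_abs_sub_abs_le_abs_sub _ _).trans ?_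
    have h3 : rad x - 2 - (rad y - 2) = rad x - rad y := by ring
    rw [h3]
    exact TW1_rad_sub x y
  · exact (abs_abs_sub_abs_le_abs_sub _ _).trans (TW1_coord_le x y 2)

theorem TW1_twist0 (c : ℝ) (x : E) :
    twist c x 0 = Real.cos (c * phi x) * x 0 - Real.sin (c * phi x) * x 1 := by
  simp [twist]

theorem TW1_twist1 (c : ℝ) (x : E) :
    twist c x 1 = Real.sin (c * phi x) * x 0 + Real.cos (c * phi x) * x 1 := by
  simp [twist]

theorem TW1_twist2 (c : ℝ) (x : E) : twist c x 2 = x 2 := by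
  simp [twist]

theorem rad_twist (c : ℝ) (x : E) : rad (twist c x) = rad x := by
  unfold rad
  rw [TW1_twist0, TW1_twist1]
  congr 1
  have h := Real.sin_sq_add_cos_sq (c * phi x)
  linear_combination (x 0 ^ 2 + x 1 ^ 2) * h

theorem phi_twist (c : ℝ) (x : E) : phi (twist c x) = phi x := by
  unfold phi
  rw [rad_twist, TW1_twist2]

theorem TW1_ext {x y : E} (h0 : x 0 = y 0) (h1 : x 1 = y 1) (h2 : x 2 = y 2) : x = y := by
  ext i
  fin_cases i
  · exact h0
  · exact h1
  · exact h2

theorem twist_zero (x : E) : twist 0 x = x := by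
  apply TW1_ext
  · rw [TW1_twist0]
    simp
  · rw [TW1_twist1]
    simp
  · rw [TW1_twist2]

/-- PROOF: `phi_twist` and the addition formulas. -/
theorem twist_add (c d : ℝ) (x : E) : twist c (twist d x) = twist (c + d) x := by
  apply TW1_ext
  · rw [TW1_twist0, TW1_twist0, phi_twist, TW1_twist0, TW1_twist1, add_mul, Real.cos_add,
      Real.sin_add]
    ring
  · rw [TW1_twist1, TW1_twist1, phi_twist, TW1_twist0, TW1_twist1, add_mul, Real.cos_add,
      Real.sin_add]
    ring
  · rw [TW1_twist2, TW1_twist2, TW1_twist2]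

theorem twist_of_phi_eq_zero (c : ℝ) {x : E} (h : phi x = 0) : twist c x = x := by
  apply TW1_ext
  · rw [TW1_twist0, h]
    simp
  · rw [TW1_twist1, h]
    simp
  · rw [TW1_twist2]

/-- PROOF: `phi x > 0` gives `|rad x - 2| < 1` and `|x 2| < 1`. -/
theorem mem_W_of_pos {x : E} (h : 0 < phi x) : x ∈ W := by
  unfold phi at h
  have h1 : 0 < 1 - max |rad x - 2| |x 2| := by
    rcases lt_max_iff.1 h with h1 | h1
    · exact absurd h1 (lt_irrefl _)
    · exact h1
  have h2 : |rad x - 2| < 1 := lt_of_le_of_lt (le_max_left _ _) (by linarith)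
  have h3 : |x 2| < 1 := lt_of_le_of_lt (le_max_right _ _) (by linarith)
  rw [abs_lt] at h2
  exact ⟨by linarith [h2.1], by linarith [h2.2], h3.le⟩

theorem TW1_norm_sq (x : E) : ‖x‖ ^ 2 = rad x ^ 2 + (x 2) ^ 2 := by
  rw [EuclideanSpace.norm_sq_eq, Fin.sum_univ_three, rad, Real.sq_sqrt (by positivity)]
  simp only [Real.norm_eq_abs, sq_abs]

/-- PROOF: `‖x‖² = rad x ² + (x 2)² ≤ 10 < 16`. -/
theorem W_subset_B0 : W ⊆ B0 := by
  rintro x ⟨h1, h2, h3⟩
  rw [B0, mem_ball_zero_iff]
  have h4 := TW1_norm_sq x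
  have h5 : (x 2) ^ 2 ≤ 1 := by
    rw [← sq_abs]
    nlinarith [abs_nonneg (x 2)]
  have h6 : rad x ^ 2 ≤ 9 := by nlinarith
  nlinarith [norm_nonneg x]

/-- PROOF: closed and bounded (`‖x‖² = rad x ² + (x 2)² ≤ 10`) in a finite dimensional space. -/
theorem isCompact_W : IsCompact W := by
  apply Metric.isCompact_of_isClosed_isBounded
  · have hr : Continuous rad := rad_lipschitz.continuous
    have h2 : Continuous (fun x : E => |x 2|) := by fun_prop
    exact (isClosed_le continuous_const hr).inter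
      ((isClosed_le hr continuous_const).inter (isClosed_le h2 continuous_const))
  · exact isBounded_ball.subset W_subset_B0

/-- PROOF: `rad`, `x 2` are unchanged. -/
theorem twist_mem_W (c : ℝ) {x : E} : twist c x ∈ W ↔ x ∈ W := by
  unfold W
  simp only [mem_ofPred_eq, rad_twist, TW1_twist2]

/-- PROOF: `W` is contained in the box `|x 0| ≤ 3`, `|x 1| ≤ 3`, `|x 2| ≤ 1` of volume `72`
(`EuclideanSpace.volume_preserving_symm_measurableEquiv_toLp` or
`EuclideanSpace.volume_preserving_measurableEquiv`, `Real.volume_pi_Icc`/`volume_pi_pi`). -/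
theorem volume_W : volume W ≤ 72 := by
  have hmp : MeasurePreserving (@WithLp.ofLp 2 (Fin 3 → ℝ)) := PiLp.volume_preserving_ofLp (Fin 3)
  have hsub : W ⊆ (@WithLp.ofLp 2 (Fin 3 → ℝ)) ⁻¹' (Icc ![-3, -3, -1] ![3, 3, 1]) := by
    rintro x ⟨h1, h2, h3⟩
    rw [abs_le] at h3
    have hs : x 0 ^ 2 + x 1 ^ 2 ≤ 9 := by
      have h4 : rad x ^ 2 = x 0 ^ 2 + x 1 ^ 2 := Real.sq_sqrt (by positivity)
      have h5 := rad_nonneg x
      nlinarith
    have h0 : |x 0| ≤ 3 := by
      apply abs_le_of_sq_le_sq _ (by norm_num)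
      nlinarith [sq_nonneg (x 1)]
    have h1' : |x 1| ≤ 3 := by
      apply abs_le_of_sq_le_sq _ (by norm_num)
      nlinarith [sq_nonneg (x 0)]
    rw [abs_le] at h0 h1'
    simp only [mem_preimage, mem_Icc, Pi.le_def, Fin.forall_fin_succ, Fin.isValue]
    simp
    exact ⟨⟨h0.1, h1'.1, h3.1⟩, h0.2, h1'.2, h3.2⟩
  calc volume W ≤ volume ((@WithLp.ofLp 2 (Fin 3 → ℝ)) ⁻¹' (Icc ![-3, -3, -1] ![3, 3, 1])) :=
        measure_mono hsub
    _ = volume (Icc (![-3, -3, -1] : Fin 3 → ℝ) ![3, 3, 1]) :=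
        hmp.measure_preimage measurableSet_Icc.nullMeasurableSet
    _ = 72 := by
        rw [Real.volume_Icc_pi, Fin.prod_univ_three]
        simp only [Matrix.cons_val_zero, Matrix.cons_val_one, Matrix.cons_val]
        rw [← ENNReal.ofReal_mul (by norm_num), ← ENNReal.ofReal_mul (by norm_num)]
        norm_num
    _ ≤ 72 := le_refl _

end Pool.QC3
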