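import Pool.Agent.Lib.MP_6b3014_an.TW2

/-!
# MP_6b3014_an, row TW5

Statements must stay exactly as they are. You may use everything that comes EARLIER in the files
Defs, Base, SkelA, SkelB, SkelC, SkelD, SkelE (there it is sorried), nothing that comes later.
-/

open Set MeasureTheory Metric
open scoped ENNReal NNReal Topology

namespace Pool.QC3

/-- PROOF: let `t` be the infimum of the closed set of `r ∈ Icc a b` with `phi (γ r) = 0`. Then
`phi (γ r) > 0` for `a ≤ r < t`, so `γ r ∈ W`; `W` is closed, `a < t`, so `γ t ∈ W`. -/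
theorem first_exit {γ : ℝ → E} {a b : ℝ} (hab : a ≤ b) (hγ : ContinuousOn γ (Icc a b))
    (ha : phi (γ a) = 1) (hb : phi (γ b) = 0) :
    ∃ t ∈ Icc a b, phi (γ t) = 0 ∧ ∀ r ∈ Icc a t, γ r ∈ W := by
  have hphi : Continuous phi := phi_lipschitz.continuous
  have hpc : ContinuousOn (fun r => phi (γ r)) (Icc a b) := hphi.comp_continuousOn hγ
  have hS : IsCompact (Icc a b ∩ (fun r => phi (γ r)) ⁻¹' {0}) :=
    isCompact_Icc.of_isClosed_subset
      (hpc.preimage_isClosed_of_isClosed isClosed_Icc isClosed_singleton) inter_subset_left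
  have hne : (Icc a b ∩ (fun r => phi (γ r)) ⁻¹' {0}).Nonempty := ⟨b, ⟨hab, le_refl b⟩, hb⟩
  obtain ⟨t, ht, hmin⟩ := hS.exists_isLeast hne
  have ht0 : phi (γ t) = 0 := ht.2
  have hat : a < t := by
    rcases lt_or_eq_of_le ht.1.1 with h | h
    · exact h
    · exfalso
      rw [← h, ha] at ht0
      exact one_ne_zero ht0
  have hlt : ∀ r ∈ Ico a t, γ r ∈ W := by
    intro r hr
    refine mem_W_of_pos (lt_of_le_of_ne (phi_nonneg _) fun h => ?_)
    have hrS : r ∈ Icc a b ∩ (fun r => phi (γ r)) ⁻¹' {0} :=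
      ⟨⟨hr.1, hr.2.le.trans ht.1.2⟩, h.symm⟩
    exact absurd (hmin hrS) (not_le.mpr hr.2)
  refine ⟨t, ht.1, ht0, fun r hr => ?_⟩
  rcases lt_or_eq_of_le hr.2 with h | h
  · exact hlt r ⟨hr.1, h⟩
  · rw [h]
    have h1 : ContinuousWithinAt γ (Ico a t) t :=
      (hγ t ht.1).mono fun x hx => ⟨hx.1, hx.2.le.trans ht.1.2⟩
    have h2 : t ∈ closure (Ico a t) := by
      rw [closure_Ico hat.ne]
      exact right_mem_Icc.mpr hat.le
    have h3 : γ t ∈ closure W := h1.mem_closure h2 hlt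
    rwa [isCompact_W.isClosed.closure_eq] at h3

/-- PROOF: `phi` is `1`-Lipschitz: `1 = |phi (γ a) - phi (γ t)| ≤ dist (γ a) (γ t)`. -/
theorem one_le_variation {γ : ℝ → E} {a t : ℝ} (hat : a ≤ t) (ha : phi (γ a) = 1)
    (ht : phi (γ t) = 0) : 1 ≤ eVariationOn γ (Icc a t) := by
  refine le_trans ?_ (eVariationOn.edist_le γ (left_mem_Icc.mpr hat) (right_mem_Icc.mpr hat))
  have h := phi_lipschitz (γ a) (γ t)
  rw [ha, ht, ENNReal.coe_one, one_mul] at h
  refine le_trans ?_ h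
  rw [edist_dist, dist_zero_right, norm_one, ENNReal.ofReal_one]

/-- The plane projection as a complex number. -/
noncomputable def TW5_p (x : E) : ℂ := ⟨x 0, x 1⟩

theorem TW5_norm_p (x : E) : ‖TW5_p x‖ = rad x := by
  unfold TW5_p rad
  rw [Complex.norm_eq_sqrt_sq_add_sq]

theorem TW5_norm_sub (x y : E) : ‖TW5_p x - TW5_p y‖ ≤ dist x y := by
  have h1 : TW5_p x - TW5_p y = TW5_p (x - y) := by
    apply Complex.ext
    · rfl
    · rfl
  rw [h1, TW5_norm_p, dist_eq_norm, EuclideanSpace.norm_eq]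
  unfold rad
  apply Real.sqrt_le_sqrt
  rw [Fin.sum_univ_three]
  simp only [Real.norm_eq_abs, sq_abs]
  nlinarith [sq_nonneg ((x - y) 2)]

theorem TW5_p_twist (c : ℝ) (x : E) :
    TW5_p (twist c x) = Complex.exp ((c * phi x : ℝ) * Complex.I) * TW5_p x := by
  rw [Complex.exp_mul_I, ← Complex.ofReal_cos, ← Complex.ofReal_sin]
  unfold TW5_p twist
  generalize Real.cos (c * phi x) = C
  generalize Real.sin (c * phi x) = S
  apply Complex.ext
  · simp
  · simp
    ring

/-- The radial projection on the circle is `1`-Lipschitz outside the disc. -/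
theorem TW5_radial (u v : ℂ) (hu : ‖u‖ = 1) (hv : ‖v‖ = 1) (a b : ℝ) (ha : 1 ≤ a)
    (hb : 1 ≤ b) : ‖u - v‖ ≤ ‖(a : ℂ) * u - (b : ℂ) * v‖ := by
  rw [Complex.norm_eq_sqrt_sq_add_sq, Complex.norm_eq_sqrt_sq_add_sq]
  apply Real.sqrt_le_sqrt
  have hu' : u.re ^ 2 + u.im ^ 2 = 1 := by
    have h := Complex.sq_norm u
    rw [hu, Complex.normSq_apply] at h
    linarith
  have hv' : v.re ^ 2 + v.im ^ 2 = 1 := by
    have h := Complex.sq_norm v
    rw [hv, Complex.normSq_apply] at h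
    linarith
  simp only [Complex.sub_re, Complex.sub_im, Complex.mul_re, Complex.mul_im, Complex.ofReal_re,
    Complex.ofReal_im, zero_mul, sub_zero, add_zero]
  have hR : u.re * v.re + u.im * v.im ≤ 1 := by
    nlinarith [sq_nonneg (u.re - v.re), sq_nonneg (u.im - v.im)]
  have hab : 0 ≤ a * b - 1 := by nlinarith
  have h1 : 0 ≤ (a * b - 1) * (1 - (u.re * v.re + u.im * v.im)) :=
    mul_nonneg hab (by linarith)
  have e1 : (u.re - v.re) ^ 2 + (u.im - v.im) ^ 2 =
      (u.re ^ 2 + u.im ^ 2) + (v.re ^ 2 + v.im ^ 2) - 2 * (u.re * v.re + u.im * v.im) := by ring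
  have e2 : (a * u.re - b * v.re) ^ 2 + (a * u.im - b * v.im) ^ 2 =
      a ^ 2 * (u.re ^ 2 + u.im ^ 2) + b ^ 2 * (v.re ^ 2 + v.im ^ 2) -
        2 * (a * b) * (u.re * v.re + u.im * v.im) := by ring
  rw [e1, e2, hu', hv']
  nlinarith [sq_nonneg (a - b)]

theorem TW5_key (c : ℝ) {x y : E} (hx : x ∈ W) (hy : y ∈ W) :
    ‖Complex.exp ((c * phi x : ℝ) * Complex.I) - Complex.exp ((c * phi y : ℝ) * Complex.I)‖ ≤
      dist (twist c x) (twist c y) + dist x y := by
  have hrx : 1 ≤ rad x := hx.1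
  have hry : 1 ≤ rad y := hy.1
  have hx0 : (rad x : ℂ) ≠ 0 := Complex.ofReal_ne_zero.mpr (by linarith)
  have hy0 : (rad y : ℂ) ≠ 0 := Complex.ofReal_ne_zero.mpr (by linarith)
  set α : ℂ := Complex.exp ((c * phi x : ℝ) * Complex.I) with hα
  set β : ℂ := Complex.exp ((c * phi y : ℝ) * Complex.I) with hβ
  have hαn : ‖α‖ = 1 := Complex.norm_exp_ofReal_mul_I _
  have hβn : ‖β‖ = 1 := Complex.norm_exp_ofReal_mul_I _
  obtain ⟨u, hu, hpu⟩ : ∃ u : ℂ, ‖u‖ = 1 ∧ TW5_p x = (rad x : ℂ) * u := by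
    refine ⟨TW5_p x / (rad x : ℂ), ?_, ?_⟩
    · rw [norm_div, TW5_norm_p, Complex.norm_real, Real.norm_eq_abs, abs_of_nonneg (by linarith),
        div_self (by linarith)]
    · rw [mul_div_cancel₀ _ hx0]
  obtain ⟨v, hv, hpv⟩ : ∃ v : ℂ, ‖v‖ = 1 ∧ TW5_p y = (rad y : ℂ) * v := by
    refine ⟨TW5_p y / (rad y : ℂ), ?_, ?_⟩
    · rw [norm_div, TW5_norm_p, Complex.norm_real, Real.norm_eq_abs, abs_of_nonneg (by linarith),
        div_self (by linarith)]
    · rw [mul_div_cancel₀ _ hy0]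
  have h1 : ‖α * u - β * v‖ ≤ dist (twist c x) (twist c y) := by
    refine le_trans ?_ (TW5_norm_sub (twist c x) (twist c y))
    rw [TW5_p_twist, TW5_p_twist, hpu, hpv, ← hα, ← hβ]
    have h := TW5_radial (α * u) (β * v) (by rw [norm_mul, hαn, hu, one_mul])
      (by rw [norm_mul, hβn, hv, one_mul]) (rad x) (rad y) hrx hry
    have e1 : α * ((rad x : ℂ) * u) = (rad x : ℂ) * (α * u) := by ring
    have e2 : β * ((rad y : ℂ) * v) = (rad y : ℂ) * (β * v) := by ring
    rw [e1, e2]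
    exact h
  have h2 : ‖u - v‖ ≤ dist x y := by
    refine le_trans ?_ (TW5_norm_sub x y)
    rw [hpu, hpv]
    exact TW5_radial u v hu hv (rad x) (rad y) hrx hry
  have h3 : ‖(α - β) * u‖ ≤ ‖α * u - β * v‖ + ‖u - v‖ := by
    have e3 : (α - β) * u = (α * u - β * v) - β * (u - v) := by ring
    rw [e3]
    refine (norm_sub_le _ _).trans ?_
    rw [norm_mul β, hβn, one_mul]
  rw [norm_mul, hu, mul_one] at h3
  linarith

theorem TW5_exp (α β : ℝ) (h : |α - β| ≤ Real.pi) :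
    2 / Real.pi * |α - β| ≤
      ‖Complex.exp ((α : ℝ) * Complex.I) - Complex.exp ((β : ℝ) * Complex.I)‖ := by
  have e : Complex.exp ((α : ℝ) * Complex.I) - Complex.exp ((β : ℝ) * Complex.I) =
      Complex.exp ((β : ℝ) * Complex.I) * (Complex.exp (Complex.I * ((α - β : ℝ) : ℂ)) - 1) := by
    rw [mul_sub, mul_one, ← Complex.exp_add]
    congr 2
    push_cast
    ring
  rw [e, norm_mul, Complex.norm_exp_ofReal_mul_I, one_mul, Complex.norm_exp_I_mul_ofReal_sub_one,
    Real.norm_eq_abs, abs_mul, abs_two]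
  have h1 : |(α - β) / 2| ≤ Real.pi / 2 := by
    rw [abs_div, abs_two]
    linarith
  have h2 := Real.mul_abs_le_abs_sin h1
  rw [abs_div, abs_two] at h2
  linarith

/-- PROOF: let `q x = (x 0 + i x 1) / rad x` for `rad x ≥ 1`. Then `q (twist c x) =
exp (i c phi x) * q x`, so `exp (i c phi x) = q (twist c x) * conj (q x)`, and
`|q x - q y| ≤ 2 * ... `: precisely, for plane vectors `v, w` of norm `≥ 1`,
`|v / |v| - w / |w|| ≤ |v - w|` (the radial projection onto the unit disc is `1`-Lipschitz; or: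
`|v/|v| - w/|w||² = 2 - 2 cos θ` and `|v - w|² = |v|² + |w|² - 2 |v| |w| cos θ ≥ 2 - 2 cos θ` when
`|v|, |w| ≥ 1`, because `(|v| - |w|)² + 2 (|v| |w| - 1)(1 - cos θ) ≥ 0`). Hence for `r ≤ r'` in
`Icc a t`:
`|exp (i c phi (γ r)) - exp (i c phi (γ r'))| ≤ dist (twist c (γ r)) (twist c (γ r')) +
dist (γ r) (γ r')`. The function `r ↦ phi (γ r)` is continuous on `Icc a t`, so there is a partition
`a = r₀ ≤ ... ≤ rₙ = t` with `|c| |phi (γ rᵢ) - phi (γ rᵢ₊₁)| ≤ π` (uniform continuity, equal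
steps), and `|exp (i α) - exp (i β)| ≥ (2/π) |α - β|` for `|α - β| ≤ π`
(`|exp(iα) - exp(iβ)| = 2 |sin ((α-β)/2)|`, `Real.mul_le_sin`). Summing,
`(2/π) |c| = (2/π) |c| |phi (γ a) - phi (γ t)| ≤ Σ (2/π) |c| |phi (γ rᵢ) - phi (γ rᵢ₊₁)| ≤
Σ dist (twist c (γ rᵢ)) (twist c (γ rᵢ₊₁)) + Σ dist (γ rᵢ) (γ rᵢ₊₁) ≤` the two variations
(`eVariationOn.sum_le`). -/
theorem crossing {γ : ℝ → E} {a t c : ℝ} (hat : a ≤ t) (hγ : ContinuousOn γ (Icc a t))
    (ha : phi (γ a) = 1) (ht : phi (γ t) = 0) (hW : ∀ r ∈ Icc a t, γ r ∈ W) :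
    ENNReal.ofReal (2 / Real.pi * |c|) ≤
      eVariationOn γ (Icc a t) + eVariationOn (twist c ∘ γ) (Icc a t) := by
  have hphi : Continuous phi := phi_lipschitz.continuous
  have hpc : ContinuousOn (fun r => phi (γ r)) (Icc a t) := hphi.comp_continuousOn hγ
  have huc := isCompact_Icc.uniformContinuousOn_of_continuous hpc
  obtain ⟨δ, hδ, hδ'⟩ := Metric.uniformContinuousOn_iff.mp huc (Real.pi / (|c| + 1))
    (div_pos Real.pi_pos (by positivity))
  obtain ⟨N, hN⟩ := exists_nat_gt ((t - a) / δ)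
  have hN0 : 0 < (N : ℝ) := lt_of_le_of_lt (div_nonneg (by linarith) hδ.le) hN
  let u : ℕ → ℝ := fun i => a + (i : ℝ) * ((t - a) / N)
  have hstep : 0 ≤ (t - a) / N := div_nonneg (by linarith) hN0.le
  have hstep' : (t - a) / N < δ := by
    rw [div_lt_iff₀ hN0, mul_comm]
    exact (div_lt_iff₀ hδ).mp hN
  have hmono : Monotone u := by
    intro i j hij
    have h : (i : ℝ) ≤ j := by exact_mod_cast hij
    have := mul_le_mul_of_nonneg_right h hstep
    show a + (i : ℝ) * ((t - a) / N) ≤ a + (j : ℝ) * ((t - a) / N)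
    linarith
  have hu0 : u 0 = a := by
    show a + ((0 : ℕ) : ℝ) * ((t - a) / N) = a
    rw [Nat.cast_zero, zero_mul, add_zero]
  have huN : u N = t := by
    show a + (N : ℝ) * ((t - a) / N) = t
    rw [mul_div_cancel₀ _ hN0.ne']
    ring
  have humem : ∀ i ≤ N, u i ∈ Icc a t := by
    intro i hi
    refine ⟨?_, ?_⟩
    · rw [← hu0]
      exact hmono (Nat.zero_le i)
    · rw [← huN]
      exact hmono hi
  have hpoint : ∀ i ∈ Finset.range N,
      ENNReal.ofReal (2 / Real.pi * |c| * (phi (γ (u i)) - phi (γ (u (i + 1))))) ≤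
        edist (γ (u (i + 1))) (γ (u i)) +
          edist ((twist c ∘ γ) (u (i + 1))) ((twist c ∘ γ) (u i)) := by
    intro i hi
    have hiN : i + 1 ≤ N := Finset.mem_range.mp hi
    have h1 := humem i (by omega)
    have h2 := humem (i + 1) hiN
    have h3 : dist (u i) (u (i + 1)) < δ := by
      rw [Real.dist_eq]
      have e : u i - u (i + 1) = -((t - a) / N) := by
        show a + (i : ℝ) * ((t - a) / N) - (a + ((i + 1 : ℕ) : ℝ) * ((t - a) / N)) = _
        push_cast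
        ring
      rw [e, abs_neg, abs_of_nonneg hstep]
      exact hstep'
    have h4 := hδ' (u i) h1 (u (i + 1)) h2 h3
    rw [Real.dist_eq] at h4
    have h5 : |c * phi (γ (u i)) - c * phi (γ (u (i + 1)))| ≤ Real.pi := by
      rw [← mul_sub, abs_mul]
      have hc0 : 0 ≤ |c| := abs_nonneg c
      have h6 : |c| * |phi (γ (u i)) - phi (γ (u (i + 1)))| ≤
          |c| * (Real.pi / (|c| + 1)) := mul_le_mul_of_nonneg_left h4.le hc0
      have h7 : |c| * (Real.pi / (|c| + 1)) ≤ Real.pi := by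
        rw [mul_div_assoc', div_le_iff₀ (by positivity)]
        nlinarith [Real.pi_pos]
      linarith
    have h8 := TW5_exp _ _ h5
    have h9 := TW5_key c (hW _ h1) (hW _ h2)
    rw [← mul_sub, abs_mul] at h8
    have h10 : 2 / Real.pi * |c| * (phi (γ (u i)) - phi (γ (u (i + 1)))) ≤
        dist (γ (u i)) (γ (u (i + 1))) +
          dist (twist c (γ (u i))) (twist c (γ (u (i + 1)))) := by
      have h11 : 2 / Real.pi * |c| * (phi (γ (u i)) - phi (γ (u (i + 1)))) ≤
          2 / Real.pi * |c| * |phi (γ (u i)) - phi (γ (u (i + 1)))| :=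
        mul_le_mul_of_nonneg_left (le_abs_self _)
          (mul_nonneg (div_nonneg zero_le_two Real.pi_pos.le) (abs_nonneg c))
      have h12 : 2 / Real.pi * |c| * |phi (γ (u i)) - phi (γ (u (i + 1)))| =
          2 / Real.pi * (|c| * |phi (γ (u i)) - phi (γ (u (i + 1)))|) := by ring
      linarith
    calc ENNReal.ofReal (2 / Real.pi * |c| * (phi (γ (u i)) - phi (γ (u (i + 1)))))
        ≤ ENNReal.ofReal (dist (γ (u i)) (γ (u (i + 1))) +
          dist (twist c (γ (u i))) (twist c (γ (u (i + 1))))) := ENNReal.ofReal_le_ofReal h10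
      _ = ENNReal.ofReal (dist (γ (u i)) (γ (u (i + 1)))) +
          ENNReal.ofReal (dist (twist c (γ (u i))) (twist c (γ (u (i + 1))))) :=
        ENNReal.ofReal_add dist_nonneg dist_nonneg
      _ = _ := by
        rw [← edist_dist, ← edist_dist, edist_comm (γ (u i)), edist_comm (twist c (γ (u i)))]
        rfl
  have hsum : 2 / Real.pi * |c| =
      ∑ i ∈ Finset.range N, 2 / Real.pi * |c| * (phi (γ (u i)) - phi (γ (u (i + 1)))) := by
    rw [← Finset.mul_sum, Finset.sum_range_sub' (fun i => phi (γ (u i))), hu0, huN, ha, ht,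
      sub_zero, mul_one]
  calc ENNReal.ofReal (2 / Real.pi * |c|)
      = ENNReal.ofReal (∑ i ∈ Finset.range N,
          2 / Real.pi * |c| * (phi (γ (u i)) - phi (γ (u (i + 1))))) := by rw [← hsum]
    _ ≤ ∑ i ∈ Finset.range N, ENNReal.ofReal
          (2 / Real.pi * |c| * (phi (γ (u i)) - phi (γ (u (i + 1))))) :=
        Finset.le_sum_of_subadditive ENNReal.ofReal ENNReal.ofReal_zero.le
          (fun _ _ => ENNReal.ofReal_add_le) _ _
    _ ≤ ∑ i ∈ Finset.range N, (edist (γ (u (i + 1))) (γ (u i)) +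
          edist ((twist c ∘ γ) (u (i + 1))) ((twist c ∘ γ) (u i))) := Finset.sum_le_sum hpoint
    _ = ∑ i ∈ Finset.range N, edist (γ (u (i + 1))) (γ (u i)) +
          ∑ i ∈ Finset.range N, edist ((twist c ∘ γ) (u (i + 1))) ((twist c ∘ γ) (u i)) :=
        Finset.sum_add_distrib
    _ ≤ _ := add_le_add
        (eVariationOn.sum_le_of_monotoneOn_Iic (hmono.monotoneOn _) humem)
        (eVariationOn.sum_le_of_monotoneOn_Iic (hmono.monotoneOn _) humem)

end Pool.QC3
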